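import Pool.Agent.H94.OD.Defs

/-!
# Oriented discrepancy of Hamilton cycles: basic list lemmas
-/

namespace Pool.Agent.H94.OD

open List

set_option linter.unusedSectionVars false

variable {V : Type*} {A : V → V → Prop} [DecidableRel A]

/-! ### arcs -/

theorem Adj.symm {u v : V} (h : Adj A u v) : Adj A v u := Or.symm h

theorem adj_comm {u v : V} : Adj A u v ↔ Adj A v u := or_comm

theorem adj_irrefl (hA : ∀ u v, A u v → ¬ A v u) (u : V) : ¬ Adj A u u := by
  intro h
  rcases h with h | h <;> exact hA _ _ h h

theorem bw_le (a b : V) : bw A a b ≤ 1 := by unfold bw; split <;> simp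

theorem bw_add (hA : ∀ u v, A u v → ¬ A v u) {a b : V} (h : Adj A a b) :
    bw A a b + bw A b a = 1 := by
  unfold bw
  rcases h with h | h
  · simp [h, hA _ _ h]
  · simp [h, hA _ _ h]

/-! ### backward counts of paths -/

@[simp] theorem bk_nil : bk A [] = 0 := rfl
@[simp] theorem bk_single (a : V) : bk A [a] = 0 := rfl
@[simp] theorem bk_cons_cons (a b : V) (t : List V) :
    bk A (a :: b :: t) = bw A a b + bk A (b :: t) := rfl

theorem bk_split (l₁ : List V) (a : V) (l₂ : List V) :
    bk A (l₁ ++ a :: l₂) = bk A (l₁ ++ [a]) + bk A (a :: l₂) := by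
  induction l₁ with
  | nil => simp
  | cons b l₁ ih =>
    cases l₁ with
    | nil => simp
    | cons c l₁ => simp only [cons_append, bk_cons_cons] at ih ⊢; omega

theorem bk_split' (b : V) (l₁ : List V) (a : V) (l₂ : List V) :
    bk A (b :: (l₁ ++ a :: l₂)) = bk A (b :: (l₁ ++ [a])) + bk A (a :: l₂) := by
  have := bk_split (A := A) (b :: l₁) a l₂
  simpa using this

theorem bk_le (l : List V) : bk A l ≤ l.length - 1 := by
  induction l with
  | nil => simp
  | cons a t ih =>
    cases t with
    | nil => simp
    | cons b t =>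
      simp only [bk_cons_cons, length_cons] at ih ⊢
      have := bw_le (A := A) a b
      omega

theorem chain_split {l₁ : List V} {a : V} {l₂ : List V} :
    (l₁ ++ a :: l₂).IsChain (Adj A) ↔
      (l₁ ++ [a]).IsChain (Adj A) ∧ (a :: l₂).IsChain (Adj A) := isChain_split

theorem chain_split' {b : V} {l₁ : List V} {a : V} {l₂ : List V} :
    (b :: (l₁ ++ a :: l₂)).IsChain (Adj A) ↔
      (b :: (l₁ ++ [a])).IsChain (Adj A) ∧ (a :: l₂).IsChain (Adj A) := by
  have := chain_split (A := A) (l₁ := b :: l₁) (a := a) (l₂ := l₂)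
  simpa using this

theorem chain_reverse {l : List V} (h : l.IsChain (Adj A)) : l.reverse.IsChain (Adj A) := by
  rw [isChain_reverse]
  exact h.imp (fun a b hab => Adj.symm hab)

theorem bk_reverse (hA : ∀ u v, A u v → ¬ A v u) {l : List V} (hl : l.IsChain (Adj A)) :
    bk A l + bk A l.reverse = l.length - 1 := by
  induction l with
  | nil => simp
  | cons a t ih =>
    cases t with
    | nil => simp
    | cons b t =>
      have h1 := ih hl.tail
      have hab : Adj A a b := by
        rw [isChain_cons_cons] at hl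
        exact hl.1
      have h2 := bw_add hA hab
      simp only [reverse_cons, append_assoc, cons_append, nil_append, bk_cons_cons] at h1 ⊢
      rw [bk_split]
      simp only [bk_cons_cons, bk_single, length_cons] at h1 ⊢
      omega

/-! ### cycles in two-arc form -/

theorem cyc_iff {x y : V} {Y Z : List V} :
    Cyc A (x :: (Y ++ y :: Z)) ↔
      (x :: (Y ++ y :: Z)).Nodup ∧ 1 ≤ Y.length + Z.length ∧
      (x :: (Y ++ [y])).IsChain (Adj A) ∧ (y :: (Z ++ [x])).IsChain (Adj A) := by
  constructor
  · rintro ⟨h1, h2, h3⟩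
    refine ⟨h1, ?_, ?_⟩
    · simp at h2; omega
    · have : (x :: (Y ++ y :: Z)) ++ (x :: (Y ++ y :: Z)).take 1 =
          x :: (Y ++ y :: (Z ++ [x])) := by simp
      rw [this, chain_split'] at h3
      exact h3
  · rintro ⟨h1, h2, h3, h4⟩
    refine ⟨h1, ?_, ?_⟩
    · simp; omega
    · have : (x :: (Y ++ y :: Z)) ++ (x :: (Y ++ y :: Z)).take 1 =
          x :: (Y ++ y :: (Z ++ [x])) := by simp
      rw [this, chain_split']
      exact ⟨h3, h4⟩

theorem cb_two (x y : V) (Y Z : List V) :
    cb A (x :: (Y ++ y :: Z)) = bk A (x :: (Y ++ [y])) + bk A (y :: (Z ++ [x])) := by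
  unfold cb
  have : (x :: (Y ++ y :: Z)) ++ (x :: (Y ++ y :: Z)).take 1 =
      x :: (Y ++ y :: (Z ++ [x])) := by simp
  rw [this, bk_split']

theorem Cyc.rot1 {a : V} {t : List V} (h : Cyc A (a :: t)) :
    Cyc A (t ++ [a]) ∧ cb A (t ++ [a]) = cb A (a :: t) := by
  cases t with
  | nil => have := h.len; simp at this
  | cons b t =>
    have h' := h
    have e1 : (a :: b :: t) = a :: ([] ++ b :: t) := by simp
    have e2 : (b :: t) ++ [a] = b :: (t ++ a :: []) := by simp
    rw [e1, cyc_iff] at h'
    rw [e1, e2, cyc_iff, cb_two, cb_two]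
    obtain ⟨h1, h2, h3, h4⟩ := h'
    refine ⟨⟨?_, ?_, h4, ?_⟩, ?_⟩
    · have hp : (b :: (t ++ [a])).Perm (a :: ([] ++ b :: t)) := by
        simpa using (List.perm_append_comm (l₁ := b :: t) (l₂ := [a]))
      exact hp.nodup_iff.2 h1
    · simp at h2 ⊢; omega
    · simpa using h3
    · simp; ring

theorem Cyc.rotate {l : List V} (h : Cyc A l) (n : ℕ) :
    Cyc A (l.rotate n) ∧ cb A (l.rotate n) = cb A l := by
  induction n generalizing l with
  | zero => simpa using h
  | succ n ih =>
    cases l with
    | nil => simpa using h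
    | cons a t =>
      rw [rotate_cons_succ]
      have h1 := h.rot1
      have h2 := ih h1.1
      exact ⟨h2.1, h2.2.trans h1.2⟩

theorem Cyc.isRotated {l l' : List V} (h : Cyc A l) (hr : l ~r l') :
    Cyc A l' ∧ cb A l' = cb A l := by
  obtain ⟨n, rfl⟩ := hr
  exact h.rotate n

theorem Cyc.reverse (hA : ∀ u v, A u v → ¬ A v u) {l : List V} (h : Cyc A l) :
    Cyc A l.reverse ∧ cb A l + cb A l.reverse = l.length := by
  cases l with
  | nil => have := h.len; simp at this
  | cons a t =>
    have hch := h.chain
    have e : (a :: t) ++ (a :: t).take 1 = a :: (t ++ [a]) := by simp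
    rw [e] at hch
    have hrev := chain_reverse hch
    have hb := bk_reverse hA hch
    have e3 : (a :: (t ++ [a])).reverse = a :: (t.reverse ++ [a]) := by simp
    rw [e3] at hrev hb
    have hc : Cyc A (a :: t.reverse) := by
      refine ⟨?_, ?_, ?_⟩
      · have := h.nodup
        simpa using this
      · have := h.len
        simpa using this
      · simpa using hrev
    have h1 := hc.rot1
    have e4 : (a :: t).reverse = t.reverse ++ [a] := by simp
    rw [e4]
    refine ⟨h1.1, ?_⟩
    rw [h1.2]
    unfold cb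
    rw [e]
    have e5 : (a :: t.reverse) ++ (a :: t.reverse).take 1 = a :: (t.reverse ++ [a]) := by simp
    rw [e5]
    simp only [length_cons, length_append, length_nil] at hb ⊢
    omega

/-- Replacing the part `Y` between `x` and `y` by `Q`. -/
theorem Cyc.replace {x y : V} {Y Z Q : List V} (h : Cyc A (x :: (Y ++ y :: Z)))
    (hQ0 : Q ≠ []) (hQn : Q.Nodup) (hQd : ∀ q ∈ Q, q ∉ x :: (Y ++ y :: Z))
    (hQc : (x :: (Q ++ [y])).IsChain (Adj A)) :
    Cyc A (x :: (Q ++ y :: Z)) := by
  rw [cyc_iff] at h ⊢
  obtain ⟨h1, h2, h3, h4⟩ := h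
  refine ⟨?_, ?_, hQc, h4⟩
  · simp only [nodup_cons, nodup_append, mem_append, mem_cons, not_or] at h1 hQd ⊢
    refine ⟨⟨fun hx => ?_, h1.1.2.1, h1.1.2.2⟩, hQn, h1.2.2.1, ?_⟩
    · exact (hQd x hx).1 rfl
    · intro a ha b hb hab
      subst hab
      rcases hb with hb | hb
      · exact (hQd a ha).2.2.1 hb
      · exact (hQd a ha).2.2.2 hb
  · have := length_pos_iff.2 hQ0
    omega

/-! ### counting over consecutive pairs -/

section count

variable {F G : V → Prop} [DecidablePred F] [DecidablePred G]

/-- If every consecutive pair `(z, z')` of the path `y :: Z ++ [x]` has `F z` or `G z'`, then there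
are many `F`s or `G`s. -/
theorem split_count (y : V) (Z : List V) (x : V)
    (h : ∀ α β : List V, Z = α ++ β → F ((y :: α).getLast (by simp)) ∨
      G ((β ++ [x]).head (by simp))) :
    Z.length + 1 ≤ (y :: Z).countP (fun a => decide (F a)) +
      (Z ++ [x]).countP (fun a => decide (G a)) := by
  induction Z generalizing y with
  | nil =>
    have := h [] [] rfl
    simp at this
    simp [countP_cons]
    rcases this with h | h <;> simp [h]
  | cons z Z ih =>
    have h1 := ih z (by
      intro α β hαβ
      have := h (z :: α) β (by simp [hαβ])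
      simpa using this)
    have h2 := h [] (z :: Z) rfl
    simp at h2
    simp only [countP_cons, cons_append, length_cons] at h1 ⊢
    rcases h2 with h2 | h2
    · have e : (if decide (F y) = true then 1 else 0) = 1 := by simp [h2]
      omega
    · have e : (if decide (G z) = true then 1 else 0) = 1 := by simp [h2]
      omega

end count

end Pool.Agent.H94.OD
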