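import Pool.Agent.H94.OD.Relo

/-!
# Insertion of a component
-/

namespace Pool.Agent.H94.OD

open List

set_option linter.unusedSectionVars false

variable {V : Type*} {A : V → V → Prop} [DecidableRel A]

/-- Some vertex adjacent to `p` is followed on the cycle `l` by a vertex adjacent to `r`. -/
def L0 (A : V → V → Prop) (l : List V) (p r : V) : Prop :=
  ∃ z z' W, l ~r (z :: z' :: W) ∧ Adj A p z ∧ Adj A r z'

variable [DecidableEq V]

/-- The situation in which a component `K` of the rest is inserted. -/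
structure CompCtx (A : V → V → Prop) [DecidableRel A] (S : Finset V) (τ : ℕ) (l : List V)
    (K I : Finset V) : Prop where
  n : 2 * τ + 2 ≤ S.card
  ore : Ore A S τ
  cyc : Cyc A l
  lS : l.toFinset ⊆ S
  KS : K ⊆ S \ l.toFinset
  IS : I ⊆ S \ l.toFinset
  part : ∀ a ∈ S, a ∈ l ∨ a ∈ K ∨ a ∈ I
  disj : Disjoint K I
  KI : ∀ p ∈ K, ∀ i ∈ I, ¬ Adj A p i
  H1 : ∀ u ∈ K, ∀ r ∈ K, ∀ r' ∈ K, r ≠ u → r' ≠ u → r ≠ r' → ¬ L0 A l u r ∨ ¬ L0 A l u r'
  H2 : ∀ u ∈ K, ∀ r ∈ K, ∀ r' ∈ K, r ≠ u → r' ≠ u → r ≠ r' → ¬ L0 A l r u ∨ ¬ L0 A l r' u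

theorem CompCtx.card {S : Finset V} {τ : ℕ} {l : List V} {K I : Finset V}
    (h : CompCtx A S τ l K I) : S.card = l.toFinset.card + K.card + I.card := by
  have h1 : S \ l.toFinset = K ∪ I := by
    ext a
    simp only [Finset.mem_sdiff, List.mem_toFinset, Finset.mem_union]
    constructor
    · rintro ⟨a1, a2⟩
      rcases h.part a a1 with h3 | h3 | h3
      · exact absurd h3 a2
      · exact Or.inl h3
      · exact Or.inr h3
    · rintro (h3 | h3)
      · have := h.KS h3; simpa using this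
      · have := h.IS h3; simpa using this
  have h2 := Finset.card_union_of_disjoint h.disj
  rw [← h1, Finset.card_sdiff_of_subset h.lS] at h2
  have h3 := Finset.card_le_card h.lS
  omega

theorem CompCtx.bound {S : Finset V} {τ : ℕ} {l : List V} {K I : Finset V}
    (h : CompCtx A S τ l K I) {u p : V} (hu : u ∈ l) (hp : p ∈ K) (hup : ¬ Adj A p u) :
    (nn A l.toFinset u).card + 3 ≤ (nb A l.toFinset p).card + (nb A K u).card := by
  have hpS := h.KS hp
  simp only [Finset.mem_sdiff, List.mem_toFinset] at hpS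
  have huS : u ∈ S := h.lS (by simpa using hu)
  have hne : u ≠ p := by rintro rfl; exact hpS.2 hu
  have h1 := h.ore u huS p hpS.1 hne (fun hh => hup hh.symm)
  have h2 := nn_split (A := A) h.lS u
  have h3 := nn_split (A := A) h.lS p
  have h4 : (nn A K u).card ≤ (nn A (S \ l.toFinset) u).card := nn_mono h.KS u
  have h5 : I.card ≤ (nn A (S \ l.toFinset) p).card := by
    apply Finset.card_le_card
    intro i hi
    rw [mem_nn]
    refine ⟨h.IS hi, ?_, h.KI p hp i hi⟩
    rintro rfl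
    exact (Finset.disjoint_left.1 h.disj) hp hi
  have huK : u ∉ K := by
    intro hh
    have := h.KS hh
    simp at this
    exact this.2 hu
  have h6 := nb_add_nn (A := A) huK
  have h7 := nb_add_nn (A := A) (T := l.toFinset) (v := p) (by simpa using hpS.2)
  have h8 := h.card
  have h9 := h.n
  omega

theorem two_of_card {T : Finset V} (h : 2 ≤ T.card) : ∃ r ∈ T, ∃ r' ∈ T, r ≠ r' :=
  Finset.one_lt_card.1 (by omega)

theorem CompCtx.nb_pos {S : Finset V} {τ : ℕ} {l : List V} {K I : Finset V}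
    (h : CompCtx A S τ l K I) {p : V} (hp : p ∈ K) : 1 ≤ (nb A l.toFinset p).card := by
  by_contra hcon
  have h0 : (nb A l.toFinset p).card = 0 := by omega
  have hno : ∀ a ∈ l, ¬ Adj A p a := by
    intro a ha hpa
    have : a ∈ nb A l.toFinset p := mem_nb.2 ⟨by simpa using ha, hpa⟩
    rw [Finset.card_eq_zero] at h0
    rw [h0] at this
    simp at this
  rcases l with _ | ⟨z, _ | ⟨z', W⟩⟩
  · have := h.cyc.len; simp at this
  · have := h.cyc.len; simp at this
  · have b1 := h.bound (u := z) (by simp) hp (hno z (by simp))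
    have b2 := h.bound (u := z') (by simp) hp (hno z' (by simp))
    have hne : (nb A K z).Nonempty := by rw [← Finset.card_pos]; omega
    obtain ⟨r0, hr0⟩ := hne
    have h3 : 2 ≤ ((nb A K z').erase r0).card := by
      have := Finset.pred_card_le_card_erase (s := nb A K z') (a := r0)
      omega
    obtain ⟨r, hr, r', hr', hrr⟩ := two_of_card h3
    simp only [Finset.mem_erase, mem_nb] at hr hr' hr0
    have hL : ∀ s, Adj A z' s → L0 A (z :: z' :: W) r0 s := fun s hs =>
      ⟨z, z', W, List.IsRotated.refl _, hr0.2.symm, hs.symm⟩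
    rcases h.H1 r0 hr0.1 r hr.2.1 r' hr'.2.1 hr.1 hr'.1 hrr with h4 | h4
    · exact h4 (hL r hr.2.2)
    · exact h4 (hL r' hr'.2.2)

theorem CompCtx.two_ends {S : Finset V} {τ : ℕ} {l : List V} {K I : Finset V}
    (h : CompCtx A S τ l K I) {p q : V} (hp : p ∈ K) (hq : q ∈ K) :
    ∃ x ∈ l, ∃ y ∈ l, x ≠ y ∧ Adj A p x ∧ Adj A q y := by
  by_contra hcon
  push Not at hcon
  have h1 := h.nb_pos hp
  have h2 := h.nb_pos hq
  obtain ⟨x, hx⟩ : (nb A l.toFinset p).Nonempty := by rw [← Finset.card_pos]; omega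
  obtain ⟨y, hy⟩ : (nb A l.toFinset q).Nonempty := by rw [← Finset.card_pos]; omega
  rw [mem_nb, List.mem_toFinset] at hx hy
  have hxy : x = y := by
    by_contra hne
    exact hcon x hx.1 y hy.1 hne hx.2 hy.2
  subst hxy
  have honly : ∀ a ∈ l, Adj A p a → a = x := by
    intro a ha hpa
    by_contra hne
    exact hcon a ha x hy.1 hne hpa hy.2
  have hcard : (nb A l.toFinset p).card ≤ 1 := by
    rw [Finset.card_le_one]
    intro a ha b hb
    rw [mem_nb, List.mem_toFinset] at ha hb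
    rw [honly a ha.1 ha.2, honly b hb.1 hb.2]
  obtain ⟨t, ht⟩ := exists_rot hx.1
  rcases t with _ | ⟨z', W⟩
  · have := (h.cyc.isRotated ht).1.len; simp at this
  have hnd := (h.cyc.isRotated ht).1.nodup
  have hz'l : z' ∈ l := by rw [ht.perm.mem_iff]; simp
  have hz'x : z' ≠ x := by
    rintro rfl
    simp at hnd
  have hz'p : ¬ Adj A p z' := fun hh => hz'x (honly z' hz'l hh)
  have b1 := h.bound hz'l hp hz'p
  have h3 : 2 ≤ (nb A K z').card := by omega
  obtain ⟨r, hr, r', hr', hrr⟩ := two_of_card h3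
  rw [mem_nb] at hr hr'
  have hrp : ∀ s, Adj A z' s → s ≠ p := by
    rintro s hs rfl
    exact hz'p hs.symm
  have hL : ∀ s, Adj A z' s → L0 A l p s := fun s hs => ⟨x, z', W, ht, hx.2, hs.symm⟩
  rcases h.H1 p hp r hr.1 r' hr'.1 (hrp r hr.2) (hrp r' hr'.2) hrr with h4 | h4
  · exact h4 (hL r hr.2)
  · exact h4 (hL r' hr'.2)

/-- A component is inserted at cost at most `bk P + 4`. -/
theorem CompCtx.lemmaG {S : Finset V} {τ : ℕ} {l : List V} {K I : Finset V}
    (h : CompCtx A S τ l K I) {P : List V} {p q : V} (hPn : P.Nodup) (hPK : P.toFinset = K)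
    (hPc : P.IsChain (Adj A)) (hp : P.head? = some p) (hq : P.getLast? = some q) :
    ∃ l', Cyc A l' ∧ l' ~ (P ++ l) ∧ cb A l' ≤ cb A l + bk A P + 4 := by
  have hpK : p ∈ K := by rw [← hPK]; simpa using List.mem_of_head? hp
  have hqK : q ∈ K := by rw [← hPK]; simpa using List.mem_of_getLast? hq
  have hPd : ∀ a ∈ P, a ∉ l := by
    intro a ha hal
    have h1 : a ∈ K := by rw [← hPK]; simpa using ha
    have := h.KS h1
    simp at this
    exact this.2 hal
  by_cases hcons : ∃ z z' W, l ~r (z :: z' :: W) ∧ Adj A p z ∧ Adj A q z'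
  · obtain ⟨z, z', W, hr, h1, h2⟩ := hcons
    obtain ⟨l', a1, a2, a3⟩ := insert_path h.cyc hr hp hq hPn hPd hPc h1.symm h2
    refine ⟨l', a1, a2, ?_⟩
    have b1 := bw_le (A := A) z p
    have b2 := bw_le (A := A) q z'
    omega
  have hno : ∀ z z' W, l ~r (z :: z' :: W) → Adj A p z → ¬ Adj A q z' := by
    intro z z' W hr h1 h2
    exact hcons ⟨z, z', W, hr, h1, h2⟩
  obtain ⟨x0, hx0, y0, hy0, hne, hpx0, hqy0⟩ := h.two_ends hpK hqK
  obtain ⟨x, y, Y, Z, hr, hx, hy, hYp, hYq⟩ :=
    closest (P₁ := fun a => Adj A p a) (P₂ := fun a => Adj A q a) hx0 hy0 hne hpx0 hqy0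
  have hY0 : Y ≠ [] := by
    rintro rfl
    exact hno x y Z (by simpa using hr) hx hy
  obtain ⟨u, hu⟩ : ∃ u, Y.head? = some u := by
    rw [List.head?_eq_some_head hY0]; exact ⟨_, rfl⟩
  obtain ⟨v, hv⟩ : ∃ u, Y.getLast? = some u := by
    rw [List.getLast?_eq_some_getLast hY0]; exact ⟨_, rfl⟩
  have huY : u ∈ Y := List.mem_of_head? hu
  have hvY : v ∈ Y := List.mem_of_getLast? hv
  have hmem : ∀ a ∈ Y, a ∈ l := by
    intro a ha
    rw [hr.perm.mem_iff]; simp [ha]
  have b1 := h.bound (hmem u huY) hpK (hYp u huY)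
  have b2 := h.bound (hmem v hvY) hqK (hYq v hvY)
  -- `u` has at most one neighbour in `K`
  have d1 : (nb A K u).card ≤ 1 := by
    by_contra hcon
    obtain ⟨r, hr1, r', hr1', hrr⟩ := two_of_card (by omega : 2 ≤ (nb A K u).card)
    rw [mem_nb] at hr1 hr1'
    have hrp : ∀ s, Adj A u s → s ≠ p := by
      rintro s hs rfl
      exact hYp u huY hs.symm
    have hL : ∀ s, Adj A u s → L0 A l p s := by
      intro s hs
      obtain ⟨b, Y', rfl⟩ := List.exists_cons_of_ne_nil hY0
      have hb : b = u := by simpa using hu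
      subst hb
      exact ⟨x, b, Y' ++ y :: Z, by simpa using hr, hx, hs.symm⟩
    rcases h.H1 p hpK r hr1.1 r' hr1'.1 (hrp r hr1.2) (hrp r' hr1'.2) hrr with h4 | h4
    · exact h4 (hL r hr1.2)
    · exact h4 (hL r' hr1'.2)
  have d2 : (nb A K v).card ≤ 1 := by
    by_contra hcon
    obtain ⟨r, hr1, r', hr1', hrr⟩ := two_of_card (by omega : 2 ≤ (nb A K v).card)
    rw [mem_nb] at hr1 hr1'
    have hrp : ∀ s, Adj A v s → s ≠ q := by
      rintro s hs rfl
      exact hYq v hvY hs.symm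
    have hL : ∀ s, Adj A v s → L0 A l s q := by
      intro s hs
      rcases List.eq_nil_or_concat Y with rfl | ⟨Y', b, rfl⟩
      · exact absurd rfl hY0
      have hb : b = v := by simpa using hv
      subst hb
      rw [concat_eq_append] at hr
      have h5 : l ~r ((x :: Y') ++ (b :: y :: Z)) := by simpa using hr
      have h6 := rot_append h5
      exact ⟨b, y, Z ++ x :: Y', by simpa using h6, hs.symm, hy⟩
    rcases h.H2 q hqK r hr1.1 r' hr1'.1 (hrp r hr1.2) (hrp r' hr1'.2) hrr with h4 | h4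
    · exact h4 (hL r hr1.2)
    · exact h4 (hL r' hr1'.2)
  obtain ⟨α, β, hZ, p1, p2⟩ := place (p := p) (q := q) h.cyc hr hx hy hYp hYq hno huY hvY
    (by omega)
  obtain ⟨l', a1, a2, a3⟩ := relocate (P := P) (p := p) (q := q) h.cyc hr hp hq hPn hPd hPc
    hx.symm hy hu hv hZ p1.symm p2
  refine ⟨l', a1, a2, ?_⟩
  have c1 := bw_le (A := A) x p
  have c2 := bw_le (A := A) q y
  omega

end Pool.Agent.H94.OD
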