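import Pool.Agent.H94.OD.Basic

/-!
# Telescoping over the stops of a cycle
-/

namespace Pool.Agent.H94.OD

open List

set_option linter.unusedSectionVars false

variable {V : Type*} {A : V → V → Prop} [DecidableRel A]

section dp

variable {P : V → Prop} [DecidablePred P] {inn out g : V → ℚ} {k : ℚ}

theorem dp_aux (x0 : V) (t : List V) (hP0 : P x0) (h2 : ∃ a ∈ t, P a)
    (gap : ∀ z Y z' Z, (x0 :: t) ~r (z :: (Y ++ z' :: Z)) → P z → P z' → (∀ a ∈ Y, ¬ P a) →
      k * (bk A (z :: (Y ++ [z'])) : ℚ) ≤ out z + inn z' + (Y.map g).sum)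
    (r : List V) : ∀ (pre : List V) (z : V) (Y : List V), r ≠ [] →
      (x0 :: (t ++ [x0])) = pre ++ z :: (Y ++ r) → P z → (∀ a ∈ Y, ¬ P a) →
      k * (bk A (z :: (Y ++ r)) : ℚ) ≤ out z + (Y.map g).sum +
        (r.map (fun a => if P a then inn a + out a else g a)).sum - out x0 := by
  induction r with
  | nil => intro pre z Y h; exact absurd rfl h
  | cons a r ih =>
    intro pre z Y _ hE hz hY
    by_cases ha : P a
    · -- `a` is a stop
      have hgap : k * (bk A (z :: (Y ++ [a])) : ℚ) ≤ out z + inn a + (Y.map g).sum := by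
        rcases List.eq_nil_or_concat r with rfl | ⟨r', b, rfl⟩
        · -- a = x0
          have hE' : (x0 :: t) ++ [x0] = (pre ++ z :: Y) ++ [a] := by simpa using hE
          have h3 := List.append_inj' hE' rfl
          have h4 : a = x0 := by simpa using h3.2.symm
          subst h4
          rcases pre with _ | ⟨b, pre⟩
          · exfalso
            have h5 : a = z ∧ t = Y := by simpa using h3.1
            obtain ⟨c, hc, hPc⟩ := h2
            exact hY c (h5.2 ▸ hc) hPc
          · have h5 : a = b ∧ t = pre ++ z :: Y := by simpa using h3.1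
            obtain ⟨rfl, h6⟩ := h5
            refine gap z Y a pre ?_ hz ha hY
            rw [h6]
            have := List.isRotated_append (l := a :: pre) (l' := z :: Y)
            simpa using this
        · have hE' : (x0 :: t) ++ [x0] = (pre ++ z :: (Y ++ a :: r')) ++ [b] := by
            simpa using hE
          have h3 := List.append_inj' hE' rfl
          refine gap z Y a (r' ++ pre) ?_ hz ha hY
          rw [h3.1]
          have := List.isRotated_append (l := pre) (l' := z :: (Y ++ a :: r'))
          simpa using this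
      have hsplit : bk A (z :: (Y ++ a :: r)) = bk A (z :: (Y ++ [a])) + bk A (a :: r) :=
        bk_split' z Y a r
      rw [hsplit]
      simp only [map_cons, sum_cons, ha, if_true]
      rcases List.eq_nil_or_concat r with rfl | ⟨r', b, rfl⟩
      · have hE' : (x0 :: t) ++ [x0] = (pre ++ z :: Y) ++ [a] := by simpa using hE
        have h3 := List.append_inj' hE' rfl
        have h4 : a = x0 := by simpa using h3.2.symm
        subst h4
        simp
        linarith
      · have h1 := ih (pre ++ z :: Y) a [] (by simp) (by simpa using hE) ha (by simp)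
        simp only [nil_append, map_nil, sum_nil] at h1
        push_cast
        linarith
    · -- not a stop
      have hr : r ≠ [] := by
        rintro rfl
        have hE' : (x0 :: t) ++ [x0] = (pre ++ z :: Y) ++ [a] := by simpa using hE
        have h3 := List.append_inj' hE' rfl
        have h4 : a = x0 := by simpa using h3.2.symm
        exact ha (h4 ▸ hP0)
      have h1 := ih pre z (Y ++ [a]) hr (by simpa using hE) hz (by
        intro b hb
        simp at hb
        rcases hb with hb | rfl
        · exact hY b hb
        · exact ha)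
      simp only [map_append, map_cons, map_nil, sum_append, sum_cons, sum_nil, append_assoc,
        cons_append, nil_append, ha, if_false] at h1 ⊢
      linarith

/-- Telescoping over the stops of a cycle. -/
theorem dp {l : List V} (hl : l.Nodup) {s₁ s₂ : V} (hs₁ : s₁ ∈ l) (hs₂ : s₂ ∈ l) (hne : s₁ ≠ s₂)
    (hP₁ : P s₁) (hP₂ : P s₂) (hc : Cyc A l)
    (gap : ∀ z Y z' Z, l ~r (z :: (Y ++ z' :: Z)) → P z → P z' → (∀ a ∈ Y, ¬ P a) →
      k * (bk A (z :: (Y ++ [z'])) : ℚ) ≤ out z + inn z' + (Y.map g).sum) :
    k * (cb A l : ℚ) ≤ (l.map (fun a => if P a then inn a + out a else g a)).sum := by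
  obtain ⟨α, β, rfl⟩ := List.append_of_mem hs₁
  have hrot : (α ++ s₁ :: β) ~r (s₁ :: (β ++ α)) := by
    have := List.isRotated_append (l := α) (l' := s₁ :: β)
    simpa using this
  have h1 := hc.isRotated hrot
  have h2 : ∃ a ∈ β ++ α, P a := by
    refine ⟨s₂, ?_, hP₂⟩
    simp at hs₂ ⊢
    rcases hs₂ with h | h | h
    · exact Or.inr h
    · exact absurd h.symm hne
    · exact Or.inl h
  have h3 := dp_aux (A := A) (inn := inn) (out := out) (g := g) (k := k) s₁ (β ++ α) hP₁ h2
    (fun z Y z' Z hr => gap z Y z' Z (hrot.trans hr)) (β ++ α ++ [s₁]) [] s₁ [] (by simp)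
    (by simp) hP₁ (by simp)
  rw [← h1.2]
  have e : cb A (s₁ :: (β ++ α)) = bk A (s₁ :: ([] ++ (β ++ α ++ [s₁]))) := by
    unfold cb; simp
  rw [e]
  have e2 : ((α ++ s₁ :: β).map (fun a => if P a then inn a + out a else g a)).sum =
      ((s₁ :: (β ++ α)).map (fun a => if P a then inn a + out a else g a)).sum :=
    (hrot.perm.map _).sum_eq
  rw [e2]
  refine h3.trans (le_of_eq ?_)
  simp [hP₁]
  ring

end dp

end Pool.Agent.H94.OD
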