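import Mathlib

/-!
# Oriented discrepancy of Hamilton cycles (MP_bbfc69_co): basic definitions

Cycles are lists of vertices, read cyclically.
-/

namespace Pool.Agent.H94.OD

open List

variable {V : Type*}

/-- Adjacency in the underlying graph of the oriented graph with arc relation `A`. -/
def Adj (A : V → V → Prop) (u v : V) : Prop := A u v ∨ A v u

instance (A : V → V → Prop) [DecidableRel A] : DecidableRel (Adj A) :=
  fun u v => by unfold Adj; infer_instance

/-- Cost of the step from `a` to `b`: `1` if the arc is `b → a` (a backward arc). -/
def bw (A : V → V → Prop) [DecidableRel A] (a b : V) : ℕ := if A b a then 1 else 0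

/-- Number of backward arcs of the path given by a list. -/
def bk (A : V → V → Prop) [DecidableRel A] : List V → ℕ
  | [] => 0
  | [_] => 0
  | a :: b :: t => bw A a b + bk A (b :: t)

/-- The list `l`, read cyclically, is a cycle of the underlying graph. -/
structure Cyc (A : V → V → Prop) (l : List V) : Prop where
  nodup : l.Nodup
  len : 3 ≤ l.length
  chain : (l ++ l.take 1).IsChain (Adj A)

/-- Number of backward arcs of the cycle given by a list. -/
def cb (A : V → V → Prop) [DecidableRel A] (l : List V) : ℕ := bk A (l ++ l.take 1)

variable [DecidableEq V]

/-- The non-neighbours of `v` in `S` (other than `v`). -/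
def nn (A : V → V → Prop) [DecidableRel A] (S : Finset V) (v : V) : Finset V :=
  S.filter (fun u => u ≠ v ∧ ¬ Adj A v u)

/-- The neighbours of `v` in `S`. -/
def nb (A : V → V → Prop) [DecidableRel A] (S : Finset V) (v : V) : Finset V :=
  S.filter (fun u => Adj A v u)

end Pool.Agent.H94.OD
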