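import Pool.Agent.H94.OD.Relo

/-!
# Ore's theorem and Rédei's theorem
-/

namespace Pool.Agent.H94.OD

open List

set_option linter.unusedSectionVars false

variable {V : Type*} {A : V → V → Prop} [DecidableRel A]

theorem cb_append_comm (l₁ l₂ : List V) : cb A (l₂ ++ l₁) = cb A (l₁ ++ l₂) := by
  rcases l₁ with _ | ⟨a, s⟩
  · simp
  rcases l₂ with _ | ⟨b, t⟩
  · simp
  have e1 : (a :: s) ++ (b :: t) = a :: (s ++ b :: t) := by simp
  have e2 : (b :: t) ++ (a :: s) = b :: (t ++ a :: s) := by simp
  rw [e1, e2, cb_two, cb_two]
  ring

/-- The relation of being not adjacent. -/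
def Non (A : V → V → Prop) (a b : V) : Prop := ¬ Adj A a b

instance : DecidableRel (Non A) := fun a b => by unfold Non; infer_instance

theorem bw_non_pos {a b : V} (h : ¬ Adj A a b) : bw (Non A) a b = 1 :=
  if_pos (show Non A b a from fun hh => h hh.symm)

theorem bw_non_zero {a b : V} (h : Adj A a b) : bw (Non A) a b = 0 :=
  if_neg (show ¬ Non A b a from fun hh => hh h.symm)

theorem bw_non_comm (a b : V) : bw (Non A) a b = bw (Non A) b a := by
  by_cases h : Adj A a b
  · rw [bw_non_zero h, bw_non_zero h.symm]
  · rw [bw_non_pos h, bw_non_pos (fun hh => h hh.symm)]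

theorem bk_non_reverse (l : List V) : bk (Non A) l.reverse = bk (Non A) l := by
  induction l with
  | nil => simp
  | cons a t ih =>
    cases t with
    | nil => simp
    | cons b t =>
      simp only [reverse_cons, append_assoc, cons_append, nil_append, bk_cons_cons] at ih ⊢
      rw [bk_split, ih]
      simp only [bk_cons_cons, bk_single, bw_non_comm b a]
      omega

theorem chain_of_non {l : List V} (h : bk (Non A) l = 0) : l.IsChain (Adj A) := by
  induction l with
  | nil => simp
  | cons a t ih =>
    cases t with
    | nil => simp
    | cons b t =>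
      simp only [bk_cons_cons] at h
      rw [isChain_cons_cons]
      refine ⟨?_, ih (by omega)⟩
      by_contra hcon
      have := bw_non_pos hcon
      omega

variable [DecidableEq V]

theorem ore_aux (K : Finset V) (hK : 3 ≤ K.card)
    (h : ∀ u ∈ K, ∀ v ∈ K, u ≠ v → ¬ Adj A u v →
      (nn A K u).card + (nn A K v).card + 2 ≤ K.card) (n : ℕ) :
    ∀ l : List V, l.Nodup → l.toFinset = K → cb (Non A) l = n →
      ∃ l', Cyc A l' ∧ l'.toFinset = K := by
  induction n using Nat.strong_induction_on with
  | _ n ih =>
  intro l hl hlK hn
  have hlen : l.length = K.card := by rw [← hlK, List.toFinset_card_of_nodup hl]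
  by_cases h0 : n = 0
  · refine ⟨l, ⟨hl, by omega, ?_⟩, hlK⟩
    apply chain_of_non
    unfold cb at hn
    omega
  -- a bad pair
  have hbad : ∃ x M w, l ~r (x :: (M ++ [w])) ∧ ¬ Adj A w x ∧
      cb (Non A) (x :: (M ++ [w])) = n := by
    by_contra hcon
    push Not at hcon
    -- then all consecutive pairs are adjacent
    have : bk (Non A) (l ++ l.take 1) = 0 := by
      rcases l with _ | ⟨x, t⟩
      · simp
      have gen : ∀ (r pre : List V) (z : V), (x :: (t ++ [x])) = pre ++ z :: r →
          bk (Non A) (z :: r) = 0 := by
        intro r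
        induction r with
        | nil => intro pre z _; simp
        | cons a r ihr =>
          intro pre z hE
          have h1 := ihr (pre ++ [z]) a (by simpa using hE)
          simp only [bk_cons_cons, h1, add_zero]
          -- `z`, `a` consecutive
          have hrot : ∃ M, (x :: t) ~r (a :: (M ++ [z])) := by
            rcases List.eq_nil_or_concat r with rfl | ⟨r', b, rfl⟩
            · have hE' : (x :: t) ++ [x] = (pre ++ [z]) ++ [a] := by simpa using hE
              have h3 := List.append_inj' hE' rfl
              have h4 : a = x := by simpa using h3.2.symm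
              subst h4
              rcases pre with _ | ⟨c, pre⟩
              · exfalso
                have h5 : a = z ∧ t = [] := by simpa using h3.1
                rw [h5.2] at hlen
                simp at hlen
                omega
              · have h5 : a = c ∧ t = pre ++ [z] := by simpa using h3.1
                exact ⟨pre, by rw [h5.2]⟩
            · have hE' : (x :: t) ++ [x] = (pre ++ z :: a :: r') ++ [b] := by
                simpa using hE
              have h3 := List.append_inj' hE' rfl
              refine ⟨r' ++ pre, ?_⟩
              rw [h3.1]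
              have : (pre ++ [z]) ++ (a :: r') ~r (a :: r') ++ (pre ++ [z]) :=
                List.isRotated_append
              simpa using this
          obtain ⟨M, hM⟩ := hrot
          have hcb : cb (Non A) (a :: (M ++ [z])) = n := by
            obtain ⟨k, hk⟩ := hM
            rw [← hk, ← hn]
            have : ∀ (k : ℕ) (L : List V), cb (Non A) (L.rotate k) = cb (Non A) L := by
              intro k
              induction k with
              | zero => intro L; simp
              | succ k ihk =>
                intro L
                rcases L with _ | ⟨c, L⟩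
                · simp
                · rw [rotate_cons_succ, ihk]
                  have := cb_append_comm (A := Non A) [c] L
                  simpa using this
            exact this k _
          by_contra hne
          have hnz : ¬ Adj A z a := by
            intro hh
            exact hne (bw_non_zero hh)
          exact hcon a M z hM hnz hcb
      exact gen (t ++ [x]) [] x (by simp)
    unfold cb at hn
    omega
  obtain ⟨x, M, w, hr, hwx, hcb⟩ := hbad
  have hnd : (x :: (M ++ [w])).Nodup := hr.perm.nodup_iff.1 hl
  have hfin : (x :: (M ++ [w])).toFinset = K := by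
    rw [← hlK]; ext a; simp only [List.mem_toFinset]; exact (hr.perm.mem_iff).symm
  have hxK : x ∈ K := by rw [← hfin]; simp
  have hwK : w ∈ K := by rw [← hfin]; simp
  have hne : w ≠ x := by
    rintro rfl
    simp at hnd
  have hlen2 : M.length + 2 = K.card := by
    rw [← hfin, List.toFinset_card_of_nodup hnd]; simp
  have hnd1 : (x :: M).Nodup ∧ (M ++ [w]).Nodup ∧ w ∉ (x :: M) ∧ x ∉ (M ++ [w]) := by
    simp only [nodup_cons, nodup_append, mem_append, mem_cons, not_or] at hnd ⊢
    obtain ⟨⟨a1, a2, _⟩, a3, a4, a5⟩ := hnd
    refine ⟨⟨a1, a3⟩, ⟨a3, a4, a5⟩, ⟨hne, ?_⟩, a1, a2, by simp⟩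
    intro hw
    exact a5 w hw w (Or.inl rfl) rfl
  -- a split
  have hsplit : ∃ α β, M = α ++ β ∧ Adj A w ((x :: α).getLast (by simp)) ∧
      Adj A x ((β ++ [w]).head (by simp)) := by
    by_contra hcon
    push Not at hcon
    have h1 := split_count (F := fun a => ¬ Adj A w a) (G := fun a => ¬ Adj A x a) x M w (by
      intro α β hZ
      by_cases hh : Adj A w ((x :: α).getLast (by simp))
      · exact Or.inr (hcon α β hZ hh)
      · exact Or.inl hh)
    have h2 : (x :: M).countP (fun a => decide (¬ Adj A w a)) ≤ (nn A K w).card := by
      rw [← card_filter_toFinset hnd1.1]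
      apply Finset.card_le_card
      intro a ha
      simp only [Finset.mem_filter, List.mem_toFinset] at ha
      rw [mem_nn, ← hfin, List.mem_toFinset]
      refine ⟨?_, ?_, ha.2⟩
      · have := ha.1
        simp only [mem_cons, mem_append] at this ⊢
        tauto
      · rintro rfl; exact hnd1.2.2.1 ha.1
    have h3 : (M ++ [w]).countP (fun a => decide (¬ Adj A x a)) ≤ (nn A K x).card := by
      rw [← card_filter_toFinset hnd1.2.1]
      apply Finset.card_le_card
      intro a ha
      simp only [Finset.mem_filter, List.mem_toFinset] at ha
      rw [mem_nn, ← hfin, List.mem_toFinset]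
      refine ⟨?_, ?_, ha.2⟩
      · have := ha.1
        simp only [mem_cons, mem_append] at this ⊢
        tauto
      · rintro rfl; exact hnd1.2.2.2 ha.1
    have h4 := h w hwK x hxK hne hwx
    omega
  obtain ⟨α, β, hM, p1, p2⟩ := hsplit
  have ea : (x :: α).getLast? = some ((x :: α).getLast (by simp)) := by
    rw [List.getLast?_eq_some_getLast]
  have eb : (β ++ [w]).head? = some ((β ++ [w]).head (by simp)) := by
    rw [List.head?_eq_some_head]
  have eb' : (β ++ [w]).reverse.head? = some w := by simp
  have eb'' : (β ++ [w]).reverse.getLast? = some ((β ++ [w]).head (by simp)) := by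
    rw [getLast?_reverse]; exact eb
  set a := (x :: α).getLast (by simp) with ha
  set b := (β ++ [w]).head (by simp) with hb
  -- the new list
  have hnew : cb (Non A) ((x :: α) ++ (β ++ [w]).reverse) < n := by
    have n1 : cb (Non A) ((x :: α) ++ (β ++ [w]).reverse) =
        bk (Non A) (x :: α) + bw (Non A) a w + (bk (Non A) (β ++ [w]) + bw (Non A) b x) := by
      unfold cb
      have e : ((x :: α) ++ (β ++ [w]).reverse) ++ ((x :: α) ++ (β ++ [w]).reverse).take 1 =
          (x :: α) ++ ((β ++ [w]).reverse ++ [x]) := by simp
      rw [e, bk_append ea (b := w) (by simp), bk_append eb'' (by rfl : [x].head? = some x),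
        bk_non_reverse]
      simp
    have n2 : cb (Non A) (x :: (M ++ [w])) =
        bk (Non A) (x :: α) + bw (Non A) a b + (bk (Non A) (β ++ [w]) + bw (Non A) w x) := by
      unfold cb
      have e : (x :: (M ++ [w])) ++ (x :: (M ++ [w])).take 1 =
          (x :: α) ++ ((β ++ [w]) ++ [x]) := by simp [hM]
      have eh : ((β ++ [w]) ++ [x]).head? = some b := by
        rw [List.head?_append, eb]; rfl
      rw [e, bk_append ea eh, bk_append (by simp : (β ++ [w]).getLast? = some w)
        (by rfl : [x].head? = some x)]
      simp
    have w1 : bw (Non A) a w = 0 := bw_non_zero p1.symm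
    have w2 : bw (Non A) b x = 0 := bw_non_zero p2.symm
    have w3 : bw (Non A) w x = 1 := bw_non_pos hwx
    omega
  have hperm : ((x :: α) ++ (β ++ [w]).reverse) ~ (x :: (M ++ [w])) := by
    rw [hM, List.perm_iff_count]
    intro c
    simp only [cons_append, count_cons, count_append, count_reverse, append_assoc, count_nil]
  refine ih _ hnew _ (hperm.nodup_iff.2 hnd) ?_ rfl
  rw [← hfin]
  ext c
  simp only [List.mem_toFinset]
  exact hperm.mem_iff

/-- **Ore's theorem**. -/
theorem ore (K : Finset V) (hK : 3 ≤ K.card)
    (h : ∀ u ∈ K, ∀ v ∈ K, u ≠ v → ¬ Adj A u v →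
      (nn A K u).card + (nn A K v).card + 2 ≤ K.card) :
    ∃ l, Cyc A l ∧ l.toFinset = K :=
  ore_aux K hK h _ K.toList K.nodup_toList (by simp) rfl

theorem redei_insert (l : List V) (d : V) (hl : l.IsChain (fun a b => A a b))
    (hd : ∀ a ∈ l, Adj A a d) :
    ∃ l', l' ~ (d :: l) ∧ l'.IsChain (fun a b => A a b) ∧
      (l'.head? = some d ∨ l'.head? = l.head?) := by
  induction l with
  | nil => exact ⟨[d], List.Perm.refl _, by simp, Or.inl rfl⟩
  | cons a t ih =>
    by_cases h1 : A d a
    · exact ⟨d :: a :: t, List.Perm.refl _, by rw [isChain_cons_cons]; exact ⟨h1, hl⟩, Or.inl rfl⟩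
    · have h2 : A a d := by
        rcases hd a (by simp) with h | h
        · exact h
        · exact absurd h h1
      obtain ⟨t', p1, p2, p3⟩ := ih hl.tail (fun b hb => hd b (by simp [hb]))
      refine ⟨a :: t', ?_, ?_, Or.inr rfl⟩
      · exact (p1.cons a).trans (List.Perm.swap d a t)
      · rcases t' with _ | ⟨b, t'⟩
        · simp
        · rw [isChain_cons_cons]
          refine ⟨?_, p2⟩
          rcases p3 with p3 | p3
          · have : b = d := by simpa using p3
            rw [this]; exact h2
          · rcases t with _ | ⟨c, t⟩
            · simp at p3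
            · have : b = c := by simpa using p3
              rw [this]
              rw [isChain_cons_cons] at hl
              exact hl.1

/-- **Rédei's theorem**. -/
theorem redei (K : Finset V) (h : ∀ u ∈ K, ∀ v ∈ K, u ≠ v → Adj A u v) :
    ∃ l : List V, l.Nodup ∧ l.toFinset = K ∧ l.IsChain (fun a b => A a b) := by
  induction K using Finset.induction_on with
  | empty => exact ⟨[], by simp, by simp, by simp⟩
  | insert d K hd ih =>
    obtain ⟨l, h1, h2, h3⟩ := ih (fun u hu v hv => h u (by simp [hu]) v (by simp [hv]))
    obtain ⟨l', p1, p2, _⟩ := redei_insert l d h3 (by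
      intro a ha
      have haK : a ∈ K := by rw [← h2]; simpa using ha
      exact h a (by simp [haK]) d (by simp) (by rintro rfl; exact hd haK))
    refine ⟨l', ?_, ?_, p2⟩
    · rw [p1.nodup_iff, nodup_cons]
      refine ⟨?_, h1⟩
      intro hh
      apply hd
      rw [← h2]; simpa using hh
    · ext a
      rw [List.mem_toFinset, p1.mem_iff, mem_cons, Finset.mem_insert, ← h2, List.mem_toFinset]

/-- A directed path has no backward arc. -/
theorem bk_directed (hA : ∀ u v, A u v → ¬ A v u) {l : List V}
    (h : l.IsChain (fun a b => A a b)) : bk A l = 0 ∧ l.IsChain (Adj A) := by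
  refine ⟨?_, h.imp (fun a b hab => Or.inl hab)⟩
  induction l with
  | nil => simp
  | cons a t ih =>
    cases t with
    | nil => simp
    | cons b t =>
      have := ih h.tail
      rw [isChain_cons_cons] at h
      simp only [bk_cons_cons, this, add_zero]
      unfold bw
      rw [if_neg (hA _ _ h.1)]

end Pool.Agent.H94.OD
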