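import Pool.Agent.H94.OD.Pair
import Pool.Agent.H94.OD.Ore

/-!
# The main theorem
-/

namespace Pool.Agent.H94.OD

open List

set_option linter.unusedSectionVars false
set_option linter.unusedVariables false

variable {V : Type*} {A : V → V → Prop} [DecidableRel A]

/-- If there is a backward arc, the cycle can be rotated so that the closing arc is backward. -/
theorem exists_back {l : List V} (h2 : 2 ≤ l.length) (h : cb A l ≠ 0) :
    ∃ x M w, l ~r (x :: (M ++ [w])) ∧ bw A w x = 1 := by
  by_contra hcon
  push Not at hcon
  apply h
  unfold cb
  rcases l with _ | ⟨x, t⟩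
  · simp
  have gen : ∀ (r pre : List V) (z : V), (x :: (t ++ [x])) = pre ++ z :: r →
      bk A (z :: r) = 0 := by
    intro r
    induction r with
    | nil => intro pre z _; simp
    | cons a r ihr =>
      intro pre z hE
      have h1 := ihr (pre ++ [z]) a (by simpa using hE)
      simp only [bk_cons_cons, h1, add_zero]
      have hrot : ∃ M, (x :: t) ~r (a :: (M ++ [z])) := by
        rcases List.eq_nil_or_concat r with rfl | ⟨r', b, rfl⟩
        · have hE' : (x :: t) ++ [x] = (pre ++ [z]) ++ [a] := by simpa using hE
          have h3 := List.append_inj' hE' rfl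
          have h4 : a = x := by simpa using h3.2.symm
          subst h4
          rcases pre with _ | ⟨c, pre⟩
          · exfalso
            have h5 : a = z ∧ t = [] := by simpa using h3.1
            rw [h5.2] at h2
            simp at h2
          · have h5 : a = c ∧ t = pre ++ [z] := by simpa using h3.1
            exact ⟨pre, by rw [h5.2]⟩
        · have hE' : (x :: t) ++ [x] = (pre ++ z :: a :: r') ++ [b] := by
            simpa using hE
          have h3 := List.append_inj' hE' rfl
          refine ⟨r' ++ pre, ?_⟩
          rw [h3.1]
          have : (pre ++ [z]) ++ (a :: r') ~r (a :: r') ++ (pre ++ [z]) :=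
            List.isRotated_append
          simpa using this
      obtain ⟨M, hM⟩ := hrot
      have := hcon a M z hM
      have h5 := bw_le (A := A) z a
      omega
  exact gen (t ++ [x]) [] x (by simp)

/-- Cutting a cycle into a path, at a backward arc if there is one. -/
theorem cut {l : List V} (hc : Cyc A l) :
    ∃ P : List V, P ~ l ∧ P.IsChain (Adj A) ∧ bk A P ≤ cb A l - 1 := by
  by_cases h : cb A l = 0
  · refine ⟨l, List.Perm.refl _, ?_, ?_⟩
    · exact hc.chain.left_of_append
    · rcases l with _ | ⟨x, t⟩
      · simp
      · have e : cb A (x :: t) = bk A ((x :: t) ++ [x]) := by unfold cb; simp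
        have : bk A (x :: t) ≤ bk A ((x :: t) ++ [x]) := by
          have h0 : (x :: t).getLast? = some ((x :: t).getLast (by simp)) := by
            rw [List.getLast?_eq_some_getLast]
          rw [bk_append h0 (by rfl : [x].head? = some x)]
          omega
        omega
  · obtain ⟨x, M, w, hr, hb⟩ := exists_back (by have := hc.len; omega) h
    have h1 := hc.isRotated hr
    refine ⟨x :: (M ++ [w]), hr.perm.symm, h1.1.chain.left_of_append, ?_⟩
    rw [← h1.2]
    have e : cb A (x :: (M ++ [w])) = bk A ((x :: (M ++ [w])) ++ [x]) := by unfold cb; simp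
    have h0 : (x :: (M ++ [w])).getLast? = some w := by
      have : x :: (M ++ [w]) = (x :: M) ++ [w] := by simp
      rw [this, getLast?_concat]
    rw [e, bk_append h0 (by rfl : [x].head? = some x), hb]
    simp

variable [DecidableEq V]

/-- Inserting the last, pairwise non-adjacent vertices. -/
theorem finish (hA : ∀ u v, A u v → ¬ A v u) {S : Finset V} {τ : ℕ} (hn : 2 * τ + 2 ≤ S.card)
    (hO : Ore A S τ) (m : ℕ) : ∀ l : List V, Cyc A l → l.toFinset ⊆ S →
      (S \ l.toFinset).card = m →
      (∀ u ∈ S \ l.toFinset, ∀ v ∈ S \ l.toFinset, u ≠ v → ¬ Adj A u v) →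
      ∃ l', Cyc A l' ∧ l'.toFinset = S ∧ cb A l' ≤ cb A l + 2 * m + min m 1 := by
  induction m with
  | zero =>
    intro l hc hlS hm _
    refine ⟨l, hc, ?_, by simp⟩
    apply Finset.Subset.antisymm hlS
    rw [Finset.card_eq_zero, Finset.sdiff_eq_empty_iff_subset] at hm
    exact hm
  | succ m ih =>
    intro l hc hlS hm hind
    by_cases hl : ∃ v ∈ S \ l.toFinset, (nn A S v).card < τ
    · obtain ⟨v, hv, hlight⟩ := hl
      have hv' := Finset.mem_sdiff.1 hv
      have hvl : v ∉ l := by simpa using hv'.2
      obtain ⟨l1, c1, c2, c3⟩ := light_insert (τ := τ) (by omega) hc hlS hv'.1 hvl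
        (by omega) (by
          intro u hu hul hne
          exact hind v hv u (by simp [hu, hul]) hne.symm)
      have hfin : l1.toFinset = insert v l.toFinset := by
        ext a; simp only [List.mem_toFinset, Finset.mem_insert]
        rw [c2.mem_iff]; simp
      have hsub : l1.toFinset ⊆ S := by
        rw [hfin]; intro a ha
        rw [Finset.mem_insert] at ha
        rcases ha with rfl | ha
        · exact hv'.1
        · exact hlS ha
      have hsd : S \ l1.toFinset = (S \ l.toFinset).erase v := by
        rw [hfin]; ext a
        simp only [Finset.mem_sdiff, Finset.mem_insert, Finset.mem_erase, not_or]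
        tauto
      obtain ⟨l', d1, d2, d3⟩ := ih l1 c1 hsub (by
        rw [hsd, Finset.card_erase_of_mem hv, hm]; rfl) (by
        intro a ha b hb hab
        rw [hsd] at ha hb
        exact hind a (Finset.mem_of_mem_erase ha) b (Finset.mem_of_mem_erase hb) hab)
      refine ⟨l', d1, d2, ?_⟩
      have : min m 1 ≤ min (m + 1) 1 := by omega
      omega
    · -- all heavy, hence only one
      push Not at hl
      have hone : m = 0 := by
        by_contra hm0
        obtain ⟨a, ha, b, hb, hab⟩ := two_of_card (T := S \ l.toFinset) (by omega)
        have h1 := hO a (Finset.mem_sdiff.1 ha).1 b (Finset.mem_sdiff.1 hb).1 hab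
          (hind a ha b hb hab)
        have h2 := hl a ha
        have h3 := hl b hb
        omega
      subst hone
      obtain ⟨v, hv⟩ := Finset.card_eq_one.1 hm
      have hvm : v ∈ S \ l.toFinset := by rw [hv]; simp
      have hvS := (Finset.mem_sdiff.1 hvm).1
      have hlv : l.toFinset = S.erase v := by
        have : l.toFinset = S \ {v} := by
          rw [← hv, Finset.sdiff_sdiff_eq_self hlS]
        rw [this, Finset.sdiff_singleton_eq_erase]
      obtain ⟨l', c1, c2, c3⟩ := lemmaV hA hn hO hc hlv hvS
      refine ⟨l', c1, ?_, by simpa using c3⟩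
      have : l'.toFinset = insert v l.toFinset := by
        ext a; simp only [List.mem_toFinset, Finset.mem_insert]
        rw [c2.mem_iff]; simp
      rw [this, hlv, Finset.insert_erase hvS]

end Pool.Agent.H94.OD
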