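import Pool.Agent.H94.OD.Comp

/-!
# Cycles of minimal potential
-/

namespace Pool.Agent.H94.OD

open List

set_option linter.unusedSectionVars false

variable {V : Type*} [DecidableEq V] {A : V → V → Prop} [DecidableRel A]

/-- The potential (up to a constant). -/
def Psi (A : V → V → Prop) [DecidableRel A] (c : V → ℚ) (l : List V) : ℚ :=
  (cb A l : ℚ) - (l.map c).sum

structure IsMin (A : V → V → Prop) [DecidableRel A] (S : Finset V) (c : V → ℚ) (l : List V) :
    Prop where
  cyc : Cyc A l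
  sub : l.toFinset ⊆ S
  min : ∀ l', Cyc A l' → l'.toFinset ⊆ S → Psi A c l ≤ Psi A c l'

structure IsTie (A : V → V → Prop) [DecidableRel A] (S : Finset V) (c : V → ℚ) (l : List V) :
    Prop extends IsMin A S c l where
  tie : ∀ l', Cyc A l' → l'.toFinset ⊆ S → l.length < l'.length → Psi A c l < Psi A c l'

theorem exists_tie [Finite V] (S : Finset V) (c : V → ℚ)
    (h : ∃ l, Cyc A l ∧ l.toFinset ⊆ S) : ∃ l, IsTie A S c l := by
  have := Fintype.ofFinite V
  have hfin : Set.Finite {l : List V | Cyc A l ∧ l.toFinset ⊆ S} := by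
    have h0 : Finite {l : List V // l.Nodup} := inferInstance
    have h1 : Set.Finite {l : List V | l.Nodup} := Set.finite_coe_iff.1 h0
    exact h1.subset (fun l hl => hl.1.nodup)
  obtain ⟨l0, hl0, hmin⟩ := Set.exists_min_image _ (Psi A c) hfin h
  have hfin2 : Set.Finite {l : List V | (Cyc A l ∧ l.toFinset ⊆ S) ∧ Psi A c l = Psi A c l0} :=
    hfin.subset (fun l hl => hl.1)
  obtain ⟨l1, hl1, hmax⟩ := Set.exists_max_image _ (fun l => l.length) hfin2 ⟨l0, hl0, rfl⟩
  refine ⟨l1, ⟨hl1.1.1, hl1.1.2, fun l' h1 h2 => ?_⟩, fun l' h1 h2 h3 => ?_⟩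
  · rw [hl1.2]; exact hmin l' ⟨h1, h2⟩
  · rw [hl1.2]
    refine lt_of_le_of_ne (hmin l' ⟨h1, h2⟩) (fun h4 => ?_)
    have h5 : l'.length ≤ l1.length := hmax l' ⟨⟨h1, h2⟩, h4.symm⟩
    omega

section exch

variable {S : Finset V} {c : V → ℚ} {l : List V} {x y p q : V} {Y Z Q : List V}

theorem exch_aux (hc : Cyc A l) (hlS : l.toFinset ⊆ S) (hr : l ~r (x :: (Y ++ y :: Z)))
    (hp : Q.head? = some p) (hq : Q.getLast? = some q) (hQn : Q.Nodup) (hQd : ∀ a ∈ Q, a ∉ l)
    (hQS : ∀ a ∈ Q, a ∈ S) (hQc : Q.IsChain (Adj A)) (hxp : Adj A x p) (hqy : Adj A q y) :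
    ∃ l', Cyc A l' ∧ l'.toFinset ⊆ S ∧ l'.length + Y.length = l.length + Q.length ∧
      Psi A c l' = Psi A c l + bw A x p + bk A Q + bw A q y - bk A (x :: (Y ++ [y]))
        + (Y.map c).sum - (Q.map c).sum := by
  obtain ⟨h1, h2⟩ := replace_path hc hr hp hq hQn hQd hQc hxp hqy
  refine ⟨_, h1, ?_, ?_, ?_⟩
  · intro a ha
    simp only [List.mem_toFinset, mem_cons, mem_append] at ha
    have hin : ∀ b, b ∈ x :: (Y ++ y :: Z) → b ∈ S := fun b hb =>
      hlS (by rw [List.mem_toFinset]; exact hr.perm.mem_iff.2 hb)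
    rcases ha with rfl | ha | rfl | ha
    · exact hin _ (by simp)
    · exact hQS a ha
    · exact hin _ (by simp)
    · exact hin _ (by simp [ha])
  · rw [hr.perm.length_eq]; simp; omega
  · unfold Psi
    have h3 : (l.map c).sum = ((x :: (Y ++ y :: Z)).map c).sum := (hr.perm.map c).sum_eq
    rw [h3]
    rw [bk_mid hp hq] at h2
    have h4 : (cb A (x :: (Q ++ y :: Z)) : ℚ) + bk A (x :: (Y ++ [y])) =
        cb A l + (bw A x p + bk A Q + bw A q y) := by exact_mod_cast h2
    simp only [map_cons, map_append, sum_cons, sum_append]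
    linarith

theorem IsMin.exch (h : IsMin A S c l) (hr : l ~r (x :: (Y ++ y :: Z)))
    (hp : Q.head? = some p) (hq : Q.getLast? = some q) (hQn : Q.Nodup) (hQd : ∀ a ∈ Q, a ∉ l)
    (hQS : ∀ a ∈ Q, a ∈ S) (hQc : Q.IsChain (Adj A)) (hxp : Adj A x p) (hqy : Adj A q y) :
    (bk A (x :: (Y ++ [y])) : ℚ) ≤ bw A x p + bk A Q + bw A q y + (Y.map c).sum
      - (Q.map c).sum := by
  obtain ⟨l', h1, h2, h3, h4⟩ := exch_aux (c := c) h.cyc h.sub hr hp hq hQn hQd hQS hQc hxp hqy
  have := h.min l' h1 h2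
  linarith

theorem IsTie.exch_lt (h : IsTie A S c l) (hr : l ~r (x :: (Y ++ y :: Z)))
    (hp : Q.head? = some p) (hq : Q.getLast? = some q) (hQn : Q.Nodup) (hQd : ∀ a ∈ Q, a ∉ l)
    (hQS : ∀ a ∈ Q, a ∈ S) (hQc : Q.IsChain (Adj A)) (hxp : Adj A x p) (hqy : Adj A q y)
    (hlt : Y.length < Q.length) :
    (bk A (x :: (Y ++ [y])) : ℚ) < bw A x p + bk A Q + bw A q y + (Y.map c).sum
      - (Q.map c).sum := by
  obtain ⟨l', h1, h2, h3, h4⟩ := exch_aux (c := c) h.cyc h.sub hr hp hq hQn hQd hQS hQc hxp hqy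
  have := h.tie l' h1 h2 (by omega)
  linarith

end exch

/-- There is a path outside `l` from `p` to `r` with a forward arc. -/
def Good (A : V → V → Prop) [DecidableRel A] (S : Finset V) (l : List V) (p r : V) : Prop :=
  ∃ Q : List V, Q.head? = some p ∧ Q.getLast? = some r ∧ Q.Nodup ∧ (∀ a ∈ Q, a ∉ l) ∧
    (∀ a ∈ Q, a ∈ S) ∧ Q.IsChain (Adj A) ∧ bk A Q + 2 ≤ Q.length

theorem sum_ge_length {c : V → ℚ} {Q : List V} (h : ∀ a ∈ Q, 1 ≤ c a) :
    (Q.length : ℚ) ≤ (Q.map c).sum := by
  induction Q with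
  | nil => simp
  | cons a Q ih =>
    have h1 := ih (fun b hb => h b (by simp [hb]))
    have h2 := h a (by simp)
    simp only [length_cons, map_cons, sum_cons]
    push_cast
    linarith

theorem IsTie.not_L0 {S : Finset V} {c : V → ℚ} {l : List V} (h : IsTie A S c l)
    (hc1 : ∀ a ∈ S, 1 ≤ c a) {p r : V} (hg : Good A S l p r) : ¬ L0 A l p r := by
  rintro ⟨z, z', W, hr, h1, h2⟩
  obtain ⟨Q, a1, a2, a3, a4, a5, a6, a7⟩ := hg
  have h3 := h.exch_lt (Y := []) (Z := W) (by simpa using hr) a1 a2 a3 a4 a5 a6 h1.symm h2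
    (by simp; omega)
  have h4 := sum_ge_length (c := c) (Q := Q) (fun a ha => hc1 a (a5 a ha))
  have b1 : (bw A z p : ℚ) ≤ 1 := by exact_mod_cast bw_le z p
  have b2 : (bw A r z' : ℚ) ≤ 1 := by exact_mod_cast bw_le r z'
  have b3 : (bk A Q : ℚ) + 2 ≤ Q.length := by exact_mod_cast a7
  have b4 : (0 : ℚ) ≤ bk A (z :: ([] ++ [z'])) := by positivity
  simp only [map_nil, sum_nil] at h3
  linarith

theorem IsTie.e1 {S : Finset V} {c : V → ℚ} {l : List V} (h : IsTie A S c l)
    (hc1 : ∀ a ∈ S, 1 ≤ c a) {p r : V} (hg : Good A S l p r ∨ Good A S l r p) :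
    (nb A l.toFinset p).card + (nb A l.toFinset r).card ≤ l.toFinset.card := by
  rcases hg with hg | hg
  · refine e1_count h.cyc (fun z z' W hr h1 h2 => ?_)
    exact h.not_L0 hc1 hg ⟨z, z', W, hr, h1, h2⟩
  · have := e1_count (p := r) (q := p) h.cyc (fun z z' W hr h1 h2 =>
      h.not_L0 hc1 hg ⟨z, z', W, hr, h1, h2⟩)
    omega

/-- Any path of length at least two outside `l` is good in one of the two directions. -/
theorem good_of_path (hA : ∀ u v, A u v → ¬ A v u) {S : Finset V} {l : List V} {p r : V}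
    {Q : List V} (h1 : Q.head? = some p) (h2 : Q.getLast? = some r) (h3 : Q.Nodup)
    (h4 : ∀ a ∈ Q, a ∉ l) (h5 : ∀ a ∈ Q, a ∈ S) (h6 : Q.IsChain (Adj A)) (h7 : 2 ≤ Q.length) :
    Good A S l p r ∨ Good A S l r p := by
  have h8 := bk_reverse hA h6
  by_cases h9 : bk A Q + 2 ≤ Q.length
  · exact Or.inl ⟨Q, h1, h2, h3, h4, h5, h6, h9⟩
  · refine Or.inr ⟨Q.reverse, by simpa using h2, by simpa using h1, by simpa using h3,
      by simpa using h4, by simpa using h5, chain_reverse h6, ?_⟩
    simp only [length_reverse]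
    omega

/-- Goodness from a Hamilton cycle of the component. -/
theorem good_of_cyc (hA : ∀ u v, A u v → ¬ A v u) {S : Finset V} {l kl : List V}
    (hk : Cyc A kl) (hkS : ∀ a ∈ kl, a ∈ S) (hkl : ∀ a ∈ kl, a ∉ l) {u r r' : V}
    (hu : u ∈ kl) (hr : r ∈ kl) (hr' : r' ∈ kl) (h1 : r ≠ u) (h2 : r' ≠ u) (h3 : r ≠ r') :
    (Good A S l u r ∨ Good A S l u r') ∧ (Good A S l r u ∨ Good A S l r' u) := by
  obtain ⟨t, ht⟩ := exists_rot hu
  have hrt : r ∈ t := by
    have := ht.perm.mem_iff.1 hr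
    simp at this
    rcases this with h | h
    · exact absurd h h1
    · exact h
  have hrt' : r' ∈ t := by
    have := ht.perm.mem_iff.1 hr'
    simp at this
    rcases this with h | h
    · exact absurd h h2
    · exact h
  -- symmetric statement for an ordered pair
  have key : ∀ a b t1 t2 t3, t = t1 ++ a :: (t2 ++ b :: t3) →
      (Good A S l u a ∨ Good A S l u b) ∧ (Good A S l a u ∨ Good A S l b u) := by
    intro a b t1 t2 t3 htt
    have hc := (hk.isRotated ht).1
    have hch := hc.chain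
    have e : (u :: t) ++ (u :: t).take 1 = u :: (t1 ++ a :: (t2 ++ b :: (t3 ++ [u]))) := by
      simp [htt]
    rw [e] at hch
    have hcr := chain_reverse hch
    have e2 : (u :: (t1 ++ a :: (t2 ++ b :: (t3 ++ [u])))).reverse =
        u :: (t3.reverse ++ b :: (t2.reverse ++ a :: (t1.reverse ++ [u]))) := by simp
    rw [e2] at hcr
    have hnd := hc.nodup
    rw [htt] at hnd
    have hmem : ∀ w, w ∈ u :: (t1 ++ a :: (t2 ++ b :: t3)) → w ∈ S ∧ w ∉ l := by
      intro w hw
      have : w ∈ kl := by rw [ht.perm.mem_iff, htt]; exact hw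
      exact ⟨hkS w this, hkl w this⟩
    -- segment facts
    have hc1 := chain_split'.1 hch
    have hc2 := chain_split'.1 hc1.2
    have hd1 := chain_split'.1 hcr
    have hd2 := chain_split'.1 hd1.2
    have hseg := bk_reverse hA hc2.1
    have eseg : (a :: (t2 ++ [b])).reverse = b :: (t2.reverse ++ [a]) := by simp
    rw [eseg] at hseg
    have hlen : (a :: (t2 ++ [b])).length = t2.length + 2 := by simp
    rw [hlen] at hseg
    -- the four paths
    have P1 : (u :: (t1 ++ a :: (t2 ++ [b]))).IsChain (Adj A) := by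
      rw [chain_split']; exact ⟨hc1.1, hc2.1⟩
    have P2 : (u :: (t3.reverse ++ b :: (t2.reverse ++ [a]))).IsChain (Adj A) := by
      rw [chain_split']; exact ⟨hd1.1, hd2.1⟩
    have P3 : (a :: (t2 ++ b :: (t3 ++ [u]))).IsChain (Adj A) := hc1.2
    have P4 : (b :: (t2.reverse ++ a :: (t1.reverse ++ [u]))).IsChain (Adj A) := hd1.2
    have b1 := bk_split' (A := A) u t1 a (t2 ++ [b])
    have b2 := bk_split' (A := A) u t3.reverse b (t2.reverse ++ [a])
    have b3 := bk_split' (A := A) a t2 b (t3 ++ [u])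
    have b4 := bk_split' (A := A) b t2.reverse a (t1.reverse ++ [u])
    have l1 := bk_le (A := A) (u :: (t1 ++ [a]))
    have l2 := bk_le (A := A) (u :: (t3.reverse ++ [b]))
    have l3 := bk_le (A := A) (b :: (t3 ++ [u]))
    have l4 := bk_le (A := A) (a :: (t1.reverse ++ [u]))
    simp only [length_cons, length_append, length_nil, length_reverse] at l1 l2 l3 l4
    have hperm : ∀ (L : List V), L.Subperm (u :: (t1 ++ a :: (t2 ++ b :: t3))) → L.Nodup := by
      intro L hL
      obtain ⟨L', hL', hs⟩ := hL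
      exact hL'.nodup_iff.1 (hnd.sublist hs)
    have hcount : ∀ (L : List V), (∀ w, L.count w ≤ (u :: (t1 ++ a :: (t2 ++ b :: t3))).count w) →
        L.Nodup ∧ ∀ w ∈ L, w ∈ S ∧ w ∉ l := by
      intro L hL
      have hs : L.Subperm (u :: (t1 ++ a :: (t2 ++ b :: t3))) :=
        List.subperm_ext_iff.2 (fun w _ => hL w)
      refine ⟨hperm L hs, fun w hw => hmem w (hs.subset hw)⟩
    have c1 := hcount (u :: (t1 ++ a :: (t2 ++ [b]))) (by
      intro w; simp only [count_cons, count_append, count_nil]; omega)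
    have c2 := hcount (u :: (t3.reverse ++ b :: (t2.reverse ++ [a]))) (by
      intro w; simp only [count_cons, count_append, count_nil, count_reverse]; omega)
    have c3 := hcount (a :: (t2 ++ b :: (t3 ++ [u]))) (by
      intro w; simp only [count_cons, count_append, count_nil]; omega)
    have c4 := hcount (b :: (t2.reverse ++ a :: (t1.reverse ++ [u]))) (by
      intro w; simp only [count_cons, count_append, count_nil, count_reverse]; omega)
    constructor
    · by_cases g1 : bk A (u :: (t1 ++ a :: (t2 ++ [b]))) + 2 ≤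
        (u :: (t1 ++ a :: (t2 ++ [b]))).length
      · right
        exact ⟨_, rfl, by
          have : u :: (t1 ++ a :: (t2 ++ [b])) = (u :: (t1 ++ a :: t2)) ++ [b] := by simp
          rw [this, getLast?_concat], c1.1, fun w hw => (c1.2 w hw).2,
          fun w hw => (c1.2 w hw).1, P1, g1⟩
      · left
        refine ⟨_, rfl, ?_, c2.1, fun w hw => (c2.2 w hw).2,
          fun w hw => (c2.2 w hw).1, P2, ?_⟩
        · have : u :: (t3.reverse ++ b :: (t2.reverse ++ [a])) =
            (u :: (t3.reverse ++ b :: t2.reverse)) ++ [a] := by simp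
          rw [this, getLast?_concat]
        · simp only [length_cons, length_append, length_nil, length_reverse] at g1 ⊢
          omega
    · by_cases g1 : bk A (a :: (t2 ++ b :: (t3 ++ [u]))) + 2 ≤
        (a :: (t2 ++ b :: (t3 ++ [u]))).length
      · left
        exact ⟨_, rfl, by
          have : a :: (t2 ++ b :: (t3 ++ [u])) = (a :: (t2 ++ b :: t3)) ++ [u] := by simp
          rw [this, getLast?_concat], c3.1, fun w hw => (c3.2 w hw).2,
          fun w hw => (c3.2 w hw).1, P3, g1⟩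
      · right
        refine ⟨_, rfl, ?_, c4.1, fun w hw => (c4.2 w hw).2,
          fun w hw => (c4.2 w hw).1, P4, ?_⟩
        · have : b :: (t2.reverse ++ a :: (t1.reverse ++ [u])) =
            (b :: (t2.reverse ++ a :: t1.reverse)) ++ [u] := by simp
          rw [this, getLast?_concat]
        · simp only [length_cons, length_append, length_nil, length_reverse] at g1 ⊢
          omega
  obtain ⟨t1, t2, rfl⟩ := List.append_of_mem hrt
  simp only [mem_append, mem_cons] at hrt'
  rcases hrt' with h | h | h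
  · obtain ⟨s1, s2, rfl⟩ := List.append_of_mem h
    have := key r' r s1 s2 t2 (by simp)
    exact ⟨this.1.symm, this.2.symm⟩
  · exact absurd h.symm h3
  · obtain ⟨s1, s2, rfl⟩ := List.append_of_mem h
    exact key r r' t1 s1 s2 (by simp)

end Pool.Agent.H94.OD
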