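import Pool.Agent.H94.OD.Weights

/-!
# The case where two or three pairwise adjacent vertices are missing
-/

namespace Pool.Agent.H94.OD

open List

set_option linter.unusedSectionVars false
set_option linter.unusedVariables false

variable {V : Type*} [DecidableEq V] {A : V → V → Prop} [DecidableRel A]


/-! ### numeric lemmas -/

theorem num_s {w N h Cc T : ℚ} (r : N + h = Cc) : w * N = w * (T - h) + w * (Cc - T) := by
  have : N = (T - h) + (Cc - T) := by linarith
  rw [this]; ring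

theorem num_t1 {cb a Cc τ W wp wq Np Nq hpp hqq : ℚ}
    (kp : (2 * τ - 1) / 2 ≤ wp * ((2 * τ - 1) - hpp))
    (kq : (2 * τ - 1) / 2 ≤ wq * ((2 * τ - 1) - hqq))
    (r1 : Np + hpp = Cc) (r2 : Nq + hqq = Cc) (hW2 : W = wp + wq)
    (hsum : 2 * cb ≤ 2 * Cc - 2 * wp * Np - 2 * wq * Nq +
      (2 * wp + 2 * wq - max W 3 - (W - (2 - 1))) * a) :
    2 * cb ≤ 2 * (Cc - (2 * τ - 1)) * (1 - W) + (W + 1 - max W 3) * a := by
  have s1 := num_s (w := wp) (T := 2 * τ - 1) r1
  have s2 := num_s (w := wq) (T := 2 * τ - 1) r2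
  have e1 : 2 * wp + 2 * wq - max W 3 - (W - (2 - 1)) = W + 1 - max W 3 := by
    rw [hW2]; ring
  rw [e1] at hsum
  have e2 : 2 * wp * Np = 2 * (wp * Np) := by ring
  have e3 : 2 * wq * Nq = 2 * (wq * Nq) := by ring
  rw [e2, e3, s1, s2] at hsum
  have e4 : 2 * (Cc - (2 * τ - 1)) * (1 - W) = 2 * Cc - 2 * (2 * τ - 1)
    - 2 * (wp * (Cc - (2 * τ - 1))) - 2 * (wq * (Cc - (2 * τ - 1))) := by
    rw [hW2]; ring
  rw [e4]
  linarith

theorem num_two {cb a Cc τ W : ℚ} (hN0 : 1 ≤ Cc - (2 * τ - 1)) (haτ : a ≤ Cc - τ)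
    (hW2 : 2 < W) (r8 : 0 ≤ cb)
    (t1 : 2 * cb ≤ 2 * (Cc - (2 * τ - 1)) * (1 - W) + (W + 1 - max W 3) * a) :
    2 * cb + 4 ≤ τ := by
  obtain ⟨N, hN⟩ : ∃ N, N = Cc - (2 * τ - 1) := ⟨_, rfl⟩
  rw [← hN] at hN0 t1
  have ha' : a ≤ N + τ - 1 := by linarith
  rcases le_total W 3 with hm | hm
  · rw [max_eq_right hm] at t1
    have t2 : (W - 2) * a ≤ (W - 2) * (N + τ - 1) :=
      mul_le_mul_of_nonneg_left ha' (by linarith)
    have e0 : (W + 1 - 3) * a = (W - 2) * a := by ring
    have id1 : 2 * N * (1 - W) + (W - 2) * (N + τ - 1) = -2 * N + (W - 2) * (τ - 1 - N) := by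
      ring
    by_cases hs : 0 ≤ τ - 1 - N
    · have t3 : (W - 2) * (τ - 1 - N) ≤ 1 * (τ - 1 - N) :=
        mul_le_mul_of_nonneg_right (by linarith) hs
      linarith
    · exfalso
      have t3 : (W - 2) * (τ - 1 - N) ≤ 0 :=
        mul_nonpos_of_nonneg_of_nonpos (by linarith) (by linarith)
      linarith
  · rw [max_eq_left hm] at t1
    have t2 : 2 * N * (1 - W) ≤ 2 * N * (-2) :=
      mul_le_mul_of_nonneg_left (by linarith) (by linarith)
    have t3 : (W + 1 - W) * a = a := by ring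
    rw [t3] at t1
    linarith

theorem num_three {cb a Cc τ W wp wq Np Nq hpp hqq : ℚ}
    (kp : (2 * τ - 1) / 2 ≤ wp * ((2 * τ - 1) - hpp))
    (kq : (2 * τ - 1) / 2 ≤ wq * ((2 * τ - 1) - hqq))
    (r1 : Np + hpp = Cc) (r2 : Nq + hqq = Cc) (hW : wp + wq + 1 ≤ W) (h2 : 2 < wp + wq)
    (r7 : 0 ≤ a) (hN0 : 0 ≤ Cc - (2 * τ - 1))
    (hsum : 2 * cb ≤ 2 * Cc - 2 * wp * Np - 2 * wq * Nq +
      (2 * wp + 2 * wq - W - (W - (3 - 1))) * a) :
    Cc ≤ wp * Np + wq * Nq ∧ 2 * cb ≤ 2 * Cc - 2 * (wp * Np) - 2 * (wq * Nq) := by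
  have s1 := num_s (w := wp) (T := 2 * τ - 1) r1
  have s2 := num_s (w := wq) (T := 2 * τ - 1) r2
  have t0 : (2 * wp + 2 * wq - W - (W - (3 - 1))) * a ≤ 0 :=
    mul_nonpos_of_nonpos_of_nonneg (by linarith) r7
  constructor
  · rw [s1, s2]
    have : (Cc - (2 * τ - 1)) * 1 ≤ (Cc - (2 * τ - 1)) * (wp + wq) :=
      mul_le_mul_of_nonneg_left (by linarith) hN0
    have e : wp * (Cc - (2 * τ - 1)) + wq * (Cc - (2 * τ - 1)) =
      (Cc - (2 * τ - 1)) * (wp + wq) := by ring
    linarith
  · have e2 : 2 * wp * Np = 2 * (wp * Np) := by ring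
    have e3 : 2 * wq * Nq = 2 * (wq * Nq) := by ring
    rw [e2, e3] at hsum
    linarith

theorem num_light {cb Cc τ wp wq Np Nq hpp hqq : ℚ}
    (kq : (2 * τ - 1) / 2 ≤ wq * ((2 * τ - 1) - hqq))
    (r1 : Np + hpp = Cc) (r2 : Nq + hqq = Cc) (h2 : 2 < wp + wq)
    (hN0 : 0 ≤ Cc - (2 * τ - 1)) (hw : wp = 1) (hl : hpp + 1 ≤ τ)
    (t2 : 2 * cb ≤ 2 * Cc - 2 * (wp * Np) - 2 * (wq * Nq)) : 2 * cb < 0 := by
  have s1 := num_s (w := wp) (T := 2 * τ - 1) r1
  have s2 := num_s (w := wq) (T := 2 * τ - 1) r2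
  rw [s1, s2] at t2
  have : (Cc - (2 * τ - 1)) * 1 ≤ (Cc - (2 * τ - 1)) * (wp + wq) :=
    mul_le_mul_of_nonneg_left (by linarith) hN0
  have e : wp * (Cc - (2 * τ - 1)) + wq * (Cc - (2 * τ - 1)) =
    (Cc - (2 * τ - 1)) * (wp + wq) := by ring
  have e2 : wp * (2 * τ - 1 - hpp) = 2 * τ - 1 - hpp := by rw [hw]; ring
  linarith

theorem num_W4 {cb a Cc W wp wq Np Nq : ℚ} (hW : wp + wq + 1 ≤ W) (hW4 : W < 4)
    (wp1 : 1 < wp) (wq1 : 1 < wq) (r5 : a ≤ Np) (r6 : a ≤ Nq) (r7 : 0 ≤ a) (hpos : 1 ≤ Np)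
    (t1 : Cc ≤ wp * Np + wq * Nq)
    (hsum : 2 * cb ≤ 2 * Cc - 2 * 2 * Np - 2 * 2 * Nq + (2 * 2 + 2 * 2 - 4 - 2) * a) :
    2 * cb < 0 := by
  have v1 : 0 < 4 - 2 * wp := by linarith
  have v2 : 0 < 4 - 2 * wq := by linarith
  have v3 : (4 - 2 * wp) * a ≤ (4 - 2 * wp) * Np := mul_le_mul_of_nonneg_left r5 v1.le
  have v4 : (4 - 2 * wq) * a ≤ (4 - 2 * wq) * Nq := mul_le_mul_of_nonneg_left r6 v2.le
  have e1 : (4 - 2 * wp) * Np = 4 * Np - 2 * (wp * Np) := by ring
  have e2 : (4 - 2 * wq) * Nq = 4 * Nq - 2 * (wq * Nq) := by ring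
  rcases eq_or_lt_of_le r7 with h0 | h0
  · have v5 : 0 < (4 - 2 * wp) * Np := mul_pos v1 (by linarith)
    have v6 : 0 ≤ (4 - 2 * wq) * Nq := by
      rw [← h0] at v4; linarith
    rw [← h0] at hsum
    linarith
  · have v7 : (2 * (wp + wq) - 6) * a < 0 := mul_neg_of_neg_of_pos (by linarith) h0
    have e3 : (2 * (wp + wq) - 6) * a = -((4 - 2 * wp) * a) - (4 - 2 * wq) * a + 2 * a := by ring
    linarith

/-- Common facts. -/
theorem nb_of_clique {S : Finset V} {l : List V} (hc : Cyc A l) (hlS : l.toFinset ⊆ S)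
    (hcl : ∀ u ∈ S \ l.toFinset, ∀ v ∈ S \ l.toFinset, u ≠ v → Adj A u v) {p : V}
    (hp : p ∈ S \ l.toFinset) :
    (nb A l.toFinset p).card + (nn A S p).card = l.toFinset.card := by
  have hp' := Finset.mem_sdiff.1 hp
  have h2 := nb_add_nn (A := A) hp'.2
  have h3 := nn_split (A := A) hlS p
  have h4 : (nn A (S \ l.toFinset) p).card = 0 := by
    rw [Finset.card_eq_zero]
    ext u
    rw [mem_nn]
    constructor
    · rintro ⟨a, b, c⟩; exact absurd (hcl p hp u a b.symm) c
    · intro h; simp at h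
  omega

theorem wt_mul_ge {S : Finset V} {τ : ℕ} (hO : Ore A S τ) (hτ : 1 ≤ τ) {p : V} (hp : p ∈ S) :
    (2 * τ - 1 : ℚ) / 2 ≤ wt A S τ p * ((2 * τ - 1 : ℚ) - (nn A S p).card) := by
  by_cases h : (nn A S p).card < τ
  · rw [wt_light h]
    have : ((nn A S p).card : ℚ) + 1 ≤ τ := by exact_mod_cast h
    linarith
  · rw [wt_heavy hO hτ hp (by omega)]

theorem pair_bound (hA : ∀ u v, A u v → ¬ A v u) {S : Finset V} {τ : ℕ} (hτ : 1 ≤ τ)
    (hn : 2 * τ + 2 ≤ S.card) (hO : Ore A S τ) {l : List V} (h : IsTie A S (wt A S τ) l)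
    (hstart : (cb A l : ℚ) + ∑ a ∈ S \ l.toFinset, wt A S τ a < τ + 1)
    {P : List V} {p q : V} (hPn : P.Nodup) (hPK : P.toFinset = S \ l.toFinset)
    (hPc : P.IsChain (Adj A)) (hP0 : bk A P = 0) (hp : P.head? = some p)
    (hq : P.getLast? = some q) (hk : P.length = 2 ∨ P.length = 3)
    (hcl : ∀ u ∈ S \ l.toFinset, ∀ v ∈ S \ l.toFinset, u ≠ v → Adj A u v)
    (hends : ∃ x ∈ l, ∃ y ∈ l, x ≠ y ∧ Adj A p x ∧ Adj A q y)
    (hpos : 1 ≤ (nb A l.toFinset p).card) : cb A l + 4 ≤ τ := by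
  have hpP : p ∈ P := List.mem_of_head? hp
  have hqP : q ∈ P := List.mem_of_getLast? hq
  have hPR : ∀ a ∈ P, a ∈ S \ l.toFinset := by
    intro a ha; rw [← hPK]; simpa using ha
  have hpR := hPR p hpP
  have hqR := hPR q hqP
  have hPl : ∀ a ∈ P, a ∉ l := by
    intro a ha; have := (Finset.mem_sdiff.1 (hPR a ha)).2; simpa using this
  have hPS : ∀ a ∈ P, a ∈ S := fun a ha => (Finset.mem_sdiff.1 (hPR a ha)).1
  have hpq : p ≠ q := by
    rintro rfl
    rcases P with _ | ⟨a, P⟩
    · simp at hp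
    · have ha : a = p := by simpa using hp
      subst ha
      rcases List.eq_nil_or_concat P with rfl | ⟨P', b, rfl⟩
      · simp at hk
      · rw [concat_eq_append] at hq hPn
        have : a :: (P' ++ [b]) = (a :: P') ++ [b] := by simp
        rw [this, getLast?_concat] at hq
        have hb : b = a := by simpa using hq
        subst hb
        simp at hPn
  have c1 : ∀ a ∈ S, 1 ≤ wt A S τ a := fun a ha => wt_ge hO hτ ha
  have hlen : (S \ l.toFinset).card = P.length := by
    rw [← hPK]; exact List.toFinset_card_of_nodup hPn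
  have hcard : l.toFinset.card + P.length = S.card := by
    rw [← hlen, Finset.card_sdiff_of_subset h.sub]
    have := Finset.card_le_card h.sub
    omega
  have nbp := nb_of_clique h.cyc h.sub hcl hpR
  have nbq := nb_of_clique h.cyc h.sub hcl hqR
  -- e1
  have he1 : (nb A l.toFinset p).card + (nb A l.toFinset q).card ≤ l.toFinset.card := by
    refine h.e1 c1 (good_of_path hA (Q := P) hp hq hPn hPl hPS hPc (by omega))
  have hheavy : τ ≤ (nn A S p).card ∨ τ ≤ (nn A S q).card := by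
    by_contra hcon
    push Not at hcon
    omega
  -- non-stops have weight one
  have hw1 : ∀ Y : List V, (∀ a ∈ Y, a ∈ l) → (∀ a ∈ Y, ¬ (Adj A p a ∨ Adj A q a)) →
      (Y.map (wt A S τ)).sum = Y.length := by
    intro Y hYl hY
    have : ∀ a ∈ Y, wt A S τ a = 1 := by
      intro a ha
      have haS : a ∈ S := h.sub (by simpa using hYl a ha)
      have := hY a ha
      push Not at this
      rcases hheavy with hh | hh
      · exact wt_light (nn_light hO (hPS p hpP) hh (mem_nn.2 ⟨haS, by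
          rintro rfl; exact hPl _ hpP (hYl _ ha), this.1⟩))
      · exact wt_light (nn_light hO (hPS q hqP) hh (mem_nn.2 ⟨haS, by
          rintro rfl; exact hPl _ hqP (hYl _ ha), this.2⟩))
    rw [List.map_congr_left this]; simp
  have hYl : ∀ {z Y z' Z}, l ~r (z :: (Y ++ z' :: Z)) → ∀ a ∈ Y, a ∈ l := by
    intro z Y z' Z hr a ha
    rw [hr.perm.mem_iff]; simp [ha]
  set W := ∑ a ∈ S \ l.toFinset, wt A S τ a with hW
  have hPW : (P.map (wt A S τ)).sum = W := by
    rw [sum_map_eq hPn, hPK]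
  have hPW' : (P.reverse.map (wt A S τ)).sum = W := by
    rw [List.map_reverse, List.sum_reverse, hPW]
  have hrev := bk_reverse hA hPc
  rw [hP0, zero_add] at hrev
  -- the four inequalities
  have gp : ∀ z Y z' Z, l ~r (z :: (Y ++ z' :: Z)) → Adj A p z → Adj A p z' →
      (∀ a ∈ Y, ¬ (Adj A p a ∨ Adj A q a)) →
      (bk A (z :: (Y ++ [z'])) : ℚ) ≤ bw A z p + bw A p z' - wt A S τ p + Y.length := by
    intro z Y z' Z hr hz hz' hY
    have h1 := h.toIsMin.gap1 (hPS p hpP) (hPl p hpP) hr hz hz'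
    rw [hw1 Y (hYl hr) hY] at h1
    linarith
  have gq : ∀ z Y z' Z, l ~r (z :: (Y ++ z' :: Z)) → Adj A q z → Adj A q z' →
      (∀ a ∈ Y, ¬ (Adj A p a ∨ Adj A q a)) →
      (bk A (z :: (Y ++ [z'])) : ℚ) ≤ bw A z q + bw A q z' - wt A S τ q + Y.length := by
    intro z Y z' Z hr hz hz' hY
    have h1 := h.toIsMin.gap1 (hPS q hqP) (hPl q hqP) hr hz hz'
    rw [hw1 Y (hYl hr) hY] at h1
    linarith
  have gpq : ∀ z Y z' Z, l ~r (z :: (Y ++ z' :: Z)) → Adj A p z → Adj A q z' →
      (∀ a ∈ Y, ¬ (Adj A p a ∨ Adj A q a)) →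
      (bk A (z :: (Y ++ [z'])) : ℚ) ≤ bw A z p + bw A q z' - W + Y.length := by
    intro z Y z' Z hr hz hz' hY
    have h1 := h.toIsMin.exch hr hp hq hPn hPl hPS hPc hz.symm hz'
    rw [hw1 Y (hYl hr) hY, hPW, hP0] at h1
    push_cast at h1
    linarith
  have gqp : ∀ z Y z' Z, l ~r (z :: (Y ++ z' :: Z)) → Adj A q z → Adj A p z' →
      (∀ a ∈ Y, ¬ (Adj A p a ∨ Adj A q a)) →
      (bk A (z :: (Y ++ [z'])) : ℚ) ≤ bw A z q + bw A p z' - (W - (P.length - 1)) + Y.length := by
    intro z Y z' Z hr hz hz' hY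
    have h1 := h.toIsMin.exch (Q := P.reverse) (p := q) (q := p) hr (by simpa using hq)
      (by simpa using hp) (by simpa using hPn) (by simpa using hPl) (by simpa using hPS)
      (chain_reverse hPc) hz.symm hz'
    rw [hw1 Y (hYl hr) hY, hPW', hrev] at h1
    have h2 : ((P.length - 1 : ℕ) : ℚ) = (P.length : ℚ) - 1 := by
      rw [Nat.cast_sub (by omega)]; simp
    rw [h2] at h1
    linarith
  -- weights
  have wp1 := c1 p (hPS p hpP)
  have wq1 := c1 q (hPS q hqP)
  have hwpq : 2 < wt A S τ p + wt A S τ q := by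
    rcases hheavy with hh | hh
    · have := wt_heavy_gt hO hτ (hPS p hpP) hh
      linarith
    · have := wt_heavy_gt hO hτ (hPS q hqP) hh
      linarith
  -- `W`
  have hWge : wt A S τ p + wt A S τ q + (P.length - 2) ≤ W := by
    have hsub : ({p, q} : Finset V) ⊆ S \ l.toFinset := by
      intro a ha
      simp only [Finset.mem_insert, Finset.mem_singleton] at ha
      rcases ha with rfl | rfl
      · exact hpR
      · exact hqR
    have e1 : W = ∑ a ∈ (S \ l.toFinset) \ {p, q}, wt A S τ a + ∑ a ∈ ({p, q} : Finset V),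
        wt A S τ a := by
      rw [hW, Finset.sum_sdiff hsub]
    have e2 : ∑ a ∈ ({p, q} : Finset V), wt A S τ a = wt A S τ p + wt A S τ q :=
      Finset.sum_pair hpq
    have e3 : (((S \ l.toFinset) \ {p, q}).card : ℚ) ≤
        ∑ a ∈ (S \ l.toFinset) \ {p, q}, wt A S τ a := by
      rw [← nsmul_one, ← Finset.sum_const]
      apply Finset.sum_le_sum
      intro a ha
      exact c1 a (Finset.mem_sdiff.1 (Finset.mem_sdiff.1 ha).1).1
    have e4 : ((S \ l.toFinset) \ {p, q}).card + 2 = P.length := by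
      rw [Finset.card_sdiff_of_subset hsub, Finset.card_pair hpq, hlen]
      omega
    have e5 : (((S \ l.toFinset) \ {p, q}).card : ℚ) + 2 = P.length := by exact_mod_cast e4
    linarith
  set a := (l.toFinset.filter (fun a => Adj A p a ∧ Adj A q a)).card with ha
  have hap : a ≤ (nb A l.toFinset p).card := by
    apply Finset.card_le_card
    intro b hb
    rw [Finset.mem_filter] at hb
    exact mem_nb.2 ⟨hb.1, hb.2.1⟩
  have haq : a ≤ (nb A l.toFinset q).card := by
    apply Finset.card_le_card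
    intro b hb
    rw [Finset.mem_filter] at hb
    exact mem_nb.2 ⟨hb.1, hb.2.2⟩
  obtain ⟨x, hx, y, hy, hne, hpx, hqy⟩ := hends
  have kp := wt_mul_ge hO hτ (hPS p hpP)
  have kq := wt_mul_ge hO hτ (hPS q hqP)
  -- casts
  have r1 : ((nb A l.toFinset p).card : ℚ) + (nn A S p).card = l.toFinset.card := by
    exact_mod_cast nbp
  have r2 : ((nb A l.toFinset q).card : ℚ) + (nn A S q).card = l.toFinset.card := by
    exact_mod_cast nbq
  have r3 : (l.toFinset.card : ℚ) + P.length = S.card := by exact_mod_cast hcard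
  have r4 : (2 * τ + 2 : ℚ) ≤ S.card := by exact_mod_cast hn
  have r5 : (a : ℚ) ≤ (nb A l.toFinset p).card := by exact_mod_cast hap
  have r6 : (a : ℚ) ≤ (nb A l.toFinset q).card := by exact_mod_cast haq
  have r7 : (0 : ℚ) ≤ a := by positivity
  have r8 : (0 : ℚ) ≤ cb A l := by positivity
  rcases hk with hk | hk
  · -- two missing vertices
    have hkq : (P.length : ℚ) = 2 := by exact_mod_cast hk
    rw [hkq] at r3 gqp hWge
    have hW2 : W = wt A S τ p + wt A S τ q := by
      have e1 : S \ l.toFinset = {p, q} := by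
        symm
        apply Finset.eq_of_subset_of_card_le
        · intro b hb
          simp only [Finset.mem_insert, Finset.mem_singleton] at hb
          rcases hb with rfl | rfl
          · exact hpR
          · exact hqR
        · rw [hlen, hk, Finset.card_pair hpq]
      rw [hW, e1, Finset.sum_pair hpq]
    have gpq' : ∀ z Y z' Z, l ~r (z :: (Y ++ z' :: Z)) → Adj A p z → Adj A q z' →
        (∀ a ∈ Y, ¬ (Adj A p a ∨ Adj A q a)) →
        (bk A (z :: (Y ++ [z'])) : ℚ) ≤ bw A z p + bw A q z' - max W 3 + Y.length := by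
      intro z Y z' Z hr hz hz' hY
      have h1 := gpq z Y z' Z hr hz hz' hY
      have h2 : bk A (z :: (Y ++ [z'])) + 2 < bw A z p + bw A q z' + Y.length := by
        have : (bk A (z :: (Y ++ [z'])) : ℚ) + 2 < bw A z p + bw A q z' + Y.length := by
          linarith
        exact_mod_cast this
      have h3 : (bk A (z :: (Y ++ [z'])) : ℚ) + 3 ≤ bw A z p + bw A q z' + Y.length := by
        exact_mod_cast h2
      rcases le_total W 3 with hm | hm
      · rw [max_eq_right hm]; linarith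
      · rw [max_eq_left hm]; linarith
    have hmax1 : W ≤ max W 3 := le_max_left _ _
    have hmax2 : (3 : ℚ) ≤ max W 3 := le_max_right _ _
    have hsum := pair_sum (kp := wt A S τ p) (kq := wt A S τ q) (kpq := max W 3)
      (kqp := W - (2 - 1)) hA h.cyc
      hx hy hne (Or.inl hpx) (Or.inr hqy) gp gq gpq' gqp (by linarith)
    -- an upper bound for `a`
    have haτ : (a : ℚ) ≤ (l.toFinset.card : ℚ) - τ := by
      rcases hheavy with hh | hh
      · have : (τ : ℚ) ≤ (nn A S p).card := by exact_mod_cast hh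
        linarith
      · have : (τ : ℚ) ≤ (nn A S q).card := by exact_mod_cast hh
        linarith
    have t1 := num_t1 kp kq r1 r2 hW2 hsum
    have hfin : 2 * (cb A l : ℚ) + 4 ≤ τ :=
      num_two (by linarith) haτ (by rw [hW2]; exact hwpq) r8 t1
    have hfin' : 2 * cb A l + 4 ≤ τ := by exact_mod_cast hfin
    omega
  · -- three missing vertices
    have hkq : (P.length : ℚ) = 3 := by exact_mod_cast hk
    rw [hkq] at r3 gqp hWge
    have hWge' : wt A S τ p + wt A S τ q + 1 ≤ W := by linarith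
    have hsum := pair_sum (kp := wt A S τ p) (kq := wt A S τ q) (kpq := W)
      (kqp := W - (3 - 1)) hA h.cyc
      hx hy hne (Or.inl hpx) (Or.inr hqy) gp gq gpq gqp (by linarith)
    have hN0 : (0 : ℚ) ≤ (l.toFinset.card : ℚ) - (2 * τ - 1) := by linarith
    obtain ⟨t1, t2⟩ := num_three kp kq r1 r2 hWge' hwpq r7 hN0 hsum
    have hcb0 : (cb A l : ℚ) = 0 := by linarith
    -- both heavy
    have hboth : τ ≤ (nn A S p).card ∧ τ ≤ (nn A S q).card := by
      by_contra hcon
      rw [not_and_or] at hcon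
      rcases hcon with hcon | hcon
      · have hl : (nn A S p).card < τ := by omega
        have e2 : ((nn A S p).card : ℚ) + 1 ≤ τ := by exact_mod_cast hl
        have := num_light kq r1 r2 hwpq hN0 (wt_light hl) e2 t2
        linarith
      · have hl : (nn A S q).card < τ := by omega
        have e2 : ((nn A S q).card : ℚ) + 1 ≤ τ := by exact_mod_cast hl
        have := num_light (cb := cb A l) kp r2 r1 (by linarith) hN0 (wt_light hl) e2 (by linarith)
        linarith
    have wpgt := wt_heavy_gt hO hτ (hPS p hpP) hboth.1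
    have wqgt := wt_heavy_gt hO hτ (hPS q hqP) hboth.2
    by_cases hW4 : W < 4
    · exfalso
      have up : ∀ {b c : ℕ} {w : ℚ} {k : ℕ}, (b : ℚ) ≤ c - w → (k : ℚ) < w →
          (b : ℚ) ≤ c - (k + 1) := by
        intro b c w k h1 h2
        have h3 : (b : ℚ) + k < c := by linarith
        have h4 : b + k < c := by exact_mod_cast h3
        have h5 : b + k + 1 ≤ c := h4
        have h6 : (b : ℚ) + k + 1 ≤ c := by exact_mod_cast h5
        linarith
      have hsum2 := pair_sum (kp := 2) (kq := 2) (kpq := 4) (kqp := 2) hA h.cyc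
        hx hy hne (Or.inl hpx) (Or.inr hqy)
        (by
          intro z Y z' Z hr hz hz' hY
          have h1 := gp z Y z' Z hr hz hz' hY
          have h2 := up (b := bk A (z :: (Y ++ [z']))) (c := bw A z p + bw A p z' + Y.length)
            (w := wt A S τ p) (k := 1) (by push_cast; linarith) (by simpa using wpgt)
          push_cast at h2
          linarith)
        (by
          intro z Y z' Z hr hz hz' hY
          have h1 := gq z Y z' Z hr hz hz' hY
          have h2 := up (b := bk A (z :: (Y ++ [z']))) (c := bw A z q + bw A q z' + Y.length)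
            (w := wt A S τ q) (k := 1) (by push_cast; linarith) (by simpa using wqgt)
          push_cast at h2
          linarith)
        (by
          intro z Y z' Z hr hz hz' hY
          have h1 := gpq z Y z' Z hr hz hz' hY
          have h2 := up (b := bk A (z :: (Y ++ [z']))) (c := bw A z p + bw A q z' + Y.length)
            (w := W) (k := 3) (by push_cast; linarith) (by push_cast; linarith)
          push_cast at h2
          linarith)
        (by
          intro z Y z' Z hr hz hz' hY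
          have h1 := gqp z Y z' Z hr hz hz' hY
          have h2 := up (b := bk A (z :: (Y ++ [z']))) (c := bw A z q + bw A p z' + Y.length)
            (w := W - (3 - 1)) (k := 1) (by push_cast; linarith) (by push_cast; linarith)
          push_cast at h2
          linarith)
        (by norm_num)
      have hposq : (1 : ℚ) ≤ (nb A l.toFinset p).card := by exact_mod_cast hpos
      have := num_W4 hWge' hW4 wpgt wqgt r5 r6 r7 hposq t1 hsum2
      linarith
    · have hW4' : 4 ≤ W := not_lt.1 hW4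
      have h3 : (3 : ℚ) < τ := by linarith
      have h4 : 3 < τ := by exact_mod_cast h3
      have h5 : cb A l = 0 := by exact_mod_cast hcb0
      omega

end Pool.Agent.H94.OD
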