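import Pool.Agent.H94.OD.DP

/-!
# Inserting paths and relocating blocks
-/

namespace Pool.Agent.H94.OD

open List

set_option linter.unusedSectionVars false

variable {V : Type*} {A : V → V → Prop} [DecidableRel A]

theorem exists_rot {l : List V} {x : V} (hx : x ∈ l) : ∃ t, l ~r (x :: t) := by
  obtain ⟨α, β, rfl⟩ := List.append_of_mem hx
  refine ⟨β ++ α, ?_⟩
  have := List.isRotated_append (l := α) (l' := x :: β)
  simpa using this

theorem pair_rot {l L₁ L₂ : List V} (h : l ~r (L₁ ++ L₂)) (h1 : L₁ ≠ []) (h2 : L₂ ≠ []) :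
    ∃ W, l ~r (L₁.getLast h1 :: L₂.head h2 :: W) := by
  obtain ⟨b, L₂, rfl⟩ := List.exists_cons_of_ne_nil h2
  refine ⟨L₂ ++ L₁.dropLast, h.trans ?_⟩
  have e : L₁ ++ b :: L₂ = L₁.dropLast ++ (L₁.getLast h1 :: b :: L₂) := by
    conv_lhs => rw [← List.dropLast_append_getLast h1]
    simp
  rw [e]
  have := List.isRotated_append (l := L₁.dropLast) (l' := L₁.getLast h1 :: b :: L₂)
  simpa using this

theorem bk_append {L₁ L₂ : List V} {a b : V} (h1 : L₁.getLast? = some a)
    (h2 : L₂.head? = some b) : bk A (L₁ ++ L₂) = bk A L₁ + bw A a b + bk A L₂ := by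
  rcases List.eq_nil_or_concat L₁ with rfl | ⟨L₁, c, rfl⟩
  · simp at h1
  rcases L₂ with _ | ⟨d, L₂⟩
  · simp at h2
  have ha : c = a := by simpa using h1
  have hb : d = b := by simpa using h2
  subst ha; subst hb
  rw [concat_eq_append]
  have e : (L₁ ++ [c]) ++ d :: L₂ = L₁ ++ c :: (d :: L₂) := by simp
  rw [e, bk_split]
  simp only [bk_cons_cons]
  omega

theorem chain_append {L₁ L₂ : List V} {a b : V} (h1 : L₁.getLast? = some a)
    (h2 : L₂.head? = some b) :
    (L₁ ++ L₂).IsChain (Adj A) ↔ L₁.IsChain (Adj A) ∧ L₂.IsChain (Adj A) ∧ Adj A a b := by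
  rw [isChain_append]
  constructor
  · rintro ⟨h3, h4, h5⟩
    exact ⟨h3, h4, h5 a (by simp [h1]) b (by simp [h2])⟩
  · rintro ⟨h3, h4, h5⟩
    refine ⟨h3, h4, ?_⟩
    intro x hx y hy
    rw [h1] at hx; rw [h2] at hy
    simp at hx hy
    subst hx; subst hy
    exact h5

theorem getLast?_cons_append {x : V} {Q : List V} {q : V} (hq : Q.getLast? = some q) :
    (x :: Q).getLast? = some q := by
  rcases List.eq_nil_or_concat Q with rfl | ⟨Q, c, rfl⟩
  · simp at hq
  · have hc : c = q := by simpa using hq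
    subst hc
    rw [concat_eq_append]
    have : x :: (Q ++ [c]) = (x :: Q) ++ [c] := by simp
    rw [this, getLast?_concat]

/-- backward count of a path inserted between `z` and `z'`. -/
theorem bk_mid {z z' p q : V} {Q : List V} (hp : Q.head? = some p) (hq : Q.getLast? = some q) :
    bk A (z :: (Q ++ [z'])) = bw A z p + bk A Q + bw A q z' := by
  have e : z :: (Q ++ [z']) = (z :: Q) ++ [z'] := by simp
  rw [e, bk_append (getLast?_cons_append hq) (by rfl : [z'].head? = some z')]
  have e2 : z :: Q = [z] ++ Q := by simp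
  rw [e2, bk_append (by rfl : [z].getLast? = some z) hp]
  simp

theorem chain_mid {z z' p q : V} {Q : List V} (hp : Q.head? = some p) (hq : Q.getLast? = some q) :
    (z :: (Q ++ [z'])).IsChain (Adj A) ↔ Adj A z p ∧ Q.IsChain (Adj A) ∧ Adj A q z' := by
  have e : z :: (Q ++ [z']) = (z :: Q) ++ [z'] := by simp
  rw [e, chain_append (getLast?_cons_append hq) (by rfl : [z'].head? = some z')]
  have e2 : z :: Q = [z] ++ Q := by simp
  rw [e2, chain_append (by rfl : [z].getLast? = some z) hp]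
  simp
  tauto

theorem ne_nil_of_head? {Q : List V} {p : V} (hp : Q.head? = some p) : Q ≠ [] := by
  rintro rfl; simp at hp

/-- Replacing the part between `z` and `z'` of a cycle by a path. -/
theorem replace_path {l : List V} {z z' p q : V} {Y Z Q : List V} (hc : Cyc A l)
    (hr : l ~r (z :: (Y ++ z' :: Z)))
    (hp : Q.head? = some p) (hq : Q.getLast? = some q) (hQn : Q.Nodup) (hQd : ∀ a ∈ Q, a ∉ l)
    (hQc : Q.IsChain (Adj A)) (hzp : Adj A z p) (hqz : Adj A q z') :
    Cyc A (z :: (Q ++ z' :: Z)) ∧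
    cb A (z :: (Q ++ z' :: Z)) + bk A (z :: (Y ++ [z'])) =
      cb A l + bk A (z :: (Q ++ [z'])) := by
  have h1 := hc.isRotated hr
  refine ⟨h1.1.replace (ne_nil_of_head? hp) hQn ?_ ((chain_mid hp hq).2 ⟨hzp, hQc, hqz⟩), ?_⟩
  · intro a ha hal
    exact hQd a ha (hr.perm.mem_iff.2 hal)
  · rw [← h1.2, cb_two, cb_two]
    ring

/-- Inserting a path between two consecutive vertices of a cycle. -/
theorem insert_path {l : List V} {z z' p q : V} {W Q : List V} (hc : Cyc A l)
    (hr : l ~r (z :: z' :: W))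
    (hp : Q.head? = some p) (hq : Q.getLast? = some q) (hQn : Q.Nodup) (hQd : ∀ a ∈ Q, a ∉ l)
    (hQc : Q.IsChain (Adj A)) (hzp : Adj A z p) (hqz : Adj A q z') :
    ∃ l', Cyc A l' ∧ l' ~ (Q ++ l) ∧
    cb A l' + bw A z z' = cb A l + bw A z p + bk A Q + bw A q z' := by
  have h1 := replace_path (Y := []) (Z := W) hc (by simpa using hr) hp hq hQn hQd hQc hzp hqz
  refine ⟨_, h1.1, ?_, ?_⟩
  · have h2 : (z :: (Q ++ z' :: W)) ~ (Q ++ (z :: z' :: W)) := by
      have : (z :: (Q ++ z' :: W)) = ([z] ++ Q) ++ (z' :: W) := by simp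
      rw [this]
      have h3 : (([z] ++ Q) ++ (z' :: W)) ~ ((Q ++ [z]) ++ (z' :: W)) :=
        (List.perm_append_comm).append_right _
      simpa using h3
    exact h2.trans (hr.perm.symm.append_left _)
  · have h2 := h1.2
    rw [bk_mid hp hq] at h2
    simpa [add_assoc, add_comm, add_left_comm] using h2

/-- Replacing the part `Y` between `x` and `y` by `P` and putting `Y` back elsewhere. -/
theorem relocate {l : List V} {x y p q u v : V} {Y Z P α β : List V} (hc : Cyc A l)
    (hr : l ~r (x :: (Y ++ y :: Z)))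
    (hp : P.head? = some p) (hq : P.getLast? = some q) (hPn : P.Nodup) (hPd : ∀ a ∈ P, a ∉ l)
    (hPc : P.IsChain (Adj A)) (hxp : Adj A x p) (hqy : Adj A q y)
    (hu : Y.head? = some u) (hv : Y.getLast? = some v) (hZ : Z = α ++ β)
    (h1 : Adj A ((y :: α).getLast (by simp)) u) (h2 : Adj A v ((β ++ [x]).head (by simp))) :
    ∃ l', Cyc A l' ∧ l' ~ (P ++ l) ∧
      cb A l' ≤ cb A l + bw A x p + bk A P + bw A q y + 2 := by
  classical
  have hc1 := hc.isRotated hr
  have hYn : Y ≠ [] := ne_nil_of_head? hu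
  have e0 : x :: (P ++ y :: (α ++ Y ++ β)) = x :: (P ++ y :: (α ++ Y ++ β)) := rfl
  -- the path `y :: α ++ Y ++ β ++ [x]`
  have ea : (y :: α).getLast? = some ((y :: α).getLast (by simp)) := by
    rw [List.getLast?_eq_some_getLast]
  have eb : (β ++ [x]).head? = some ((β ++ [x]).head (by simp)) := by
    rw [List.head?_eq_some_head]
  have eY : (Y ++ (β ++ [x])).head? = some u := by
    rw [List.head?_append, hu]; rfl
  have epath : y :: ((α ++ Y ++ β) ++ [x]) = (y :: α) ++ (Y ++ (β ++ [x])) := by simp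
  have eold : y :: (Z ++ [x]) = (y :: α) ++ (β ++ [x]) := by rw [hZ]; simp
  have hcyc := hc1.1
  rw [cyc_iff] at hcyc
  obtain ⟨n1, n2, n3, n4⟩ := hcyc
  rw [eold, chain_append ea eb] at n4
  rw [chain_mid hu hv] at n3
  have hch : (y :: ((α ++ Y ++ β) ++ [x])).IsChain (Adj A) := by
    rw [epath, chain_append ea eY, chain_append hv eb]
    exact ⟨n4.1, ⟨n3.2.1, n4.2.1, h2⟩, h1⟩
  have hperm : (x :: (P ++ y :: (α ++ Y ++ β))) ~ (P ++ (x :: (Y ++ y :: Z))) := by
    rw [hZ]
    rw [List.perm_iff_count]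
    intro a
    simp only [count_cons, count_append]
    omega
  have hnod : (x :: (P ++ y :: (α ++ Y ++ β))).Nodup := by
    rw [hperm.nodup_iff, nodup_append]
    refine ⟨hPn, n1, ?_⟩
    intro a ha b hb hab
    subst hab
    exact hPd a ha (hr.perm.mem_iff.2 hb)
  refine ⟨_, (cyc_iff (Y := P) (Z := α ++ Y ++ β)).2 ⟨hnod, ?_, (chain_mid hp hq).2
    ⟨hxp, hPc, hqy⟩, hch⟩, hperm.trans (hr.perm.symm.append_left _), ?_⟩
  · have := length_pos_iff.2 (ne_nil_of_head? hp)
    omega
  · rw [cb_two, bk_mid hp hq, epath, bk_append ea eY, bk_append hv eb, ← hc1.2, cb_two,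
      bk_mid hu hv, eold, bk_append ea eb]
    have b1 := bw_le (A := A) ((y :: α).getLast (by simp)) u
    have b2 := bw_le (A := A) v ((β ++ [x]).head (by simp))
    omega

end Pool.Agent.H94.OD
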