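import Pool.Agent.H94.OD.Sets

/-!
# Insertion of isolated vertices and of components
-/

namespace Pool.Agent.H94.OD

open List

set_option linter.unusedSectionVars false

variable {V : Type*} {A : V → V → Prop} [DecidableRel A]

/-- The Ore type hypothesis with parameter `τ` on the vertex set `S`. -/
def Ore [DecidableEq V] (A : V → V → Prop) [DecidableRel A] (S : Finset V) (τ : ℕ) : Prop :=
  ∀ u ∈ S, ∀ v ∈ S, u ≠ v → ¬ Adj A u v → (nn A S u).card + (nn A S v).card + 1 ≤ 2 * τ

/-! ### stops -/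

theorem first_stop {P : V → Prop} {t : List V} (h : ∃ a ∈ t, P a) :
    ∃ Y z Z, t = Y ++ z :: Z ∧ P z ∧ ∀ a ∈ Y, ¬ P a := by
  induction t with
  | nil => simp at h
  | cons b t ih =>
    by_cases hb : P b
    · exact ⟨[], b, t, rfl, hb, by simp⟩
    · have : ∃ a ∈ t, P a := by
        obtain ⟨a, ha, hPa⟩ := h
        simp at ha
        rcases ha with rfl | ha
        · exact absurd hPa hb
        · exact ⟨a, ha, hPa⟩
      obtain ⟨Y, z, Z, h1, h2, h3⟩ := ih this
      refine ⟨b :: Y, z, Z, by simp [h1], h2, ?_⟩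
      intro a ha
      simp at ha
      rcases ha with rfl | ha
      · exact hb
      · exact h3 a ha

theorem last_stop {P : V → Prop} {t : List V} (h : ∃ a ∈ t, P a) :
    ∃ Z z Y, t = Z ++ z :: Y ∧ P z ∧ ∀ a ∈ Y, ¬ P a := by
  obtain ⟨Y, z, Z, h1, h2, h3⟩ := first_stop (P := P) (t := t.reverse) (by simpa using h)
  refine ⟨Z.reverse, z, Y.reverse, ?_, h2, by simpa using h3⟩
  have := congrArg List.reverse h1
  simpa using this

theorem rot_append {l L₁ L₂ : List V} (h : l ~r (L₁ ++ L₂)) : l ~r (L₂ ++ L₁) :=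
  h.trans List.isRotated_append

theorem closest {P₁ P₂ : V → Prop} {l : List V} {x0 y0 : V} (hx : x0 ∈ l) (hy : y0 ∈ l)
    (hne : x0 ≠ y0) (h1 : P₁ x0) (h2 : P₂ y0) :
    ∃ x y Y Z, l ~r (x :: (Y ++ y :: Z)) ∧ P₁ x ∧ P₂ y ∧ (∀ a ∈ Y, ¬ P₁ a) ∧ ∀ a ∈ Y, ¬ P₂ a := by
  obtain ⟨t, ht⟩ := exists_rot hx
  have hy' : y0 ∈ t := by
    have := ht.perm.mem_iff.1 hy
    simp at this
    rcases this with h | h
    · exact absurd h.symm hne
    · exact h
  obtain ⟨T₁, y, T₂, e1, hy2, hT⟩ := first_stop (P := P₂) ⟨y0, hy', h2⟩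
  obtain ⟨S₁, x, Y, e2, hx2, hY⟩ := last_stop (P := P₁) (t := x0 :: T₁) ⟨x0, by simp, h1⟩
  refine ⟨x, y, Y, T₂ ++ S₁, ?_, hx2, hy2, hY, ?_⟩
  · have h3 : l ~r (S₁ ++ (x :: (Y ++ y :: T₂))) := by
      have e3 : x0 :: t = S₁ ++ (x :: (Y ++ y :: T₂)) := by
        have : x0 :: t = (x0 :: T₁) ++ y :: T₂ := by simp [e1]
        rw [this, e2]; simp
      rw [← e3]; exact ht
    have := rot_append h3
    simpa using this
  · intro a ha
    apply hT
    rcases S₁ with _ | ⟨b, S₁⟩
    · have : x0 = x ∧ T₁ = Y := by simpa using e2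
      rw [this.2]; exact ha
    · have : x0 = b ∧ T₁ = S₁ ++ x :: Y := by simpa using e2
      rw [this.2]; simp [ha]

theorem pair_rot_closed {l : List V} {x : V} {t α β : List V} (hr : l ~r (x :: t))
    (ht0 : t ≠ []) (ht : t = α ++ β) :
    ∃ W, l ~r ((x :: α).getLast (by simp) :: (β ++ [x]).head (by simp) :: W) := by
  rcases β with _ | ⟨b, β⟩
  · have e : t = α := by simpa using ht
    subst e
    have h1 : l ~r ([t.getLast ht0] ++ (x :: t.dropLast)) := by
      apply rot_append
      have : (x :: t.dropLast) ++ [t.getLast ht0] = x :: t := by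
        simp [List.dropLast_append_getLast ht0]
      rw [this]; exact hr
    refine ⟨t.dropLast, ?_⟩
    have e2 : (x :: t).getLast (by simp) = t.getLast ht0 := List.getLast_cons ht0
    rw [e2]
    simpa using h1
  · have h1 : l ~r ((x :: α) ++ (b :: β)) := by rw [ht] at hr; simpa using hr
    obtain ⟨W, hW⟩ := pair_rot h1 (by simp) (by simp)
    exact ⟨W, by simpa using hW⟩

variable [DecidableEq V]

theorem Cyc.card_toFinset {l : List V} (hc : Cyc A l) : l.toFinset.card = l.length :=
  List.toFinset_card_of_nodup hc.nodup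

/-- If no vertex adjacent to `p` is followed by a vertex adjacent to `q`. -/
theorem e1_count {l : List V} {p q : V} (hc : Cyc A l)
    (hno : ∀ z z' W, l ~r (z :: z' :: W) → Adj A p z → ¬ Adj A q z') :
    (nb A l.toFinset p).card + (nb A l.toFinset q).card ≤ l.toFinset.card := by
  rcases l with _ | ⟨x, t⟩
  · have := hc.len; simp at this
  have ht0 : t ≠ [] := by
    rintro rfl
    have := hc.len; simp at this
  have h2 := split_count (F := fun a => ¬ Adj A p a) (G := fun a => ¬ Adj A q a) x t x (by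
    intro α β hZ
    obtain ⟨W, hW⟩ := pair_rot_closed (List.IsRotated.refl (x :: t)) ht0 hZ
    by_cases h : Adj A p ((x :: α).getLast (by simp))
    · exact Or.inr (hno _ _ W hW h)
    · exact Or.inl h)
  have h3 := countP_add_not (x :: t) (fun a => Adj A p a)
  have h4 := countP_add_not (t ++ [x]) (fun a => Adj A q a)
  have h5 : (nb A (x :: t).toFinset p).card = (x :: t).countP (fun a => decide (Adj A p a)) := by
    unfold nb; rw [card_filter_toFinset hc.nodup]
  have h6 : (nb A (x :: t).toFinset q).card = (t ++ [x]).countP (fun a => decide (Adj A q a)) := by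
    unfold nb; rw [card_filter_toFinset hc.nodup, countP_append, countP_cons]
    simp [countP_cons]
  rw [hc.card_toFinset]
  simp only [length_cons, length_append, length_nil] at h3 h4 ⊢
  omega

/-! ### single vertices -/

/-- Inserting a single vertex between two consecutive neighbours. -/
theorem insert_one {l : List V} {z z' v : V} {W : List V} (hc : Cyc A l)
    (hr : l ~r (z :: z' :: W)) (hv : v ∉ l) (h1 : Adj A v z) (h2 : Adj A v z') :
    ∃ l', Cyc A l' ∧ l' ~ (v :: l) ∧
    cb A l' + bw A z z' = cb A l + bw A z v + bw A v z' := by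
  have := insert_path (Q := [v]) (p := v) (q := v) hc hr rfl rfl (by simp) (by simpa using hv)
    (by simp) h1.symm h2
  simpa using this

theorem light_insert {S : Finset V} {τ : ℕ} (hn : 2 * τ + 1 ≤ S.card) {l : List V} {v : V}
    (hc : Cyc A l) (hlS : l.toFinset ⊆ S) (hv : v ∈ S) (hvl : v ∉ l)
    (hlight : (nn A S v).card + 1 ≤ τ)
    (hiso : ∀ u ∈ S, u ∉ l → u ≠ v → ¬ Adj A v u) :
    ∃ l', Cyc A l' ∧ l' ~ (v :: l) ∧ cb A l' ≤ cb A l + 2 := by
  by_contra hcon
  have hno : ∀ z z' W, l ~r (z :: z' :: W) → Adj A v z → ¬ Adj A v z' := by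
    intro z z' W hr h1 h2
    obtain ⟨l', a1, a2, a3⟩ := insert_one hc hr hvl h1 h2
    refine hcon ⟨l', a1, a2, ?_⟩
    have b1 := bw_le (A := A) z v
    have b2 := bw_le (A := A) v z'
    omega
  have h1 := e1_count hc hno
  have hvC : v ∉ l.toFinset := by simpa using hvl
  have h2 := nb_add_nn (A := A) hvC
  have h3 := nn_split (A := A) hlS v
  have h4 : nn A (S \ l.toFinset) v = (S \ l.toFinset).erase v := by
    ext u
    simp only [mem_nn, Finset.mem_erase, Finset.mem_sdiff, List.mem_toFinset]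
    constructor
    · rintro ⟨⟨a, b⟩, c, _⟩; exact ⟨c, a, b⟩
    · rintro ⟨c, a, b⟩; exact ⟨⟨a, b⟩, c, hiso u a b c⟩
  have h5 : (nn A (S \ l.toFinset) v).card = S.card - l.toFinset.card - 1 := by
    rw [h4, Finset.card_erase_of_mem (by simp [hv, hvl]), Finset.card_sdiff_of_subset hlS]
  have h6 := Finset.card_le_card hlS
  have h7 : l.toFinset.card < S.card := by
    apply Finset.card_lt_card
    refine ⟨hlS, fun h => ?_⟩
    exact hvC (h hv)
  omega

/-- A vertex (light or heavy) is inserted at cost at most `3` into a Hamilton cycle of the rest. -/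
theorem lemmaV (hA : ∀ u v, A u v → ¬ A v u) {S : Finset V} {τ : ℕ} (hn : 2 * τ + 2 ≤ S.card)
    (hO : Ore A S τ) {l : List V} {v : V} (hc : Cyc A l) (hlS : l.toFinset = S.erase v)
    (hv : v ∈ S) :
    ∃ l', Cyc A l' ∧ l' ~ (v :: l) ∧ cb A l' ≤ cb A l + 3 := by
  have hvl : v ∉ l.toFinset := by rw [hlS]; simp
  have hvl' : v ∉ l := by simpa using hvl
  have hsub : l.toFinset ⊆ S := by rw [hlS]; exact Finset.erase_subset _ _
  have hcard : l.toFinset.card + 1 = S.card := by
    rw [hlS]; exact Finset.card_erase_add_one hv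
  have hR : S \ l.toFinset = {v} := by
    rw [hlS]; ext u; simp only [Finset.mem_sdiff, Finset.mem_erase, Finset.mem_singleton]
    constructor
    · rintro ⟨a, b⟩; by_contra h; exact b ⟨h, a⟩
    · rintro rfl; exact ⟨hv, fun h => h.1 rfl⟩
  have hsplit := nn_split (A := A) hsub v
  rw [hR] at hsplit
  have hv0 : (nn A {v} v).card = 0 := by
    rw [Finset.card_eq_zero]; ext u; simp only [mem_nn, Finset.mem_singleton]
    simp
    intro h h'; exact absurd h h'
  have hnb := nb_add_nn (A := A) hvl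
  -- non-neighbours of `v`
  have hnonnb : ∀ u ∈ l, ¬ Adj A v u → (nn A l.toFinset u).card + 1 + (nn A S v).card + 1 ≤ 2 * τ := by
    intro u hu hvu
    have huS : u ∈ S := hsub (by simpa using hu)
    have hne : u ≠ v := by rintro rfl; exact hvl' hu
    have h1 := hO u huS v hv hne (fun h => hvu h.symm)
    have h2 := nn_split (A := A) hsub u
    rw [hR] at h2
    have h3 : (nn A {v} u).card = 1 := by
      rw [Finset.card_eq_one]
      refine ⟨v, ?_⟩
      ext w
      simp only [mem_nn, Finset.mem_singleton]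
      constructor
      · rintro ⟨a, _⟩; exact a
      · rintro rfl; exact ⟨rfl, hne.symm, fun h => hvu h.symm⟩
    omega
  by_cases hcons : ∃ z z' W, l ~r (z :: z' :: W) ∧ Adj A v z ∧ Adj A v z'
  · obtain ⟨z, z', W, hr, h1, h2⟩ := hcons
    obtain ⟨l', a1, a2, a3⟩ := insert_one hc hr hvl' h1 h2
    refine ⟨l', a1, a2, ?_⟩
    have b1 := bw_le (A := A) z v
    have b2 := bw_le (A := A) v z'
    omega
  have hno : ∀ z z' W, l ~r (z :: z' :: W) → Adj A v z → ¬ Adj A v z' := by
    intro z z' W hr h1 h2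
    exact hcons ⟨z, z', W, hr, h1, h2⟩
  -- at least two neighbours
  have h2nb : 2 ≤ (nb A l.toFinset v).card := by
    by_cases h0 : (nn A l.toFinset v).card = 0
    · have h3 := hc.len
      have h4 := hc.card_toFinset
      omega
    · have : (nn A l.toFinset v).Nonempty := by
        rw [← Finset.card_pos]; omega
      obtain ⟨u, hu⟩ := this
      rw [mem_nn] at hu
      have := hnonnb u (by simpa using hu.1) hu.2.2
      omega
  -- a good gap
  have hgap : ∃ x y Y Z, l ~r (x :: (Y ++ y :: Z)) ∧ Adj A v x ∧ Adj A v y ∧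
      (∀ a ∈ Y, ¬ Adj A v a) ∧ bw A x v + bw A v y ≤ 1 := by
    obtain ⟨z, hz, w, hw, hzw⟩ := Finset.one_lt_card.1 (by omega : 1 < (nb A l.toFinset v).card)
    rw [mem_nb, List.mem_toFinset] at hz hw
    obtain ⟨t, ht⟩ := exists_rot hz.1
    have hwt : w ∈ t := by
      have := ht.perm.mem_iff.1 hw.1
      simp at this
      rcases this with h | h
      · exact absurd h.symm hzw
      · exact h
    have hb := bw_add hA hz.2
    by_cases h0 : bw A z v = 0
    · obtain ⟨Y, y, Z, e, hy, hY⟩ := first_stop (P := fun a => Adj A v a) ⟨w, hwt, hw.2⟩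
      refine ⟨z, y, Y, Z, ?_, hz.2, hy, hY, ?_⟩
      · rw [e] at ht; exact ht
      · have := bw_le (A := A) v y
        omega
    · have h0' : bw A v z = 0 := by omega
      obtain ⟨Z, x, Y, e, hx, hY⟩ := last_stop (P := fun a => Adj A v a) ⟨w, hwt, hw.2⟩
      refine ⟨x, z, Y, Z, ?_, hx, hz.2, hY, ?_⟩
      · rw [e] at ht
        have h1 : l ~r ((z :: Z) ++ (x :: Y)) := by simpa using ht
        have := rot_append h1
        simpa using this
      · have := bw_le (A := A) x v
        omega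
  obtain ⟨x, y, Y, Z, hr, hx, hy, hY, hcost⟩ := hgap
  have hY0 : Y ≠ [] := by
    rintro rfl
    exact hno x y Z (by simpa using hr) hx hy
  obtain ⟨u, hu⟩ : ∃ u, Y.head? = some u := by
    rw [List.head?_eq_some_head hY0]; exact ⟨_, rfl⟩
  obtain ⟨u', hu'⟩ : ∃ u, Y.getLast? = some u := by
    rw [List.getLast?_eq_some_getLast hY0]; exact ⟨_, rfl⟩
  have huY : u ∈ Y := List.mem_of_head? hu
  have huY' : u' ∈ Y := List.mem_of_getLast? hu'
  have hmem : ∀ a ∈ Y, a ∈ l := by
    intro a ha
    rw [hr.perm.mem_iff]; simp [ha]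
  have b1 := hnonnb u (hmem u huY) (hY u huY)
  have b2 := hnonnb u' (hmem u' huY') (hY u' huY')
  obtain ⟨α, β, hZ, p1, p2⟩ := place (p := v) (q := v) hc hr hx hy hY hY hno huY huY' (by omega)
  obtain ⟨l', a1, a2, a3⟩ := relocate (P := [v]) (p := v) (q := v) hc hr rfl rfl (by simp)
    (by simpa using hvl') (by simp) hx.symm hy hu hu' hZ p1.symm p2
  refine ⟨l', a1, by simpa using a2, ?_⟩
  simp at a3
  omega

end Pool.Agent.H94.OD
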