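import Pool.Agent.H94.OD.Place

/-!
# Counting neighbours on a cycle
-/

namespace Pool.Agent.H94.OD

open List

set_option linter.unusedSectionVars false

variable {V : Type*} {A : V → V → Prop} [DecidableRel A] [DecidableEq V]

theorem mem_nb {S : Finset V} {v u : V} : u ∈ nb A S v ↔ u ∈ S ∧ Adj A v u := by
  simp [nb]

theorem mem_nn {S : Finset V} {v u : V} : u ∈ nn A S v ↔ u ∈ S ∧ u ≠ v ∧ ¬ Adj A v u := by
  simp [nn]

theorem nb_add_nn {T : Finset V} {v : V} (hv : v ∉ T) :
    (nb A T v).card + (nn A T v).card = T.card := by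
  have e : nn A T v = T.filter (fun u => ¬ Adj A v u) := by
    ext u
    simp only [mem_nn, Finset.mem_filter]
    constructor
    · rintro ⟨h1, _, h3⟩; exact ⟨h1, h3⟩
    · rintro ⟨h1, h3⟩; exact ⟨h1, fun h => hv (h ▸ h1), h3⟩
  rw [e]
  exact Finset.card_filter_add_card_filter_not (s := T) (fun u => Adj A v u)

theorem nn_split {S T : Finset V} (h : T ⊆ S) (v : V) :
    (nn A S v).card = (nn A T v).card + (nn A (S \ T) v).card := by
  have e : nn A S v = nn A T v ∪ nn A (S \ T) v := by
    ext u
    simp only [mem_nn, Finset.mem_union, Finset.mem_sdiff]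
    constructor
    · rintro ⟨h1, h2⟩
      by_cases h3 : u ∈ T
      · exact Or.inl ⟨h3, h2⟩
      · exact Or.inr ⟨⟨h1, h3⟩, h2⟩
    · rintro (⟨h1, h2⟩ | ⟨⟨h1, h3⟩, h2⟩)
      · exact ⟨h h1, h2⟩
      · exact ⟨h1, h2⟩
  rw [e]
  apply Finset.card_union_of_disjoint
  rw [Finset.disjoint_left]
  intro u hu hu'
  rw [mem_nn] at hu hu'
  exact (Finset.mem_sdiff.1 hu'.1).2 hu.1

theorem nn_mono {S T : Finset V} (h : T ⊆ S) (v : V) : (nn A T v).card ≤ (nn A S v).card := by
  rw [nn_split h v]; omega

theorem card_filter_toFinset {L : List V} (hL : L.Nodup) (p : V → Prop) [DecidablePred p] :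
    (L.toFinset.filter p).card = L.countP (fun a => decide (p a)) := by
  rw [List.countP_eq_length_filter, ← List.toFinset_card_of_nodup (hL.filter _)]
  congr 1
  ext a; simp

theorem countP_add_not (L : List V) (p : V → Prop) [DecidablePred p] :
    L.countP (fun a => decide (p a)) + L.countP (fun a => decide (¬ p a)) = L.length := by
  have := List.length_eq_countP_add_countP (fun a => decide (p a)) (l := L)
  rw [this]
  congr 2
  funext a; simp

/-- A place for a block exists by counting. -/
theorem place {l : List V} {x y p q u v : V} {Y Z : List V} (hc : Cyc A l)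
    (hr : l ~r (x :: (Y ++ y :: Z))) (hxp : Adj A p x) (hqy : Adj A q y)
    (hYp : ∀ a ∈ Y, ¬ Adj A p a) (hYq : ∀ a ∈ Y, ¬ Adj A q a)
    (hno : ∀ z z' W, l ~r (z :: z' :: W) → Adj A p z → ¬ Adj A q z')
    (hu : u ∈ Y) (hv : v ∈ Y)
    (hb : (nn A l.toFinset u).card + (nn A l.toFinset v).card + 3 ≤
      (nb A l.toFinset p).card + (nb A l.toFinset q).card) :
    ∃ α β, Z = α ++ β ∧ Adj A u ((y :: α).getLast (by simp)) ∧
      Adj A v ((β ++ [x]).head (by simp)) := by
  have hrot : l ~r (y :: (Z ++ x :: Y)) := by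
    refine hr.trans ?_
    have := List.isRotated_append (l := x :: Y) (l' := y :: Z)
    simpa using this
  have hnd := (hc.isRotated hr).1.nodup
  -- consecutive pairs
  have hpair : ∀ α β, Z = α ++ β → ∃ W, l ~r ((y :: α).getLast (by simp) ::
      (β ++ [x]).head (by simp) :: W) := by
    intro α β hZ
    have h1 : l ~r ((y :: α) ++ (β ++ x :: Y)) := by
      rw [hZ] at hrot
      simpa using hrot
    obtain ⟨W, hW⟩ := pair_rot h1 (by simp) (by simp)
    refine ⟨W, ?_⟩
    have e : (β ++ x :: Y).head (by simp) = (β ++ [x]).head (by simp) := by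
      cases β <;> simp
    rw [← e]
    exact hW
  by_contra hcon
  push Not at hcon
  -- first count: no place
  have h1 := split_count (F := fun a => ¬ Adj A u a) (G := fun a => ¬ Adj A v a) y Z x (by
    intro α β hZ
    by_cases h : Adj A u ((y :: α).getLast (by simp))
    · exact Or.inr (hcon α β hZ h)
    · exact Or.inl h)
  -- second count
  have h2 := split_count (F := fun a => ¬ Adj A p a) (G := fun a => ¬ Adj A q a) y Z x (by
    intro α β hZ
    obtain ⟨W, hW⟩ := hpair α β hZ
    by_cases h : Adj A p ((y :: α).getLast (by simp))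
    · exact Or.inr (hno _ _ W hW h)
    · exact Or.inl h)
  -- translate
  have hmem : ∀ a, a ∈ l ↔ a ∈ x :: (Y ++ y :: Z) := fun a => hr.perm.mem_iff
  have hfin : l.toFinset = (x :: (Y ++ y :: Z)).toFinset := by
    ext a; simp only [List.mem_toFinset]; exact hmem a
  have hp1 : (nb A l.toFinset p).card = 1 + (y :: Z).countP (fun a => decide (Adj A p a)) := by
    unfold nb
    rw [hfin, card_filter_toFinset hnd]
    rw [countP_cons, countP_append]
    have e0 : Y.countP (fun a => decide (Adj A p a)) = 0 := by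
      rw [countP_eq_zero]; intro a ha; simpa using hYp a ha
    rw [e0]; simp [hxp]; omega
  have hq1 : (nb A l.toFinset q).card =
      1 + (Z ++ [x]).countP (fun a => decide (Adj A q a)) := by
    unfold nb
    rw [hfin, card_filter_toFinset hnd]
    rw [countP_cons, countP_append, countP_cons, countP_append]
    have e0 : Y.countP (fun a => decide (Adj A q a)) = 0 := by
      rw [countP_eq_zero]; intro a ha; simpa using hYq a ha
    rw [e0]
    have e1 : (if decide (Adj A q y) = true then 1 else 0) = 1 := by simp [hqy]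
    rw [e1]; simp [countP_cons]; omega
  have hnd' : (y :: Z).Nodup ∧ (Z ++ [x]).Nodup ∧ u ∉ (y :: Z) ∧ v ∉ (Z ++ [x]) := by
    simp only [nodup_cons, nodup_append, mem_append, mem_cons, not_or] at hnd ⊢
    obtain ⟨⟨a1, a2, a3⟩, a4, ⟨a5, a6⟩, a7⟩ := hnd
    refine ⟨⟨a5, a6⟩, ⟨a6, ?_, ?_⟩, ⟨?_, ?_⟩, ?_, ?_⟩
    · simp
    · intro a ha b hb hab
      simp at hb
      subst hab; subst hb
      exact a3 ha
    · exact fun h => a7 u hu y (Or.inl rfl) h
    · exact fun h => a7 u hu u (Or.inr h) rfl
    · exact fun h => a7 v hv v (Or.inr h) rfl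
    · simp
      intro h; subst h; exact a1 hv
  have hu1 : (y :: Z).countP (fun a => decide (¬ Adj A u a)) ≤ (nn A l.toFinset u).card := by
    rw [← card_filter_toFinset hnd'.1]
    apply Finset.card_le_card
    intro a ha
    simp only [Finset.mem_filter, List.mem_toFinset] at ha
    rw [mem_nn, List.mem_toFinset, hmem]
    refine ⟨?_, ?_, ha.2⟩
    · have := ha.1
      simp only [mem_cons, mem_append] at this ⊢
      tauto
    · rintro rfl; exact hnd'.2.2.1 ha.1
  have hv1 : (Z ++ [x]).countP (fun a => decide (¬ Adj A v a)) ≤ (nn A l.toFinset v).card := by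
    rw [← card_filter_toFinset hnd'.2.1]
    apply Finset.card_le_card
    intro a ha
    simp only [Finset.mem_filter, List.mem_toFinset] at ha
    rw [mem_nn, List.mem_toFinset, hmem]
    refine ⟨?_, ?_, ha.2⟩
    · have := ha.1
      simp only [mem_cons, mem_append, not_mem_nil, or_false] at this ⊢
      tauto
    · rintro rfl; exact hnd'.2.2.2 ha.1
  have h3 := countP_add_not (y :: Z) (fun a => Adj A p a)
  have h4 := countP_add_not (Z ++ [x]) (fun a => Adj A q a)
  simp only [length_cons, length_append, length_nil] at h3 h4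
  omega

end Pool.Agent.H94.OD
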