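import Pool.Agent.H94.OD.Main

/-!
# The induction step
-/

namespace Pool.Agent.H94.OD

open List

set_option linter.unusedSectionVars false
set_option linter.unusedVariables false

variable {V : Type*} {A : V → V → Prop} [DecidableRel A] [DecidableEq V]

/-- The graph induced on the vertices outside of the cycle. -/
def RG (A : V → V → Prop) (S : Finset V) (l : List V) : SimpleGraph V where
  Adj u v := u ≠ v ∧ u ∈ S \ l.toFinset ∧ v ∈ S \ l.toFinset ∧ Adj A u v
  symm := ⟨fun u v h => ⟨h.1.symm, h.2.2.1, h.2.1, Or.symm h.2.2.2⟩⟩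
  loopless := ⟨fun u h => h.1 rfl⟩

theorem support_subset {S : Finset V} {l : List V} {p r : V} (w : (RG A S l).Walk p r)
    (hp : p ∈ S \ l.toFinset) : ∀ a ∈ w.support, a ∈ S \ l.toFinset := by
  induction w with
  | nil => intro a ha; simp at ha; rw [ha]; exact hp
  | cons h w ih =>
    intro a ha
    rw [SimpleGraph.Walk.support_cons, mem_cons] at ha
    rcases ha with rfl | ha
    · exact hp
    · exact ih h.2.2.1 a ha

theorem good_of_reach (hA : ∀ u v, A u v → ¬ A v u) {S : Finset V} {l : List V} {p r : V}
    (hp : p ∈ S \ l.toFinset) (hne : p ≠ r) (h : (RG A S l).Reachable p r) :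
    Good A S l p r ∨ Good A S l r p := by
  obtain ⟨w, hw⟩ := h.exists_isPath
  have hsub := support_subset w hp
  refine good_of_path hA (Q := w.support) ?_ ?_ hw.support_nodup ?_ ?_ ?_ ?_
  · rw [List.head?_eq_some_head w.support_ne_nil, w.head_support]
  · rw [List.getLast?_eq_some_getLast w.support_ne_nil, w.getLast_support]
  · intro a ha
    have := (Finset.mem_sdiff.1 (hsub a ha)).2
    simpa using this
  · intro a ha; exact (Finset.mem_sdiff.1 (hsub a ha)).1
  · exact w.isChain_adj_support.imp (fun a b hab => hab.2.2.2)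
  · rw [SimpleGraph.Walk.length_support]
    have : w.length ≠ 0 := by
      intro h0
      exact hne (SimpleGraph.Walk.eq_of_length_eq_zero h0)
    omega

/-- `p` and `p'` lie in the same component of the rest, if both are non-isolated there. -/
theorem reach_of_nonisolated (hA : ∀ u v, A u v → ¬ A v u) {S : Finset V} {τ : ℕ} {c : V → ℚ}
    (hn : 2 * τ + 2 ≤ S.card) (hO : Ore A S τ) {l : List V} (h : IsTie A S c l)
    (hc1 : ∀ a ∈ S, 1 ≤ c a) {p q p' q' : V} (hpq : (RG A S l).Adj p q)
    (hpq' : (RG A S l).Adj p' q') : (RG A S l).Reachable p p' := by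
  by_contra hcon
  have hpR := hpq.2.1
  have hqR := hpq.2.2.1
  have hpR' := hpq'.2.1
  have hqR' := hpq'.2.2.1
  have r1 : (RG A S l).Reachable p q := hpq.reachable
  have r2 : (RG A S l).Reachable p' q' := hpq'.reachable
  have hcon2 : ¬ (RG A S l).Reachable q q' := by
    intro hh
    exact hcon (r1.trans (hh.trans r2.symm))
  have g1 := h.e1 hc1 (good_of_reach hA hpR hpq.1 r1)
  have g2 := h.e1 hc1 (good_of_reach hA hpR' hpq'.1 r2)
  -- for unreachable pairs
  have key : ∀ {a b : V}, a ∈ S \ l.toFinset → b ∈ S \ l.toFinset →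
      ¬ (RG A S l).Reachable a b →
      a ≠ b ∧ ¬ Adj A a b ∧ (S \ l.toFinset).card ≤
        (nn A (S \ l.toFinset) a).card + (nn A (S \ l.toFinset) b).card := by
    intro a b ha hb hab
    have hne : a ≠ b := by
      rintro rfl; exact hab (SimpleGraph.Reachable.refl _)
    have hnadj : ¬ Adj A a b := by
      intro hh
      exact hab (SimpleGraph.Adj.reachable (G := RG A S l) ⟨hne, ha, hb, hh⟩)
    refine ⟨hne, hnadj, ?_⟩
    have hsub : S \ l.toFinset ⊆ nn A (S \ l.toFinset) a ∪ nn A (S \ l.toFinset) b := by
      intro r hr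
      rw [Finset.mem_union, mem_nn, mem_nn]
      by_cases hra : r = a
      · right; rw [hra]; exact ⟨ha, hne, fun hh => hnadj hh.symm⟩
      by_cases hrb : r = b
      · left; rw [hrb]; exact ⟨hb, hne.symm, hnadj⟩
      by_contra hcc
      push Not at hcc
      have h1 := hcc.1 hr hra
      have h2 := hcc.2 hr hrb
      have e1 : (RG A S l).Reachable a r :=
        SimpleGraph.Adj.reachable (G := RG A S l) ⟨fun hh => hra hh.symm, ha, hr, h1⟩
      have e2 : (RG A S l).Reachable b r :=
        SimpleGraph.Adj.reachable (G := RG A S l) ⟨fun hh => hrb hh.symm, hb, hr, h2⟩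
      exact hab (e1.trans e2.symm)
    exact (Finset.card_le_card hsub).trans (Finset.card_union_le _ _)
  obtain ⟨k1, k2, k3⟩ := key hpR hpR' hcon
  obtain ⟨k4, k5, k6⟩ := key hqR hqR' hcon2
  have o1 := hO p (Finset.mem_sdiff.1 hpR).1 p' (Finset.mem_sdiff.1 hpR').1 k1 k2
  have o2 := hO q (Finset.mem_sdiff.1 hqR).1 q' (Finset.mem_sdiff.1 hqR').1 k4 k5
  have hcard : l.toFinset.card + (S \ l.toFinset).card = S.card := by
    rw [Finset.card_sdiff_of_subset h.sub]
    have := Finset.card_le_card h.sub
    omega
  have s1 := nn_split (A := A) h.sub p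
  have s2 := nn_split (A := A) h.sub q
  have s3 := nn_split (A := A) h.sub p'
  have s4 := nn_split (A := A) h.sub q'
  have b1 := nb_add_nn (A := A) (Finset.mem_sdiff.1 hpR).2
  have b2 := nb_add_nn (A := A) (Finset.mem_sdiff.1 hqR).2
  have b3 := nb_add_nn (A := A) (Finset.mem_sdiff.1 hpR').2
  have b4 := nb_add_nn (A := A) (Finset.mem_sdiff.1 hqR').2
  omega

/-- The induction step. -/
theorem step [Finite V] (hA : ∀ u v, A u v → ¬ A v u) {S : Finset V} {τ : ℕ} (hτ : 1 ≤ τ)
    (hn : 2 * τ + 2 ≤ S.card) (hO : Ore A S τ)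
    (IH : ∀ x ∈ S, ∃ l, Cyc A l ∧ l.toFinset = S.erase x ∧ cb A l ≤ τ) :
    ∃ l, Cyc A l ∧ l.toFinset = S ∧ cb A l ≤ τ := by
  have hc1 : ∀ a ∈ S, 1 ≤ wt A S τ a := fun a ha => wt_ge hO hτ ha
  obtain ⟨l, h⟩ : ∃ l, IsTie A S (wt A S τ) l := by
    apply exists_tie
    obtain ⟨v, hv⟩ : S.Nonempty := by rw [← Finset.card_pos]; omega
    obtain ⟨l, a1, a2, _⟩ := IH v hv
    exact ⟨l, a1, by rw [a2]; exact Finset.erase_subset _ _⟩
  have hstart := start hA hτ hn hO IH h.toIsMin
  set R := S \ l.toFinset with hR
  have hcard : l.toFinset.card + R.card = S.card := by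
    rw [hR, Finset.card_sdiff_of_subset h.sub]
    have := Finset.card_le_card h.sub
    omega
  -- `cb + |R| ≤ τ`
  have hm : cb A l + R.card ≤ τ := by
    have h1 : (R.card : ℚ) ≤ ∑ a ∈ R, wt A S τ a := by
      rw [← nsmul_one, ← Finset.sum_const]
      apply Finset.sum_le_sum
      intro a ha
      exact hc1 a (Finset.mem_sdiff.1 ha).1
    have h2 : (cb A l : ℚ) + R.card < τ + 1 := by linarith
    have h3 : cb A l + R.card < τ + 1 := by exact_mod_cast h2
    omega
  -- the non-isolated vertices
  set K := R.filter (fun v => ∃ u ∈ R, u ≠ v ∧ Adj A v u) with hK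
  set I := R \ K with hI
  have hKR : K ⊆ R := Finset.filter_subset _ _
  have hIR : I ⊆ R := Finset.sdiff_subset
  have hKI : K.card + I.card = R.card := by
    rw [hI, Finset.card_sdiff_of_subset hKR]
    have := Finset.card_le_card hKR
    omega
  have hisoI : ∀ v ∈ I, ∀ u ∈ R, u ≠ v → ¬ Adj A v u := by
    intro v hv u hu hne hadj
    have := Finset.mem_sdiff.1 hv
    apply this.2
    rw [hK, Finset.mem_filter]
    exact ⟨this.1, u, hu, hne, hadj⟩
  have hdisj : Disjoint K I := Finset.disjoint_sdiff
  have hindI : ∀ u ∈ I, ∀ v ∈ I, u ≠ v → ¬ Adj A u v :=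
    fun u hu v hv hne => hisoI u hu v (hIR hv) hne.symm
  -- E1 inside `K`
  have hE1 : ∀ u ∈ K, ∀ v ∈ K, u ≠ v →
      (nb A l.toFinset u).card + (nb A l.toFinset v).card ≤ l.toFinset.card := by
    intro u hu v hv hne
    rw [hK, Finset.mem_filter] at hu hv
    obtain ⟨huR, u', hu', hue, hua⟩ := hu
    obtain ⟨hvR, v', hv', hve, hva⟩ := hv
    have hr := reach_of_nonisolated hA hn hO h hc1 (p := u) (q := u') (p' := v) (q' := v')
      ⟨hue.symm, huR, hu', hua⟩ ⟨hve.symm, hvR, hv', hva⟩
    exact h.e1 hc1 (good_of_reach hA huR hne hr)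
  have hsplitR : ∀ u, (nn A R u).card = (nn A K u).card + (nn A I u).card := by
    intro u
    exact nn_split (A := A) hKR u
  have hIall : ∀ u ∈ K, (nn A I u).card = I.card := by
    intro u hu
    congr 1
    ext i
    rw [mem_nn]
    constructor
    · exact fun hh => hh.1
    · intro hi
      refine ⟨hi, ?_, ?_⟩
      · rintro rfl
        exact (Finset.disjoint_left.1 hdisj) hu hi
      · intro hadj
        have hne : u ≠ i := by
          rintro rfl
          exact (Finset.disjoint_left.1 hdisj) hu hi
        exact hisoI i hi u (hKR hu) hne hadj.symm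
  have hnnS : ∀ u ∈ K, (nn A S u).card + (nb A l.toFinset u).card =
      l.toFinset.card + (nn A K u).card + I.card := by
    intro u hu
    have h1 := nn_split (A := A) h.sub u
    have h2 := nb_add_nn (A := A) (Finset.mem_sdiff.1 (hKR hu)).2
    have h3 := hsplitR u
    have h4 := hIall u hu
    rw [← hR] at h1
    omega
  -- sparse non-adjacency inside `K`
  have hKore : ∀ u ∈ K, ∀ v ∈ K, u ≠ v → ¬ Adj A u v →
      (nn A K u).card + (nn A K v).card + 3 + I.card ≤ K.card := by
    intro u hu v hv hne hna
    have h1 := hO u (Finset.mem_sdiff.1 (hKR hu)).1 v (Finset.mem_sdiff.1 (hKR hv)).1 hne hna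
    have h2 := hE1 u hu v hv hne
    have h3 := hnnS u hu
    have h4 := hnnS v hv
    omega
  have hKclique : K.card ≤ 4 → ∀ u ∈ K, ∀ v ∈ K, u ≠ v → Adj A u v := by
    intro hk u hu v hv hne
    by_contra hna
    have h1 := hKore u hu v hv hne hna
    have h2 : 1 ≤ (nn A K u).card := by
      rw [Nat.one_le_iff_ne_zero, ← Nat.pos_iff_ne_zero, Finset.card_pos]
      exact ⟨v, mem_nn.2 ⟨hv, hne.symm, hna⟩⟩
    have h3 : 1 ≤ (nn A K v).card := by
      rw [Nat.one_le_iff_ne_zero, ← Nat.pos_iff_ne_zero, Finset.card_pos]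
      exact ⟨u, mem_nn.2 ⟨hu, hne, fun hh => hna hh.symm⟩⟩
    omega
  have hK1 : K.card ≠ 1 := by
    intro hh
    obtain ⟨v, hv⟩ := Finset.card_eq_one.1 hh
    have hvK : v ∈ K := by rw [hv]; simp
    have hvK' := hvK
    rw [hK, Finset.mem_filter] at hvK'
    obtain ⟨hvR, u, hu, hne, hadj⟩ := hvK'
    have : u ∈ K := by
      rw [hK, Finset.mem_filter]
      exact ⟨hu, v, hvR, hne.symm, hadj.symm⟩
    rw [hv] at this
    exact hne (by simpa using this)
  -- the finishing move
  have hfinish : ∀ l1, Cyc A l1 → l1.toFinset = l.toFinset ∪ K →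
      cb A l1 + 2 * I.card + min I.card 1 ≤ τ →
      ∃ l, Cyc A l ∧ l.toFinset = S ∧ cb A l ≤ τ := by
    intro l1 hc hl1 hcost
    have hsd : S \ l1.toFinset = I := by
      rw [hl1, hI, hR]; ext a
      simp only [Finset.mem_sdiff, Finset.mem_union, not_or]
      tauto
    have hsub : l1.toFinset ⊆ S := by
      rw [hl1]
      exact Finset.union_subset h.sub (hKR.trans Finset.sdiff_subset)
    obtain ⟨l', d1, d2, d3⟩ := finish hA hn hO I.card l1 hc hsub (by rw [hsd])
      (by rw [hsd]; exact hindI)
    exact ⟨l', d1, d2, by omega⟩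
  -- a Hamilton path of `K` is inserted
  have hctx : 2 ≤ K.card → CompCtx A S τ l K I ∧
      ∃ P : List V, P.Nodup ∧ P.toFinset = K ∧ P.IsChain (Adj A) ∧ bk A P + 1 ≤ max 1 (K.card / 2) := by
    intro hk2
    by_cases hk3 : K.card = 2
    · -- two vertices
      refine ⟨⟨hn, hO, h.cyc, h.sub, hKR, hIR, ?_, hdisj, ?_, ?_, ?_⟩, ?_⟩
      · intro a ha
        by_cases h1 : a ∈ l
        · exact Or.inl h1
        by_cases h2 : a ∈ K
        · exact Or.inr (Or.inl h2)
        · exact Or.inr (Or.inr (by
            rw [hI, Finset.mem_sdiff, hR, Finset.mem_sdiff, List.mem_toFinset]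
            exact ⟨⟨ha, h1⟩, h2⟩))
      · intro p hp i hi hadj
        have hne : p ≠ i := by
          rintro rfl
          exact (Finset.disjoint_left.1 hdisj) hp hi
        exact hisoI i hi p (hKR hp) hne hadj.symm
      · intro u hu r hr r' hr' n1 n2 n3
        exfalso
        have : ({u, r, r'} : Finset V).card ≤ K.card := by
          apply Finset.card_le_card
          intro a ha
          simp only [Finset.mem_insert, Finset.mem_singleton] at ha
          rcases ha with rfl | rfl | rfl <;> assumption
        rw [Finset.card_eq_three.2 ⟨u, r, r', n1.symm, n2.symm, n3, rfl⟩] at this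
        omega
      · intro u hu r hr r' hr' n1 n2 n3
        exfalso
        have : ({u, r, r'} : Finset V).card ≤ K.card := by
          apply Finset.card_le_card
          intro a ha
          simp only [Finset.mem_insert, Finset.mem_singleton] at ha
          rcases ha with rfl | rfl | rfl <;> assumption
        rw [Finset.card_eq_three.2 ⟨u, r, r', n1.symm, n2.symm, n3, rfl⟩] at this
        omega
      · obtain ⟨P, p1, p2, p3⟩ := redei (A := A) K (hKclique (by omega))
        obtain ⟨p4, p5⟩ := bk_directed hA p3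
        exact ⟨P, p1, p2, p5, by omega⟩
    · -- at least three vertices
      obtain ⟨kl, ck1, ck2⟩ := ore (A := A) K (by omega) (by
        intro u hu v hv hne hna
        have := hKore u hu v hv hne hna
        omega)
      have hkR : ∀ a ∈ kl, a ∈ R := by
        intro a ha
        apply hKR
        rw [← ck2]; simpa using ha
      have hkS : ∀ a ∈ kl, a ∈ S := fun a ha => (Finset.mem_sdiff.1 (hkR a ha)).1
      have hkl : ∀ a ∈ kl, a ∉ l := by
        intro a ha
        have := (Finset.mem_sdiff.1 (hkR a ha)).2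
        simpa using this
      have hmem : ∀ a, a ∈ K → a ∈ kl := by
        intro a ha; rw [← ck2] at ha; simpa using ha
      refine ⟨⟨hn, hO, h.cyc, h.sub, hKR, hIR, ?_, hdisj, ?_, ?_, ?_⟩, ?_⟩
      · intro a ha
        by_cases h1 : a ∈ l
        · exact Or.inl h1
        by_cases h2 : a ∈ K
        · exact Or.inr (Or.inl h2)
        · exact Or.inr (Or.inr (by
            rw [hI, Finset.mem_sdiff, hR, Finset.mem_sdiff, List.mem_toFinset]
            exact ⟨⟨ha, h1⟩, h2⟩))
      · intro p hp i hi hadj
        have hne : p ≠ i := by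
          rintro rfl
          exact (Finset.disjoint_left.1 hdisj) hp hi
        exact hisoI i hi p (hKR hp) hne hadj.symm
      · intro u hu r hr r' hr' n1 n2 n3
        have := (good_of_cyc hA (S := S) (l := l) ck1 hkS hkl (hmem u hu) (hmem r hr)
          (hmem r' hr') n1 n2 n3).1
        rcases this with hg | hg
        · exact Or.inl (h.not_L0 hc1 hg)
        · exact Or.inr (h.not_L0 hc1 hg)
      · intro u hu r hr r' hr' n1 n2 n3
        have := (good_of_cyc hA (S := S) (l := l) ck1 hkS hkl (hmem u hu) (hmem r hr)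
          (hmem r' hr') n1 n2 n3).2
        rcases this with hg | hg
        · exact Or.inl (h.not_L0 hc1 hg)
        · exact Or.inr (h.not_L0 hc1 hg)
      · -- better direction
        have hlen : kl.length = K.card := by
          rw [← ck2, List.toFinset_card_of_nodup ck1.nodup]
        have hrev := ck1.reverse hA
        have gen : ∀ kl' : List V, Cyc A kl' → kl'.toFinset = K → cb A kl' ≤ K.card / 2 →
            ∃ P : List V, P.Nodup ∧ P.toFinset = K ∧ P.IsChain (Adj A) ∧
              bk A P + 1 ≤ max 1 (K.card / 2) := by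
          intro kl' e1 e2 e3
          obtain ⟨P, q1, q2, q3⟩ := cut e1
          refine ⟨P, q1.nodup_iff.2 e1.nodup, ?_, q2, ?_⟩
          · rw [← e2]; ext a; simp only [List.mem_toFinset]; exact q1.mem_iff
          · omega
        by_cases hb : cb A kl ≤ K.card / 2
        · exact gen kl ck1 ck2 hb
        · refine gen kl.reverse hrev.1 (by rw [List.toFinset_reverse, ck2]) ?_
          have := hrev.2
          omega
  -- inserting `K` by a given path
  have hinsK : ∀ P : List V, 2 ≤ K.card → P.Nodup → P.toFinset = K → P.IsChain (Adj A) →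
      cb A l + bk A P + 4 + 2 * I.card + min I.card 1 ≤ τ →
      ∃ l, Cyc A l ∧ l.toFinset = S ∧ cb A l ≤ τ := by
    intro P hk2 p1 p2 p3 hcost
    have hP0 : P ≠ [] := by
      rintro rfl
      rw [← p2] at hk2
      simp at hk2
    obtain ⟨l1, c1, c2, c3⟩ := (hctx hk2).1.lemmaG (P := P) (p := P.head hP0)
      (q := P.getLast hP0) p1 p2 p3 (List.head?_eq_some_head hP0)
      (List.getLast?_eq_some_getLast hP0)
    refine hfinish l1 c1 ?_ (by omega)
    ext a
    rw [List.mem_toFinset, c2.mem_iff, mem_append, Finset.mem_union, ← p2, List.mem_toFinset,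
      List.mem_toFinset]
    tauto
  by_cases hIl : ∃ v ∈ I, (nn A S v).card < τ
  · -- an isolated light vertex
    obtain ⟨v, hv, hvl⟩ := hIl
    have hvR := Finset.mem_sdiff.1 (hIR hv)
    have hb := light_bound hA hτ hn hO h hvR.1 (by simpa using hvR.2) hvl (by
      intro u hu hul hne
      exact hisoI v hv u (by rw [hR, Finset.mem_sdiff, List.mem_toFinset]; exact ⟨hu, hul⟩) hne)
    rw [← hR] at hb
    by_cases hk2 : 2 ≤ K.card
    · obtain ⟨_, P, p1, p2, p3, p4⟩ := hctx hk2
      refine hinsK P hk2 p1 p2 p3 ?_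
      omega
    · have hK0 : K = ∅ := by rw [← Finset.card_eq_zero]; omega
      exact hfinish l h.cyc (by rw [hK0, Finset.union_empty]) (by omega)
  · push Not at hIl
    have hI1 : I.card ≤ 1 := by
      by_contra hcon
      obtain ⟨a, ha, b, hb, hab⟩ := two_of_card (T := I) (by omega)
      have h1 := hO a (Finset.mem_sdiff.1 (hIR ha)).1 b (Finset.mem_sdiff.1 (hIR hb)).1 hab
        (hindI a ha b hb hab)
      have h2 := hIl a ha
      have h3 := hIl b hb
      omega
    by_cases hI0 : I.card = 0
    · by_cases hk2 : 2 ≤ K.card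
      · have hRK : K = R := Finset.eq_of_subset_of_card_le hKR (by omega)
        by_cases hk5 : 5 ≤ K.card
        · obtain ⟨_, P, p1, p2, p3, p4⟩ := hctx hk2
          refine hinsK P hk2 p1 p2 p3 ?_
          omega
        · obtain ⟨P, p1, p2, p3⟩ := redei (A := A) K (hKclique (by omega))
          obtain ⟨p4, p5⟩ := bk_directed hA p3
          refine hinsK P hk2 p1 p2 p5 ?_
          by_cases hk4 : K.card = 4
          · omega
          · -- two or three vertices
            have hP0 : P ≠ [] := by
              rintro rfl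
              rw [← p2] at hk2
              simp at hk2
            have hlen : P.length = K.card := by
              rw [← p2, List.toFinset_card_of_nodup p1]
            have hpK : P.head hP0 ∈ K := by rw [← p2]; simp
            have hqK : P.getLast hP0 ∈ K := by rw [← p2]; simp
            have hcl : ∀ u ∈ S \ l.toFinset, ∀ v ∈ S \ l.toFinset, u ≠ v → Adj A u v := by
              rw [← hR, ← hRK]
              exact hKclique (by omega)
            have := pair_bound hA hτ hn hO h hstart (P := P) (p := P.head hP0)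
              (q := P.getLast hP0) p1 (by rw [p2, hRK]) p5 p4 (List.head?_eq_some_head hP0)
              (List.getLast?_eq_some_getLast hP0) (by omega) hcl
              ((hctx hk2).1.two_ends hpK hqK) ((hctx hk2).1.nb_pos hpK)
            omega
      · have hK0 : K = ∅ := by rw [← Finset.card_eq_zero]; omega
        exact hfinish l h.cyc (by rw [hK0, Finset.union_empty]) (by omega)
    · -- one isolated heavy vertex
      obtain ⟨v, hv⟩ := Finset.card_eq_one.1 (by omega : I.card = 1)
      have hvI : v ∈ I := by rw [hv]; simp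
      have hvR := Finset.mem_sdiff.1 (hIR hvI)
      have hvh := hIl v hvI
      have hb := heavy_bound hA hτ hn hO h hvR.1 (by simpa using hvR.2) hvh (by
        intro u hu hul hne
        exact hisoI v hvI u (by rw [hR, Finset.mem_sdiff, List.mem_toFinset]; exact ⟨hu, hul⟩) hne)
      rw [← hR] at hb
      by_cases hk2 : 2 ≤ K.card
      · -- all vertices of `K` are light
        have hKl : ∀ u ∈ K, (nn A S u).card < τ := by
          intro u hu
          have huR := Finset.mem_sdiff.1 (hKR hu)
          have hne : u ≠ v := by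
            rintro rfl
            exact (Finset.disjoint_left.1 hdisj) hu hvI
          exact nn_light hO hvR.1 hvh (mem_nn.2 ⟨huR.1, hne, hisoI v hvI u (hKR hu) hne⟩)
        have hk5 : 5 ≤ K.card := by
          obtain ⟨a, ha, b, hb', hab⟩ := two_of_card (T := K) hk2
          have h1 := hE1 a ha b hb' hab
          have h2 := hnnS a ha
          have h3 := hnnS b hb'
          have h4 := hKl a ha
          have h5 := hKl b hb'
          omega
        obtain ⟨_, P, p1, p2, p3, p4⟩ := hctx hk2
        refine hinsK P hk2 p1 p2 p3 ?_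
        omega
      · have hK0 : K = ∅ := by rw [← Finset.card_eq_zero]; omega
        exact hfinish l h.cyc (by rw [hK0, Finset.union_empty]) (by omega)

end Pool.Agent.H94.OD
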