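import Pool.Agent.H94.OD.Min

/-!
# Summing the exchange inequalities over the gaps
-/

namespace Pool.Agent.H94.OD

open List

set_option linter.unusedSectionVars false

variable {V : Type*} [DecidableEq V] {A : V → V → Prop} [DecidableRel A]

theorem sum_map_eq {l : List V} (hl : l.Nodup) (f : V → ℚ) :
    (l.map f).sum = ∑ a ∈ l.toFinset, f a := (List.sum_toFinset f hl).symm

theorem single_sum (hA : ∀ u v, A u v → ¬ A v u) {l : List V} {v : V} {κ : ℚ} {g : V → ℚ}
    (hc : Cyc A l) (hv : v ∉ l) (h2 : 2 ≤ (nb A l.toFinset v).card)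
    (gap : ∀ z Y z' Z, l ~r (z :: (Y ++ z' :: Z)) → Adj A v z → Adj A v z' →
      (∀ a ∈ Y, ¬ Adj A v a) →
      (bk A (z :: (Y ++ [z'])) : ℚ) ≤ bw A z v + bw A v z' - κ + (Y.map g).sum) :
    (cb A l : ℚ) ≤ (nb A l.toFinset v).card * (1 - κ) + ∑ a ∈ nn A l.toFinset v, g a := by
  obtain ⟨s₁, h₁, s₂, h₂, hne⟩ := two_of_card h2
  rw [mem_nb, List.mem_toFinset] at h₁ h₂
  have h := dp (A := A) (P := fun a => Adj A v a) (inn := fun a => (bw A v a : ℚ))
    (out := fun a => (bw A a v : ℚ) - κ) (g := g) (k := 1) hc.nodup h₁.1 h₂.1 hne h₁.2 h₂.2 hc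
    (by
      intro z Y z' Z hr hz hz' hY
      have := gap z Y z' Z hr hz hz' hY
      linarith)
  rw [one_mul, sum_map_eq hc.nodup] at h
  refine h.trans (le_of_eq ?_)
  have e1 : nn A l.toFinset v = l.toFinset.filter (fun a => ¬ Adj A v a) := by
    ext u
    simp only [mem_nn, Finset.mem_filter, List.mem_toFinset]
    constructor
    · rintro ⟨h1, _, h3⟩; exact ⟨h1, h3⟩
    · rintro ⟨h1, h3⟩; exact ⟨h1, fun h => hv (h ▸ h1), h3⟩
  rw [Finset.sum_ite, e1]
  congr 1
  have e2 : ∀ a ∈ l.toFinset.filter (fun a => Adj A v a),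
      (bw A v a : ℚ) + (bw A a v - κ) = 1 - κ := by
    intro a ha
    have h3 := bw_add hA (Finset.mem_filter.1 ha).2
    have h4 : (bw A v a : ℚ) + bw A a v = 1 := by exact_mod_cast h3
    linarith
  rw [Finset.sum_congr rfl e2, Finset.sum_const, nsmul_eq_mul]
  rfl

theorem pair_sum (hA : ∀ u v, A u v → ¬ A v u) {l : List V} {p q : V} {kp kq kpq kqp : ℚ}
    (hc : Cyc A l) {s₁ s₂ : V} (hs₁ : s₁ ∈ l) (hs₂ : s₂ ∈ l) (hne : s₁ ≠ s₂)
    (hP₁ : Adj A p s₁ ∨ Adj A q s₁) (hP₂ : Adj A p s₂ ∨ Adj A q s₂)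
    (gpp : ∀ z Y z' Z, l ~r (z :: (Y ++ z' :: Z)) → Adj A p z → Adj A p z' →
      (∀ a ∈ Y, ¬ (Adj A p a ∨ Adj A q a)) →
      (bk A (z :: (Y ++ [z'])) : ℚ) ≤ bw A z p + bw A p z' - kp + Y.length)
    (gqq : ∀ z Y z' Z, l ~r (z :: (Y ++ z' :: Z)) → Adj A q z → Adj A q z' →
      (∀ a ∈ Y, ¬ (Adj A p a ∨ Adj A q a)) →
      (bk A (z :: (Y ++ [z'])) : ℚ) ≤ bw A z q + bw A q z' - kq + Y.length)
    (gpq : ∀ z Y z' Z, l ~r (z :: (Y ++ z' :: Z)) → Adj A p z → Adj A q z' →
      (∀ a ∈ Y, ¬ (Adj A p a ∨ Adj A q a)) →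
      (bk A (z :: (Y ++ [z'])) : ℚ) ≤ bw A z p + bw A q z' - kpq + Y.length)
    (gqp : ∀ z Y z' Z, l ~r (z :: (Y ++ z' :: Z)) → Adj A q z → Adj A p z' →
      (∀ a ∈ Y, ¬ (Adj A p a ∨ Adj A q a)) →
      (bk A (z :: (Y ++ [z'])) : ℚ) ≤ bw A z q + bw A p z' - kqp + Y.length)
    (hk : kp + kq ≤ kpq + kqp) :
    2 * (cb A l : ℚ) ≤ 2 * l.toFinset.card - 2 * kp * (nb A l.toFinset p).card
      - 2 * kq * (nb A l.toFinset q).card
      + (2 * kp + 2 * kq - kpq - kqp) *
        (l.toFinset.filter (fun a => Adj A p a ∧ Adj A q a)).card := by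
  have h := dp (A := A) (P := fun a => Adj A p a ∨ Adj A q a)
    (inn := fun a => if Adj A p a then (if Adj A q a then (bw A q a : ℚ) + bw A p a - (kpq - kp)
      else 2 * bw A p a) else 2 * bw A q a - (kq - kqp + kpq - kp))
    (out := fun a => if Adj A p a then (if Adj A q a then (bw A a p : ℚ) + bw A a q - (kqp + kp)
      else 2 * bw A a p - 2 * kp) else 2 * bw A a q - (kq + kqp - kpq + kp))
    (g := fun _ => 2) (k := 2) hc.nodup hs₁ hs₂ hne hP₁ hP₂ hc
    (by
      intro z Y z' Z hr hz hz' hY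
      have eY : (Y.map (fun _ : V => (2 : ℚ))).sum = 2 * Y.length := by
        simp [mul_comm]
      rw [eY]
      by_cases h1 : Adj A p z <;> by_cases h2 : Adj A q z <;>
        by_cases h3 : Adj A p z' <;> by_cases h4 : Adj A q z' <;>
        simp only [h1, h2, h3, h4, if_true, if_false, or_true, true_or, or_false, or_self] at hz hz' ⊢
      -- N N
      · have a1 := gpq z Y z' Z hr h1 h4 hY
        have a2 := gqp z Y z' Z hr h2 h3 hY
        linarith
      -- N x
      · have a1 := gpp z Y z' Z hr h1 h3 hY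
        have a2 := gqp z Y z' Z hr h2 h3 hY
        linarith
      -- N y
      · have a1 := gpq z Y z' Z hr h1 h4 hY
        have a2 := gqq z Y z' Z hr h2 h4 hY
        linarith
      -- x N
      · have a1 := gpq z Y z' Z hr h1 h4 hY
        have a2 := gpp z Y z' Z hr h1 h3 hY
        linarith
      -- x x
      · have a1 := gpp z Y z' Z hr h1 h3 hY
        linarith
      -- x y
      · have a1 := gpq z Y z' Z hr h1 h4 hY
        linarith
      -- y N
      · have a1 := gqq z Y z' Z hr h2 h4 hY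
        have a2 := gqp z Y z' Z hr h2 h3 hY
        linarith
      -- y x
      · have a1 := gqp z Y z' Z hr h2 h3 hY
        linarith
      -- y y
      · have a1 := gqq z Y z' Z hr h2 h4 hY
        linarith)
  rw [sum_map_eq hc.nodup] at h
  refine h.trans (le_of_eq ?_)
  have e : ∀ a ∈ l.toFinset, (if Adj A p a ∨ Adj A q a then
      ((if Adj A p a then (if Adj A q a then (bw A q a : ℚ) + bw A p a - (kpq - kp)
      else 2 * bw A p a) else 2 * bw A q a - (kq - kqp + kpq - kp)) +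
      (if Adj A p a then (if Adj A q a then (bw A a p : ℚ) + bw A a q - (kqp + kp)
      else 2 * bw A a p - 2 * kp) else 2 * bw A a q - (kq + kqp - kpq + kp))) else 2) =
      2 - 2 * kp * (if Adj A p a then 1 else 0) - 2 * kq * (if Adj A q a then 1 else 0) +
      (2 * kp + 2 * kq - kpq - kqp) * (if Adj A p a ∧ Adj A q a then 1 else 0) := by
    intro a _
    by_cases h1 : Adj A p a <;> by_cases h2 : Adj A q a <;>
      simp only [h1, h2, if_true, if_false, or_true, true_or, or_false, or_self, and_true,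
        and_false, and_self]
    · have b1 : (bw A p a : ℚ) + bw A a p = 1 := by exact_mod_cast bw_add hA h1
      have b2 : (bw A q a : ℚ) + bw A a q = 1 := by exact_mod_cast bw_add hA h2
      linarith
    · have b1 : (bw A p a : ℚ) + bw A a p = 1 := by exact_mod_cast bw_add hA h1
      linarith
    · have b2 : (bw A q a : ℚ) + bw A a q = 1 := by exact_mod_cast bw_add hA h2
      linarith
    · ring
  rw [Finset.sum_congr rfl e, Finset.sum_add_distrib, Finset.sum_sub_distrib,
    Finset.sum_sub_distrib, ← Finset.mul_sum, ← Finset.mul_sum, ← Finset.mul_sum,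
    Finset.sum_boole, Finset.sum_boole, Finset.sum_boole, Finset.sum_const, nsmul_eq_mul]
  unfold nb
  ring

end Pool.Agent.H94.OD
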