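import Pool.Agent.H94.OD.Step

/-!
# The theorem for lists
-/

namespace Pool.Agent.H94.OD

open List

set_option linter.unusedSectionVars false

variable {V : Type*} {A : V → V → Prop} [DecidableRel A] [DecidableEq V]

theorem Ore.erase {S : Finset V} {τ : ℕ} (h : Ore A S τ) (x : V) : Ore A (S.erase x) τ := by
  intro u hu v hv hne hna
  have h1 := h u (Finset.mem_of_mem_erase hu) v (Finset.mem_of_mem_erase hv) hne hna
  have h2 := nn_mono (A := A) (Finset.erase_subset x S) u
  have h3 := nn_mono (A := A) (Finset.erase_subset x S) v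
  omega

/-- A cycle in the better direction. -/
theorem better (hA : ∀ u v, A u v → ¬ A v u) {l : List V} (hc : Cyc A l) :
    ∃ l', Cyc A l' ∧ l'.toFinset = l.toFinset ∧ cb A l' ≤ l.length / 2 := by
  have h := hc.reverse hA
  by_cases hb : cb A l ≤ l.length / 2
  · exact ⟨l, hc, rfl, hb⟩
  · exact ⟨l.reverse, h.1, List.toFinset_reverse, by omega⟩

theorem main [Finite V] (hA : ∀ u v, A u v → ¬ A v u) {τ : ℕ} (hτ : 1 ≤ τ) (m : ℕ) :
    ∀ S : Finset V, S.card = 2 * τ + 1 + m → Ore A S τ →
      ∃ l, Cyc A l ∧ l.toFinset = S ∧ cb A l ≤ τ := by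
  induction m with
  | zero =>
    intro S hS hO
    obtain ⟨l, h1, h2⟩ := ore (A := A) S (by omega) (by
      intro u hu v hv hne hna
      have := hO u hu v hv hne hna
      omega)
    obtain ⟨l', h3, h4, h5⟩ := better hA h1
    refine ⟨l', h3, h4.trans h2, ?_⟩
    have := h1.card_toFinset
    rw [h2] at this
    omega
  | succ m ih =>
    intro S hS hO
    refine step hA hτ (by omega) hO ?_
    intro x hx
    refine ih (S.erase x) ?_ (hO.erase x)
    rw [Finset.card_erase_of_mem hx]
    omega

/-- Backward arcs as a sum over indices. -/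
theorem bk_eq_sum (L : List V) (d : V) :
    bk A L = ∑ i ∈ Finset.range (L.length - 1), bw A (L.getD i d) (L.getD (i + 1) d) := by
  induction L with
  | nil => simp
  | cons a t ih =>
    rcases t with _ | ⟨b, t⟩
    · simp
    · simp only [bk_cons_cons, ih, length_cons, Nat.add_sub_cancel]
      rw [Finset.sum_range_succ']
      simp only [List.getD_cons_succ, List.getD_cons_zero]
      omega

/-- The successor of an index in the cyclic list. -/
theorem get_succ {l : List V} {k : ℕ} (hlen : l.length = k + 1) (d : V) (i : Fin (k + 1)) :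
    (l ++ l.take 1).getD (i.val + 1) d = l.getD (i + 1).val d := by
  have hi := i.isLt
  rw [Fin.val_add_one]
  split
  · rename_i h
    subst h
    rcases l with _ | ⟨a, t⟩
    · simp at hlen
    · have : t.length = k := by simpa using hlen
      simp [List.getD_eq_getElem?_getD, ← this]
  · rename_i h
    have : i.val ≠ k := by
      intro hh
      apply h
      exact Fin.ext hh
    rw [List.getD_append]
    omega

/-- From a cyclic list to a cyclic enumeration. -/
theorem exists_enum [Fintype V] {l : List V} (hc : Cyc A l)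
    (hl : l.toFinset = Finset.univ) {n : ℕ} (hn : Fintype.card V = n) :
    ∃ v : ZMod n ≃ V, (∀ i, Adj A (v i) (v (i + 1))) ∧
      ({i : ZMod n | A (v (i + 1)) (v i)}.ncard = cb A l) := by
  have hlen : l.length = n := by
    rw [← hc.card_toFinset, hl, Finset.card_univ, hn]
  have hmem : ∀ x, x ∈ l := by
    intro x; have : x ∈ l.toFinset := by rw [hl]; simp
    simpa using this
  obtain ⟨k, rfl⟩ : ∃ k, n = k + 1 := by
    have := hc.len
    exact ⟨n - 1, by omega⟩
  let e : Fin l.length ≃ V := List.Nodup.getEquivOfForallMemList l hc.nodup hmem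
  let v : Fin (k + 1) ≃ V := (finCongr hlen.symm).trans e
  obtain ⟨d⟩ : Nonempty V := ⟨v 0⟩
  have hv : ∀ i : Fin (k + 1), v i = l.getD i.val d := by
    intro i
    have hi := i.isLt
    simp [v, e, List.Nodup.getEquivOfForallMemList, hlen, hi]
  have hv1 : ∀ i : Fin (k + 1), v i = (l ++ l.take 1).getD i.val d := by
    intro i
    have hi := i.isLt
    rw [hv, List.getD_append]
    omega
  have hv2 : ∀ i : Fin (k + 1), v (i + 1) = (l ++ l.take 1).getD (i.val + 1) d := by
    intro i
    rw [hv, get_succ hlen]
  have hL : (l ++ l.take 1).length = k + 2 := by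
    simp [hlen]
  have hch := List.isChain_iff_getElem.1 hc.chain
  refine ⟨v, ?_, ?_⟩
  · intro i
    change Fin (k + 1) at i
    have hi := i.isLt
    have := hch i.val (by omega)
    have h1 := hv1 i
    have h2 := hv2 i
    rw [List.getD_eq_getElem _ _ (by omega)] at h1 h2
    rw [← h1, ← h2] at this
    exact this
  · unfold cb
    rw [bk_eq_sum _ d, hL]
    have : (k + 2 - 1) = k + 1 := by omega
    rw [this, Finset.sum_range]
    have h3 : ∀ i : Fin (k + 1), bw A ((l ++ l.take 1).getD i.val d)
        ((l ++ l.take 1).getD (i.val + 1) d) = if A (v (i + 1)) (v i) then 1 else 0 := by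
      intro i
      rw [← hv1, ← hv2]
      rfl
    rw [Finset.sum_congr rfl (fun i _ => h3 i)]
    rw [← Finset.card_filter]
    have h4 : {i : Fin (k + 1) | A (v (i + 1)) (v i)} =
        ((Finset.univ.filter (fun i : Fin (k + 1) => A (v (i + 1)) (v i)) : Finset _) :
          Set (Fin (k + 1))) := by
      ext i
      simp
    have h5 := congrArg Set.ncard h4
    rw [Set.ncard_coe_finset] at h5
    exact h5

end Pool.Agent.H94.OD
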