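import Pool.Agent.H94.OD.Sums

/-!
# The weights
-/

namespace Pool.Agent.H94.OD

open List

set_option linter.unusedSectionVars false

variable {V : Type*} [DecidableEq V] {A : V → V → Prop} [DecidableRel A]

/-- The weight of a vertex. -/
def wt (A : V → V → Prop) [DecidableRel A] (S : Finset V) (τ : ℕ) (v : V) : ℚ :=
  if (nn A S v).card < τ then 1 else ((2 * τ - 1 : ℚ) / 2) / ((2 * τ - 1 : ℚ) - (nn A S v).card)

section wt

variable {S : Finset V} {τ : ℕ} {v : V}

theorem wt_light (h : (nn A S v).card < τ) : wt A S τ v = 1 := by simp [wt, h]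

theorem heavy_le (hO : Ore A S τ) (hτ : 1 ≤ τ) (hv : v ∈ S) (h : τ ≤ (nn A S v).card) :
    (nn A S v).card + 2 ≤ 2 * τ := by
  have h1 : (nn A S v).Nonempty := by rw [← Finset.card_pos]; omega
  obtain ⟨u, hu⟩ := h1
  rw [mem_nn] at hu
  have h2 := hO u hu.1 v hv hu.2.1 (fun hh => hu.2.2 hh.symm)
  have h3 : 1 ≤ (nn A S u).card := by
    rw [Nat.one_le_iff_ne_zero, ← Nat.pos_iff_ne_zero, Finset.card_pos]
    exact ⟨v, mem_nn.2 ⟨hv, hu.2.1.symm, fun hh => hu.2.2 hh.symm⟩⟩
  omega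

theorem nn_light (hO : Ore A S τ) (hv : v ∈ S) (h : τ ≤ (nn A S v).card) {u : V}
    (hu : u ∈ nn A S v) : (nn A S u).card < τ := by
  rw [mem_nn] at hu
  have h2 := hO u hu.1 v hv hu.2.1 (fun hh => hu.2.2 hh.symm)
  omega

theorem wt_heavy (hO : Ore A S τ) (hτ : 1 ≤ τ) (hv : v ∈ S) (h : τ ≤ (nn A S v).card) :
    wt A S τ v * ((2 * τ - 1 : ℚ) - (nn A S v).card) = (2 * τ - 1 : ℚ) / 2 := by
  have h1 := heavy_le hO hτ hv h
  have h2 : ((nn A S v).card : ℚ) + 2 ≤ 2 * τ := by exact_mod_cast h1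
  have h3 : ((2 * τ - 1 : ℚ) - (nn A S v).card) ≠ 0 := by
    have : 0 < ((2 * τ - 1 : ℚ) - (nn A S v).card) := by linarith
    exact this.ne'
  have h4 : ¬ (nn A S v).card < τ := by omega
  rw [wt, if_neg h4, div_mul_cancel₀ _ h3]

theorem wt_heavy_gt (hO : Ore A S τ) (hτ : 1 ≤ τ) (hv : v ∈ S) (h : τ ≤ (nn A S v).card) :
    1 < wt A S τ v := by
  have h1 := heavy_le hO hτ hv h
  have h2 : ((nn A S v).card : ℚ) + 2 ≤ 2 * τ := by exact_mod_cast h1
  have h3 : (τ : ℚ) ≤ (nn A S v).card := by exact_mod_cast h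
  have h4 := wt_heavy hO hτ hv h
  by_contra hcon
  have h5 : wt A S τ v ≤ 1 := not_lt.1 hcon
  have h6 : 0 < ((2 * τ - 1 : ℚ) - (nn A S v).card) := by linarith
  nlinarith

theorem wt_ge (hO : Ore A S τ) (hτ : 1 ≤ τ) (hv : v ∈ S) : 1 ≤ wt A S τ v := by
  by_cases h : (nn A S v).card < τ
  · rw [wt_light h]
  · exact (wt_heavy_gt hO hτ hv (by omega)).le

theorem wt_sum_light (hO : Ore A S τ) (hτ : 1 ≤ τ) (hv : v ∈ S) (h : (nn A S v).card < τ) :
    ∑ u ∈ nn A S v, wt A S τ u ≤ (2 * τ - 1 : ℚ) / 2 := by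
  have hτ' : (1 : ℚ) ≤ τ := by exact_mod_cast hτ
  by_cases h0 : (nn A S v).card = 0
  · rw [Finset.card_eq_zero] at h0
    rw [h0, Finset.sum_empty]; linarith
  have hpos : (0 : ℚ) < (nn A S v).card := by
    have : 0 < (nn A S v).card := by omega
    exact_mod_cast this
  have hh : ((nn A S v).card : ℚ) + 1 ≤ τ := by exact_mod_cast h
  have key : ∀ u ∈ nn A S v, wt A S τ u ≤ ((2 * τ - 1 : ℚ) / 2) / (nn A S v).card := by
    intro u hu
    rw [mem_nn] at hu
    rw [le_div_iff₀ hpos]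
    by_cases hl : (nn A S u).card < τ
    · rw [wt_light hl]; linarith
    · have h2 := hO u hu.1 v hv hu.2.1 (fun hh => hu.2.2 hh.symm)
      have h3 : ((nn A S u).card : ℚ) + (nn A S v).card + 1 ≤ 2 * τ := by exact_mod_cast h2
      have h4 := wt_heavy hO hτ hu.1 (by omega : τ ≤ (nn A S u).card)
      have h5 := wt_heavy_gt hO hτ hu.1 (by omega : τ ≤ (nn A S u).card)
      nlinarith
  calc ∑ u ∈ nn A S v, wt A S τ u
      ≤ ∑ u ∈ nn A S v, ((2 * τ - 1 : ℚ) / 2) / (nn A S v).card := Finset.sum_le_sum key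
    _ = (2 * τ - 1 : ℚ) / 2 := by
        rw [Finset.sum_const, nsmul_eq_mul]
        field_simp

end wt

section gaps

variable {S : Finset V} {c : V → ℚ} {l : List V} {v : V}

theorem IsMin.gap1 (h : IsMin A S c l) (hv : v ∈ S) (hvl : v ∉ l) {z z' : V} {Y Z : List V}
    (hr : l ~r (z :: (Y ++ z' :: Z))) (hz : Adj A v z) (hz' : Adj A v z') :
    (bk A (z :: (Y ++ [z'])) : ℚ) ≤ bw A z v + bw A v z' + (Y.map c).sum - c v := by
  have := h.exch (Q := [v]) hr rfl rfl (by simp) (by simpa using hvl) (by simpa using hv)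
    (by simp) hz.symm hz'
  simpa using this

theorem IsTie.gap1_lt (h : IsTie A S c l) (hv : v ∈ S) (hvl : v ∉ l) {z z' : V} {Z : List V}
    (hr : l ~r (z :: ([] ++ z' :: Z))) (hz : Adj A v z) (hz' : Adj A v z') :
    (bk A (z :: ([] ++ [z'])) : ℚ) < bw A z v + bw A v z' - c v := by
  have := h.exch_lt (Q := [v]) hr rfl rfl (by simp) (by simpa using hvl) (by simpa using hv)
    (by simp) hz.symm hz' (by simp)
  simpa using this

end gaps

/-- The sum of the weights over the vertices outside of a cycle. -/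
theorem Psi_eq {S : Finset V} {c : V → ℚ} {l : List V} (hc : Cyc A l) (hl : l.toFinset ⊆ S) :
    Psi A c l + ∑ a ∈ S, c a = cb A l + ∑ a ∈ S \ l.toFinset, c a := by
  unfold Psi
  rw [sum_map_eq hc.nodup, ← Finset.sum_sdiff hl]
  ring

/-- The start: the minimal potential is below `τ + 1`. -/
theorem start (hA : ∀ u v, A u v → ¬ A v u) {S : Finset V} {τ : ℕ} (hτ : 1 ≤ τ)
    (hn : 2 * τ + 2 ≤ S.card) (hO : Ore A S τ)
    (IH : ∀ x ∈ S, ∃ l, Cyc A l ∧ l.toFinset = S.erase x ∧ cb A l ≤ τ)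
    {l : List V} (h : IsMin A S (wt A S τ) l) :
    (cb A l : ℚ) + ∑ a ∈ S \ l.toFinset, wt A S τ a < τ + 1 := by
  -- a light vertex
  obtain ⟨x, hx, hxl⟩ : ∃ x ∈ S, (nn A S x).card < τ := by
    obtain ⟨v, hv⟩ : S.Nonempty := by rw [← Finset.card_pos]; omega
    by_cases h1 : (nn A S v).card < τ
    · exact ⟨v, hv, h1⟩
    · obtain ⟨u, hu⟩ : (nn A S v).Nonempty := by rw [← Finset.card_pos]; omega
      exact ⟨u, (mem_nn.1 hu).1, nn_light hO hv (by omega) hu⟩
  obtain ⟨lx, c1, c2, c3⟩ := IH x hx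
  have hsub : lx.toFinset ⊆ S := by rw [c2]; exact Finset.erase_subset _ _
  have hsd : S \ lx.toFinset = {x} := by
    rw [c2]; ext u; simp only [Finset.mem_sdiff, Finset.mem_erase, Finset.mem_singleton]
    constructor
    · rintro ⟨a, b⟩; by_contra h; exact b ⟨h, a⟩
    · rintro rfl; exact ⟨hx, fun h => h.1 rfl⟩
  have e1 := Psi_eq (c := wt A S τ) c1 hsub
  rw [hsd, Finset.sum_singleton, wt_light hxl] at e1
  have e2 := Psi_eq (c := wt A S τ) h.cyc h.sub
  have e3 := h.min lx c1 hsub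
  have c3' : (cb A lx : ℚ) ≤ τ := by exact_mod_cast c3
  by_contra hcon
  have hcon' := not_lt.1 hcon
  -- `lx` is minimal
  have hmin : IsMin A S (wt A S τ) lx := by
    refine ⟨c1, hsub, fun l' h1 h2 => ?_⟩
    have := h.min l' h1 h2
    linarith
  have hxn : x ∉ lx := by
    intro hh
    have : x ∈ lx.toFinset := by simpa using hh
    rw [c2] at this
    simp at this
  have hcard : lx.toFinset.card + 1 = S.card := by
    rw [c2]; exact Finset.card_erase_add_one hx
  have hxn' : x ∉ lx.toFinset := by simpa using hxn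
  have h4 := nb_add_nn (A := A) hxn'
  have h5 := nn_mono (A := A) hsub x
  have h6 := single_sum (κ := 1) (g := wt A S τ) hA c1 hxn (by omega) (by
    intro z Y z' Z hr hz hz' _
    have := hmin.gap1 hx hxn hr hz hz'
    rw [wt_light hxl] at this
    linarith)
  have h7 : ∑ a ∈ nn A lx.toFinset x, wt A S τ a ≤ ∑ a ∈ nn A S x, wt A S τ a := by
    apply Finset.sum_le_sum_of_subset_of_nonneg
    · intro a ha
      rw [mem_nn] at ha ⊢
      exact ⟨hsub ha.1, ha.2⟩
    · intro a ha _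
      have := wt_ge hO hτ (mem_nn.1 ha).1
      linarith
  have h8 := wt_sum_light hO hτ hx hxl
  have h9 : (τ : ℚ) ≤ cb A lx := by linarith
  linarith

/-- The bound from an isolated light vertex. -/
theorem light_bound (hA : ∀ u v, A u v → ¬ A v u) {S : Finset V} {τ : ℕ} (hτ : 1 ≤ τ)
    (hn : 2 * τ + 2 ≤ S.card) (hO : Ore A S τ) {l : List V} (h : IsTie A S (wt A S τ) l)
    {v : V} (hv : v ∈ S) (hvl : v ∉ l) (hl : (nn A S v).card < τ)
    (hiso : ∀ u ∈ S, u ∉ l → u ≠ v → ¬ Adj A v u) :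
    cb A l + 2 * (S \ l.toFinset).card + 2 ≤ τ := by
  have hvC : v ∉ l.toFinset := by simpa using hvl
  have h2 := nb_add_nn (A := A) hvC
  have h3 := nn_split (A := A) h.sub v
  have hR : nn A (S \ l.toFinset) v = (S \ l.toFinset).erase v := by
    ext u
    simp only [mem_nn, Finset.mem_erase, Finset.mem_sdiff, List.mem_toFinset]
    constructor
    · rintro ⟨⟨a, b⟩, c, _⟩; exact ⟨c, a, b⟩
    · rintro ⟨c, a, b⟩; exact ⟨⟨a, b⟩, c, hiso u a b c⟩
  have hvR : v ∈ S \ l.toFinset := by simp [hv, hvl]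
  have h5 : (nn A (S \ l.toFinset) v).card + 1 = (S \ l.toFinset).card := by
    rw [hR, Finset.card_erase_add_one hvR]
  have h6 : l.toFinset.card + (S \ l.toFinset).card = S.card := by
    rw [Finset.card_sdiff_of_subset h.sub]
    have := Finset.card_le_card h.sub
    omega
  have h7 := single_sum (κ := 2) (g := fun a => wt A S τ a + 1) hA h.cyc hvl (by omega) (by
    intro z Y z' Z hr hz hz' _
    rcases Y with _ | ⟨b, Y⟩
    · have := h.gap1_lt hv hvl hr hz hz'
      rw [wt_light hl] at this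
      have h8 : bk A (z :: ([] ++ [z'])) + 1 < bw A z v + bw A v z' := by
        have : (bk A (z :: ([] ++ [z'])) : ℚ) + 1 < bw A z v + bw A v z' := by linarith
        exact_mod_cast this
      have h9 : (bk A (z :: ([] ++ [z'])) : ℚ) + 2 ≤ bw A z v + bw A v z' := by
        exact_mod_cast h8
      simp only [map_nil, sum_nil]
      linarith
    · have := h.toIsMin.gap1 hv hvl hr hz hz'
      rw [wt_light hl] at this
      have e : ((b :: Y).map (fun a => wt A S τ a + 1)).sum =
          ((b :: Y).map (wt A S τ)).sum + (b :: Y).length := by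
        generalize b :: Y = L
        induction L with
        | nil => simp
        | cons a L ih => simp only [map_cons, sum_cons, length_cons, ih]; push_cast; ring
      rw [e]
      have e2 : (1 : ℚ) ≤ (b :: Y).length := by simp
      linarith)
  rw [Finset.sum_add_distrib, Finset.sum_const, nsmul_eq_mul] at h7
  have h8 := wt_sum_light hO hτ hv hl
  have h9 : ∑ a ∈ nn A S v, wt A S τ a = ∑ a ∈ nn A l.toFinset v, wt A S τ a +
      ∑ a ∈ nn A (S \ l.toFinset) v, wt A S τ a := by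
    have e : nn A S v = nn A l.toFinset v ∪ nn A (S \ l.toFinset) v := by
      ext u
      simp only [mem_nn, Finset.mem_union, Finset.mem_sdiff]
      constructor
      · rintro ⟨h1, h2⟩
        by_cases h3 : u ∈ l.toFinset
        · exact Or.inl ⟨h3, h2⟩
        · exact Or.inr ⟨⟨h1, h3⟩, h2⟩
      · rintro (⟨h1, h2⟩ | ⟨⟨h1, h3⟩, h2⟩)
        · exact ⟨h.sub h1, h2⟩
        · exact ⟨h1, h2⟩
    rw [e]
    apply Finset.sum_union
    rw [Finset.disjoint_left]
    intro u hu hu'
    rw [mem_nn] at hu hu'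
    exact (Finset.mem_sdiff.1 hu'.1).2 hu.1
  have h10 : ((nn A (S \ l.toFinset) v).card : ℚ) ≤
      ∑ a ∈ nn A (S \ l.toFinset) v, wt A S τ a := by
    rw [← nsmul_one, ← Finset.sum_const]
    apply Finset.sum_le_sum
    intro a ha
    exact wt_ge hO hτ (Finset.mem_sdiff.1 (mem_nn.1 ha).1).1
  have q1 : ((nb A l.toFinset v).card : ℚ) + (nn A l.toFinset v).card = l.toFinset.card := by
    exact_mod_cast h2
  have q2 : ((nn A S v).card : ℚ) = (nn A l.toFinset v).card +
      (nn A (S \ l.toFinset) v).card := by exact_mod_cast h3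
  have q3 : ((nn A (S \ l.toFinset) v).card : ℚ) + 1 = (S \ l.toFinset).card := by
    exact_mod_cast h5
  have q4 : (l.toFinset.card : ℚ) + (S \ l.toFinset).card = S.card := by exact_mod_cast h6
  have q5 : (2 * τ + 2 : ℚ) ≤ S.card := by exact_mod_cast hn
  have q6 : ((nn A S v).card : ℚ) + 1 ≤ τ := by exact_mod_cast hl
  have h11 : (cb A l : ℚ) + 2 * (S \ l.toFinset).card + 1 < τ := by linarith
  have h12 : cb A l + 2 * (S \ l.toFinset).card + 1 < τ := by exact_mod_cast h11
  omega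

/-- The bound from an isolated heavy vertex. -/
theorem heavy_bound (hA : ∀ u v, A u v → ¬ A v u) {S : Finset V} {τ : ℕ} (hτ : 1 ≤ τ)
    (hn : 2 * τ + 2 ≤ S.card) (hO : Ore A S τ) {l : List V} (h : IsTie A S (wt A S τ) l)
    {v : V} (hv : v ∈ S) (hvl : v ∉ l) (hl : τ ≤ (nn A S v).card)
    (hiso : ∀ u ∈ S, u ∉ l → u ≠ v → ¬ Adj A v u) :
    cb A l + (S \ l.toFinset).card + 2 ≤ τ := by
  have hvC : v ∉ l.toFinset := by simpa using hvl
  have h2 := nb_add_nn (A := A) hvC
  have h3 := nn_split (A := A) h.sub v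
  have hR : nn A (S \ l.toFinset) v = (S \ l.toFinset).erase v := by
    ext u
    simp only [mem_nn, Finset.mem_erase, Finset.mem_sdiff, List.mem_toFinset]
    constructor
    · rintro ⟨⟨a, b⟩, c, _⟩; exact ⟨c, a, b⟩
    · rintro ⟨c, a, b⟩; exact ⟨⟨a, b⟩, c, hiso u a b c⟩
  have hvR : v ∈ S \ l.toFinset := by simp [hv, hvl]
  have h5 : (nn A (S \ l.toFinset) v).card + 1 = (S \ l.toFinset).card := by
    rw [hR, Finset.card_erase_add_one hvR]
  have h6 : l.toFinset.card + (S \ l.toFinset).card = S.card := by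
    rw [Finset.card_sdiff_of_subset h.sub]
    have := Finset.card_le_card h.sub
    omega
  have hle := heavy_le hO hτ hv hl
  have hgt := wt_heavy_gt hO hτ hv hl
  have hwt := wt_heavy hO hτ hv hl
  have h7 := single_sum (κ := max (wt A S τ v) 2) (g := fun _ => 1) hA h.cyc hvl (by omega) (by
    intro z Y z' Z hr hz hz' hY
    have e0 : (Y.map (wt A S τ)).sum = Y.length := by
      have : ∀ a ∈ Y, wt A S τ a = 1 := by
        intro a ha
        have hal : a ∈ l := by rw [hr.perm.mem_iff]; simp [ha]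
        have haS : a ∈ S := h.sub (by simpa using hal)
        exact wt_light (nn_light hO hv hl (mem_nn.2 ⟨haS, by
          rintro rfl; exact hvl hal, hY a ha⟩))
      rw [List.map_congr_left this]; simp
    have h8 := h.toIsMin.gap1 hv hvl hr hz hz'
    rw [e0] at h8
    have h9 : bk A (z :: (Y ++ [z'])) + 1 < bw A z v + bw A v z' + Y.length := by
      have : (bk A (z :: (Y ++ [z'])) : ℚ) + 1 < bw A z v + bw A v z' + Y.length := by linarith
      exact_mod_cast this
    have h10 : (bk A (z :: (Y ++ [z'])) : ℚ) + 2 ≤ bw A z v + bw A v z' + Y.length := by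
      exact_mod_cast h9
    have e1 : (Y.map (fun _ : V => (1 : ℚ))).sum = Y.length := by simp
    rw [e1]
    rcases le_total (wt A S τ v) 2 with hm | hm
    · rw [max_eq_right hm]; linarith
    · rw [max_eq_left hm]; linarith)
  rw [Finset.sum_const, nsmul_eq_mul, mul_one] at h7
  have q1 : ((nb A l.toFinset v).card : ℚ) + (nn A l.toFinset v).card = l.toFinset.card := by
    exact_mod_cast h2
  have q2 : ((nn A S v).card : ℚ) = (nn A l.toFinset v).card +
      (nn A (S \ l.toFinset) v).card := by exact_mod_cast h3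
  have q3 : ((nn A (S \ l.toFinset) v).card : ℚ) + 1 = (S \ l.toFinset).card := by
    exact_mod_cast h5
  have q4 : (l.toFinset.card : ℚ) + (S \ l.toFinset).card = S.card := by exact_mod_cast h6
  have q5 : (2 * τ + 2 : ℚ) ≤ S.card := by exact_mod_cast hn
  have q6 : ((nn A S v).card : ℚ) + 2 ≤ 2 * τ := by exact_mod_cast hle
  have m1 : wt A S τ v ≤ max (wt A S τ v) 2 := le_max_left _ _
  have m2 : (2 : ℚ) ≤ max (wt A S τ v) 2 := le_max_right _ _
  have q7 : ((nb A l.toFinset v).card : ℚ) = ((2 * τ - 1 : ℚ) - (nn A S v).card) +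
      (S.card - 2 * τ) := by linarith
  have p1 : ((2 * τ - 1 : ℚ) - (nn A S v).card) * (wt A S τ v - 1) ≤
      ((2 * τ - 1 : ℚ) - (nn A S v).card) * (max (wt A S τ v) 2 - 1) := by
    apply mul_le_mul_of_nonneg_left
    · linarith
    · linarith
  have p2 : (2 : ℚ) * 1 ≤ ((S.card : ℚ) - 2 * τ) * (max (wt A S τ v) 2 - 1) := by
    apply mul_le_mul
    · linarith
    · linarith
    · norm_num
    · linarith
  have p3 : ((nb A l.toFinset v).card : ℚ) * (1 - max (wt A S τ v) 2) =
      -(((2 * τ - 1 : ℚ) - (nn A S v).card) * (max (wt A S τ v) 2 - 1)) -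
      ((S.card : ℚ) - 2 * τ) * (max (wt A S τ v) 2 - 1) := by rw [q7]; ring
  have p4 : ((2 * τ - 1 : ℚ) - (nn A S v).card) * (wt A S τ v - 1) =
      (nn A S v).card - (2 * τ - 1 : ℚ) / 2 := by
    rw [mul_sub, mul_comm, hwt]; ring
  have h11 : (cb A l : ℚ) + (S \ l.toFinset).card + 1 < τ := by linarith
  have h12 : cb A l + (S \ l.toFinset).card + 1 < τ := by exact_mod_cast h11
  omega

end Pool.Agent.H94.OD
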